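import Mathlib
import Pool.Agent.Helper179.KSLemmas

/-!
A probability measure supported on the fixed points of a map has zero Kolmogorov-Sinai entropy.
-/

open MeasureTheory Filter Topology

namespace Pool.Agent.H786R2.EntZero

open Pool.Agent.Helper179.KS

lemma shannonEntropy_congr {X : Type*} [MeasurableSpace X] {ι : Type*} [Fintype ι]
    (μ : Measure X) {P Q : X → ι} (h : P =ᵐ[μ] Q) : shannonEntropy μ P = shannonEntropy μ Q := by
  unfold shannonEntropy
  refine Finset.sum_congr rfl fun i _ => ?_
  congr 1
  apply measureReal_congr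
  filter_upwards [h] with x hx
  have : (x ∈ P ⁻¹' {i}) = (x ∈ Q ⁻¹' {i}) := by
    simp only [Set.mem_preimage, Set.mem_singleton_iff, hx]
  exact this

theorem ksEntropy_eq_zero {X : Type*} [MeasurableSpace X] (μ : Measure X)
    [IsProbabilityMeasure μ] {T : X → X} (h : ∀ᵐ x ∂μ, T x = x) : ksEntropy μ T = 0 := by
  apply le_antisymm _ (ksEntropy_nonneg μ T)
  rw [ksEntropy_le_iff]
  intro k P _
  unfold partitionEntropy
  have h1 : ∀ n : ℕ, 0 < n → shannonEntropy μ (itinerary T P n) = shannonEntropy μ P := by
    intro n hn
    have h2 : itinerary T P n =ᵐ[μ] fun x => (fun _ : Fin n => P x) := by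
      filter_upwards [h] with x hx
      funext j
      unfold itinerary
      rw [Function.iterate_fixed hx]
    rw [shannonEntropy_congr μ h2]
    unfold shannonEntropy
    have : NeZero n := ⟨hn.ne'⟩
    symm
    apply Fintype.sum_of_injective (fun (c : Fin k) => (fun _ : Fin n => c))
    · intro a b hab
      exact congrFun hab 0
    · intro w hw
      have : (fun x => (fun _ : Fin n => P x)) ⁻¹' {w} = ∅ := by
        ext x
        simp only [Set.mem_preimage, Set.mem_singleton_iff, Set.mem_empty_iff_false, iff_false]
        intro hx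
        exact hw ⟨P x, hx⟩
      rw [this]
      simp
    · intro c
      congr 2
      ext x
      simp only [Set.mem_preimage, Set.mem_singleton_iff]
      constructor
      · rintro rfl; rfl
      · intro hx; exact congrFun hx 0
  have h3 : Tendsto (fun n : ℕ => ((shannonEntropy μ (itinerary T P n) / n : ℝ) : EReal)) atTop
      (𝓝 ((0 : ℝ) : EReal)) := by
    apply (EReal.continuous_coe_iff.2 continuous_id).continuousAt.tendsto.comp
    have h4 : Tendsto (fun n : ℕ => shannonEntropy μ P / n) atTop (𝓝 0) :=
      tendsto_const_div_atTop_nhds_zero_nat _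
    refine h4.congr' ?_
    filter_upwards [eventually_gt_atTop 0] with n hn
    rw [h1 n hn]
  rw [h3.limsup_eq]
  simp

end Pool.Agent.H786R2.EntZero
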