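import Mathlib

/-!
Lyapunov exponents: definitions for diffeomorphisms of manifolds, and their behaviour at
fixed points.
-/

open Filter Topology Manifold Set MeasureTheory
open scoped ContDiff NNReal

namespace Pool.Agent.H786R2.Exp

noncomputable section

variable {E : Type*} [NormedAddCommGroup E] [NormedSpace ℝ E] {H : Type*} [TopologicalSpace H]
  {I : ModelWithCorners ℝ E H} {M : Type*} [TopologicalSpace M] [ChartedSpace H M]

/-- The length of the tangent vector `u` at `x` for the Riemannian metric `g`. -/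
def len (g : Bundle.RiemannianMetric (fun x : M => TangentSpace I x)) (x : M)
    (u : TangentSpace I x) : ℝ :=
  Real.sqrt (g.inner x u u)

/-- The tangent vector `u` at `x` has Lyapunov exponent `χ` for the diffeomorphism `f`, in the
future and in the past:
`(1/n) log ‖T_x f^n u‖ → χ` as `n → +∞` and as `n → -∞`. -/
def HasExponent {r : WithTop ℕ∞} (g : Bundle.RiemannianMetric (fun x : M => TangentSpace I x))
    (f : Diffeomorph I I M M r) (x : M) (u : TangentSpace I x) (χ : ℝ) : Prop :=
  Tendsto (fun n : ℕ => Real.log (len g (f^[n] x) (mfderiv I I (f^[n]) x u)) / (n : ℝ))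
    atTop (𝓝 χ) ∧
  Tendsto (fun n : ℕ => Real.log (len g (f.symm^[n] x) (mfderiv I I (f.symm^[n]) x u)) /
    (-(n : ℝ))) atTop (𝓝 χ)

/-- An Oseledets splitting of the tangent space at `x`: a direct sum decomposition into nonzero
subspaces `V i` with pairwise distinct exponents `χ i`. -/
structure IsOseledetsSplitting {r : WithTop ℕ∞}
    (g : Bundle.RiemannianMetric (fun x : M => TangentSpace I x))
    (f : Diffeomorph I I M M r) (x : M) (k : ℕ) (V : Fin k → Submodule ℝ (TangentSpace I x))
    (χ : Fin k → ℝ) : Prop where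
  internal : DirectSum.IsInternal V
  ne_bot : ∀ i, V i ≠ ⊥
  injective : Function.Injective χ
  exponent : ∀ i, ∀ u ∈ V i, u ≠ 0 → HasExponent g f x u (χ i)

/-- `c` is the sum of the positive Lyapunov exponents of `f` at `x`, counted with multiplicity:
there is an Oseledets splitting at `x` with `c = ∑_{i : χ i > 0} (χ i) dim (V i)`. -/
def IsPositiveExponentSum {r : WithTop ℕ∞}
    (g : Bundle.RiemannianMetric (fun x : M => TangentSpace I x))
    (f : Diffeomorph I I M M r) (x : M) (c : ℝ) : Prop :=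
  ∃ (k : ℕ) (V : Fin k → Submodule ℝ (TangentSpace I x)) (χ : Fin k → ℝ),
    IsOseledetsSplitting g f x k V χ ∧
    c = ∑ i, if 0 < χ i then χ i * (Module.finrank ℝ (V i) : ℝ) else 0

/-! ### Fixed points -/

lemma mfderiv_iterate_fixed {f : M → M} {x : M} (hf : MDifferentiable I I f) (hx : f x = x)
    (n : ℕ) : ∀ y, y = x → ∀ u : E, (show E →L[ℝ] E from mfderiv I I (f^[n]) y) u =
      ((show E →L[ℝ] E from mfderiv I I f x) ^ n) u := by
  induction n with
  | zero =>
    intro y hy u
    simp only [Function.iterate_zero]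
    change (mfderiv I I (@id M) y) u = u
    rw [mfderiv_id]
    rfl
  | succ n ih =>
    intro y hy u
    subst hy
    have h1 : MDifferentiableAt I I (f^[n]) (f y) := by
      have : MDifferentiable I I (f^[n]) := by
        clear ih
        induction n with
        | zero => exact mdifferentiable_id
        | succ n ih => 
          rw [Function.iterate_succ]
          exact ih.comp hf
      exact this _
    have h2 : mfderiv I I (f^[n+1]) y = (mfderiv I I (f^[n]) (f y)).comp (mfderiv I I f y) := by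
      rw [Function.iterate_succ]
      exact mfderiv_comp y h1 (hf y)
    change (mfderiv I I (f^[n+1]) y) u = _
    rw [h2]
    have h3 := ih (f y) hx ((show E →L[ℝ] E from mfderiv I I f y) u)
    rw [pow_succ]
    exact h3

lemma len_congr (g : Bundle.RiemannianMetric (fun x : M => TangentSpace I x)) {x y : M}
    (h : y = x) (u : E) : len g y u = len g x u := by
  subst h; rfl

lemma hasExponent_fixed {r : WithTop ℕ∞} (hr : r ≠ 0)
    (g : Bundle.RiemannianMetric (fun x : M => TangentSpace I x))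
    (f : Diffeomorph I I M M r) {x : M} (hx : f x = x) (u : E) (χ : ℝ) :
    HasExponent g f x u χ ↔
      Tendsto (fun n : ℕ => Real.log (len g x
        (((show E →L[ℝ] E from mfderiv I I f x) ^ n) u)) / (n : ℝ)) atTop (𝓝 χ) ∧
      Tendsto (fun n : ℕ => Real.log (len g x
        (((show E →L[ℝ] E from mfderiv I I f.symm x) ^ n) u)) / (-(n : ℝ))) atTop (𝓝 χ) := by
  have hx' : f.symm x = x := by
    nth_rewrite 1 [← hx]
    exact f.symm_apply_apply x
  have h1 : ∀ n : ℕ, len g (f^[n] x) (mfderiv I I (f^[n]) x u) =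
      len g x (((show E →L[ℝ] E from mfderiv I I f x) ^ n) u) := by
    intro n
    have h2 := mfderiv_iterate_fixed (I := I) (f.mdifferentiable hr) hx n x rfl u
    rw [← h2]
    exact len_congr g (Function.iterate_fixed hx n) _
  have h3 : ∀ n : ℕ, len g (f.symm^[n] x) (mfderiv I I (f.symm^[n]) x u) =
      len g x (((show E →L[ℝ] E from mfderiv I I f.symm x) ^ n) u) := by
    intro n
    have h2 := mfderiv_iterate_fixed (I := I) (f.symm.mdifferentiable hr) hx' n x rfl u
    rw [← h2]
    exact len_congr g (Function.iterate_fixed hx' n) _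
  unfold HasExponent
  simp only [h1, h3]

/-- the length is comparable to the norm of the model space -/
lemma len_equiv [FiniteDimensional ℝ E] (g : Bundle.RiemannianMetric (fun x : M => TangentSpace I x))
    (x : M) : ∃ c C : ℝ, 0 < c ∧ 0 < C ∧ ∀ u : E, c * ‖u‖ ≤ len g x u ∧ len g x u ≤ C * ‖u‖ := by
  let B : E →L[ℝ] E →L[ℝ] ℝ := g.inner x
  have hb : ∀ u : E, len g x u = Real.sqrt (B u u) := fun u => rfl
  have h0 : ∀ u : E, 0 ≤ B u u := by
    intro u
    by_cases hu : u = 0
    · rw [hu]; simp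
    · exact (g.pos x u hu).le
  obtain ⟨r, hr⟩ := NormedSpace.isVonNBounded_iff' ℝ |>.1
    (show Bornology.IsVonNBounded ℝ {v : E | B v v < 1} from g.isVonNBounded x)
  have hr' : ∀ v : E, B v v < 1 → ‖v‖ ≤ |r| + 1 := fun v hv =>
    (hr v hv).trans ((le_abs_self r).trans (by linarith))
  set R := |r| + 1 with hR
  have hRpos : 0 < R := by positivity
  refine ⟨1 / (2 * R), Real.sqrt (‖B‖ + 1), by positivity, by positivity, ?_⟩
  intro u
  rw [hb]
  constructor
  · by_contra hlt
    push Not at hlt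
    -- `√(B u u) < ‖u‖ / (2R)`, then `v = (2R/‖u‖) u` has `B v v < 1` but norm `2R`
    have hu : 0 < ‖u‖ := by
      by_contra hu
      have : ‖u‖ = 0 := le_antisymm (not_lt.1 hu) (norm_nonneg u)
      rw [this, mul_zero] at hlt
      exact absurd hlt (not_lt.2 (Real.sqrt_nonneg _))
    have h1 : B u u < (1 / (2 * R) * ‖u‖) ^ 2 := by
      rw [← Real.sqrt_lt_sqrt_iff (h0 u), Real.sqrt_sq (by positivity)]
      exact hlt
    have h2 := hr' ((2 * R / ‖u‖) • u) (by
      rw [map_smul, smul_eq_mul, map_smul, smul_apply, smul_eq_mul]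
      have h3 : 0 < 2 * R / ‖u‖ := by positivity
      calc 2 * R / ‖u‖ * (2 * R / ‖u‖ * B u u)
          < 2 * R / ‖u‖ * (2 * R / ‖u‖ * (1 / (2 * R) * ‖u‖) ^ 2) := by gcongr
        _ = 1 := by field_simp)
    rw [norm_smul, Real.norm_eq_abs, abs_of_pos (by positivity)] at h2
    have h4 : 2 * R / ‖u‖ * ‖u‖ = 2 * R := by field_simp
    rw [h4] at h2
    linarith
  · have h1 : B u u ≤ (‖B‖ + 1) * ‖u‖ ^ 2 := by
      have h2 := B.le_opNorm₂ u u
      have h3 : B u u ≤ ‖B u u‖ := Real.le_norm_self _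
      nlinarith [sq_nonneg ‖u‖]
    calc Real.sqrt (B u u) ≤ Real.sqrt ((‖B‖ + 1) * ‖u‖ ^ 2) := Real.sqrt_le_sqrt h1
      _ = Real.sqrt (‖B‖ + 1) * ‖u‖ := by
          rw [Real.sqrt_mul (by positivity), Real.sqrt_sq (norm_nonneg u)]

/-- two-sided exponential bounds give the exponent -/
lemma tendsto_log_div {a : ℕ → ℝ} {c C μ : ℝ} (hc : 0 < c) (hC : 0 < C) (hμ : 0 < μ)
    (h : ∀ n, c * μ ^ n ≤ a n ∧ a n ≤ C * μ ^ n) :
    Tendsto (fun n : ℕ => Real.log (a n) / (n : ℝ)) atTop (𝓝 (Real.log μ)) := by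
  have hpos : ∀ n, 0 < a n := fun n => lt_of_lt_of_le (by positivity) (h n).1
  have h1 : ∀ d : ℝ, Tendsto (fun n : ℕ => (Real.log d + n * Real.log μ) / (n : ℝ)) atTop
      (𝓝 (Real.log μ)) := by
    intro d
    have h2 : Tendsto (fun n : ℕ => Real.log d / (n : ℝ) + Real.log μ) atTop
        (𝓝 (0 + Real.log μ)) :=
      (tendsto_const_div_atTop_nhds_zero_nat _).add tendsto_const_nhds
    rw [zero_add] at h2
    refine h2.congr' ?_
    filter_upwards [eventually_gt_atTop 0] with n hn
    have : (n : ℝ) ≠ 0 := by exact_mod_cast hn.ne'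
    field_simp
  refine tendsto_of_tendsto_of_tendsto_of_le_of_le (h1 c) (h1 C) ?_ ?_
  · intro n
    apply div_le_div_of_nonneg_right _ (Nat.cast_nonneg n)
    rw [← Real.log_pow, ← Real.log_mul hc.ne' (pow_pos hμ n).ne']
    exact Real.log_le_log (by positivity) (h n).1
  · intro n
    apply div_le_div_of_nonneg_right _ (Nat.cast_nonneg n)
    rw [← Real.log_pow, ← Real.log_mul hC.ne' (pow_pos hμ n).ne']
    exact Real.log_le_log (hpos n) (h n).2

lemma tendsto_log_div_neg {a : ℕ → ℝ} {c C μ : ℝ} (hc : 0 < c) (hC : 0 < C) (hμ : 0 < μ)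
    (h : ∀ n, c * (μ⁻¹) ^ n ≤ a n ∧ a n ≤ C * (μ⁻¹) ^ n) :
    Tendsto (fun n : ℕ => Real.log (a n) / (-(n : ℝ))) atTop (𝓝 (Real.log μ)) := by
  have h1 := (tendsto_log_div hc hC (inv_pos.2 hμ) h).neg
  rw [Real.log_inv, neg_neg] at h1
  refine h1.congr fun n => ?_
  rw [div_neg]

/-- If some vector grows exponentially then some exponent is positive. -/
lemma exists_pos_exponent [FiniteDimensional ℝ E] {r : WithTop ℕ∞} (hr : r ≠ 0)
    (g : Bundle.RiemannianMetric (fun x : M => TangentSpace I x))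
    (f : Diffeomorph I I M M r) {x : M} (hx : f x = x) {k : ℕ}
    {V : Fin k → Submodule ℝ (TangentSpace I x)} {χ : Fin k → ℝ}
    (h : IsOseledetsSplitting g f x k V χ) {u : E} {c μ : ℝ} (hc : 0 < c) (hμ : 1 < μ)
    (hu : ∀ n : ℕ, c * μ ^ n ≤ len g x (((show E →L[ℝ] E from mfderiv I I f x) ^ n) u)) :
    ∃ i, 0 < χ i := by
  by_contra hneg
  push Not at hneg
  set A : E →L[ℝ] E := (show E →L[ℝ] E from mfderiv I I f x) with hA
  obtain ⟨c₁, C₁, hc₁, hC₁, hl⟩ := len_equiv g x
  -- every vector has subexponential growth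
  set δ := Real.log μ / 2 with hδ
  have hδpos : 0 < δ := by
    have := Real.log_pos hμ
    positivity
  have hsub : ∀ w : E, ∃ K : ℝ, ∀ᶠ n : ℕ in atTop, ‖(A ^ n) w‖ ≤ K * Real.exp (δ * n) := by
    -- first for vectors of the subspaces
    have h1 : ∀ i, ∀ w : E, (w ∈ (show Submodule ℝ E from V i)) →
        ∃ K : ℝ, ∀ᶠ n : ℕ in atTop, ‖(A ^ n) w‖ ≤ K * Real.exp (δ * n) := by
      intro i w hw
      by_cases hw0 : w = 0
      · refine ⟨0, Eventually.of_forall fun n => ?_⟩
        rw [hw0, map_zero, norm_zero, zero_mul]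
      · have h2 := ((hasExponent_fixed hr g f hx w (χ i)).1 (h.exponent i w hw hw0)).1
        refine ⟨1 / c₁, ?_⟩
        have h3 := h2.eventually (gt_mem_nhds (show χ i < δ from (hneg i).trans_lt hδpos))
        filter_upwards [h3, eventually_gt_atTop 0] with n hn hn0
        have hn0' : (0 : ℝ) < n := by exact_mod_cast hn0
        rw [div_lt_iff₀ hn0'] at hn
        have h4 := (hl ((A ^ n) w)).1
        by_cases hz : len g x ((A ^ n) w) ≤ 0
        · have h5 : ‖(A ^ n) w‖ ≤ 0 := by
            have := norm_nonneg ((A ^ n) w)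
            nlinarith
          exact h5.trans (by positivity)
        · push Not at hz
          have h5 : len g x ((A ^ n) w) ≤ Real.exp (δ * n) := by
            rw [← Real.log_le_iff_le_exp hz]
            exact hn.le
          rw [one_div, inv_mul_eq_div, le_div_iff₀ hc₁, mul_comm]
          exact h4.trans h5
    intro w
    have h2 : w ∈ ⨆ i, (show Submodule ℝ E from V i) := by
      have h3 : iSup V = ⊤ := h.internal.submodule_iSup_eq_top
      have h4 : (⨆ i, (show Submodule ℝ E from V i)) = ⊤ := h3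
      rw [h4]; trivial
    induction h2 using Submodule.iSup_induction' with
    | mem i y hy => exact h1 i y hy
    | zero =>
      refine ⟨0, Eventually.of_forall fun n => ?_⟩
      rw [map_zero, norm_zero, zero_mul]
    | add y z hy hz ihy ihz =>
      obtain ⟨K₁, hK₁⟩ := ihy
      obtain ⟨K₂, hK₂⟩ := ihz
      refine ⟨K₁ + K₂, ?_⟩
      filter_upwards [hK₁, hK₂] with n h₁ h₂
      rw [map_add, add_mul]
      exact (norm_add_le _ _).trans (add_le_add h₁ h₂)
  obtain ⟨K, hK⟩ := hsub u
  have h5 : ∀ᶠ n : ℕ in atTop, c * Real.exp (δ * n) ≤ C₁ * K := by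
    filter_upwards [hK] with n hn
    have h6 := (hu n).trans ((hl _).2.trans (mul_le_mul_of_nonneg_left hn hC₁.le))
    have h7 : μ ^ n = Real.exp (δ * n) * Real.exp (δ * n) := by
      rw [← Real.exp_add, ← two_mul, hδ]
      rw [show 2 * (Real.log μ / 2 * (n : ℝ)) = (n : ℝ) * Real.log μ by ring,
        Real.exp_nat_mul, Real.exp_log (by linarith)]
    rw [h7] at h6
    have h8 := Real.exp_pos (δ * n)
    by_contra hlt
    push Not at hlt
    nlinarith
  have h9 : Tendsto (fun n : ℕ => c * Real.exp (δ * n)) atTop atTop := by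
    apply Tendsto.const_mul_atTop hc
    apply Real.tendsto_exp_atTop.comp
    exact Tendsto.const_mul_atTop hδpos tendsto_natCast_atTop_atTop
  obtain ⟨n, hn1, hn2⟩ := (h5.and (h9.eventually_gt_atTop (C₁ * K))).exists
  linarith

lemma posExpSum_pos [FiniteDimensional ℝ E] {r : WithTop ℕ∞} (hr : r ≠ 0)
    (g : Bundle.RiemannianMetric (fun x : M => TangentSpace I x))
    (f : Diffeomorph I I M M r) {x : M} (hx : f x = x) {u : E} {c μ : ℝ} (hc : 0 < c) (hμ : 1 < μ)
    (hu : ∀ n : ℕ, c * μ ^ n ≤ len g x (((show E →L[ℝ] E from mfderiv I I f x) ^ n) u))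
    {s : ℝ} (hs : IsPositiveExponentSum g f x s) : 0 < s := by
  obtain ⟨k, V, χ, h, rfl⟩ := hs
  obtain ⟨i, hi⟩ := exists_pos_exponent hr g f hx h hc hμ hu
  have hV : 0 < Module.finrank ℝ (V i) := by
    have : FiniteDimensional ℝ (TangentSpace I x) := ‹FiniteDimensional ℝ E›
    have : Nontrivial (V i) := (Submodule.nontrivial_iff_ne_bot).2 (h.ne_bot i)
    exact Module.finrank_pos
  apply Finset.sum_pos'
  · intro j _
    split_ifs with hj
    · positivity
    · exact le_rfl
  · refine ⟨i, Finset.mem_univ i, ?_⟩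
    rw [if_pos hi]
    have : (0 : ℝ) < Module.finrank ℝ (V i) := by exact_mod_cast hV
    positivity

end

end Pool.Agent.H786R2.Exp
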