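import Pool.Agent.H786R2.TorusDyn
import Pool.Agent.H786R2.FixExp

/-!
The exponents of the torus map at its fixed points.
-/

open Filter Topology Manifold Set MeasureTheory
open scoped ContDiff NNReal

namespace Pool.Agent.H786R2.Torus

open Pool.Agent.H786R2.Exp

noncomputable section

attribute [local instance] finrank_real_complex_fact'

/-- the model vector space -/
abbrev E2 : Type := EuclideanSpace ℝ (Fin 1) × EuclideanSpace ℝ (Fin 1)

/-- the derivative of the covering -/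
def L (q : ℝ × ℝ) : ℝ × ℝ →L[ℝ] E2 := mfderiv 𝓘(ℝ, ℝ × ℝ) I2 Φ q

lemma L_congr {q q' : ℝ × ℝ} (h : q' = q) (v : ℝ × ℝ) :
    (show ℝ × ℝ →L[ℝ] E2 from mfderiv 𝓘(ℝ, ℝ × ℝ) I2 Φ q') v = L q v := by
  subst h; rfl

lemma mdiff_Phi (q : ℝ × ℝ) : MDifferentiableAt 𝓘(ℝ, ℝ × ℝ) I2 Φ q :=
  (contMDiff_Phi.mdifferentiable (by simp)) q

lemma L_injective (q : ℝ × ℝ) : Function.Injective (L q) := by
  rw [injective_iff_map_eq_zero]
  intro v hv
  -- compose with the inclusion in `ℂ × ℂ`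
  let ι : T2 → ℂ × ℂ := fun z => ((z.1 : ℂ), (z.2 : ℂ))
  have hι : ContMDiff I2 𝓘(ℝ, ℂ × ℂ) ω ι := by
    have f1 : ContMDiff I2 (𝓡 1) ω (fun z : T2 => z.1) := contMDiff_fst
    have f2 : ContMDiff I2 (𝓡 1) ω (fun z : T2 => z.2) := contMDiff_snd
    have h1 : ContMDiff (𝓡 1) 𝓘(ℝ, ℂ) ω (fun a : Circle => (a : ℂ)) :=
      contMDiff_coe_sphere (E := ℂ) (n := 1)
    exact (h1.comp f1).prodMk_space (h1.comp f2)
  have hιd : MDifferentiableAt I2 𝓘(ℝ, ℂ × ℂ) ι (Φ q) := (hι.mdifferentiable (by simp)) _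
  have h1 : mfderiv 𝓘(ℝ, ℝ × ℝ) 𝓘(ℝ, ℂ × ℂ) (ι ∘ Φ) q =
      (mfderiv I2 𝓘(ℝ, ℂ × ℂ) ι (Φ q)).comp (mfderiv 𝓘(ℝ, ℝ × ℝ) I2 Φ q) :=
    mfderiv_comp q hιd (mdiff_Phi q)
  rw [mfderiv_eq_fderiv] at h1
  have h2 : HasFDerivAt (ι ∘ Φ) (ContinuousLinearMap.prod
      ((ContinuousLinearMap.fst ℝ ℝ ℝ).smulRight (Complex.exp (q.1 * Complex.I) * Complex.I))
      ((ContinuousLinearMap.snd ℝ ℝ ℝ).smulRight (Complex.exp (q.2 * Complex.I) * Complex.I))) q := by
    have h3 : ι ∘ Φ = fun p : ℝ × ℝ => (Complex.exp (p.1 * Complex.I),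
        Complex.exp (p.2 * Complex.I)) := by
      funext p
      simp [ι, Φ, Circle.coe_exp]
    rw [h3]
    have h4 : ∀ t : ℝ, HasDerivAt (fun t : ℝ => Complex.exp (t * Complex.I))
        (Complex.exp (t * Complex.I) * Complex.I) t := by
      intro t
      have h5 : HasDerivAt (fun t : ℝ => (t : ℂ) * Complex.I) Complex.I t := by
        have := (Complex.ofRealCLM.hasDerivAt (x := t)).mul_const Complex.I
        simpa using this
      exact h5.cexp
    apply HasFDerivAt.prodMk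
    · have := (h4 q.1).hasFDerivAt.comp q (hasFDerivAt_fst (𝕜 := ℝ) (p := q))
      refine this.congr_fderiv ?_
      ext <;> simp
    · have := (h4 q.2).hasFDerivAt.comp q (hasFDerivAt_snd (𝕜 := ℝ) (p := q))
      refine this.congr_fderiv ?_
      ext <;> simp
  rw [h2.fderiv] at h1
  have h6 := congrArg (fun T : ℝ × ℝ →L[ℝ] ℂ × ℂ => T v) h1
  have h7 : (show ℝ × ℝ →L[ℝ] ℂ × ℂ from
      (mfderiv I2 𝓘(ℝ, ℂ × ℂ) ι (Φ q)).comp (mfderiv 𝓘(ℝ, ℝ × ℝ) I2 Φ q)) v = 0 := by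
    change (mfderiv I2 𝓘(ℝ, ℂ × ℂ) ι (Φ q)) (L q v) = 0
    rw [hv]
    exact map_zero _
  have h8 : ((v.1 : ℝ) • (Complex.exp (q.1 * Complex.I) * Complex.I),
      (v.2 : ℝ) • (Complex.exp (q.2 * Complex.I) * Complex.I)) = (0 : ℂ × ℂ) := by
    rw [← h7]
    exact h6
  rw [Prod.mk_eq_zero] at h8
  have h9 : ∀ t : ℝ, Complex.exp (t * Complex.I) * Complex.I ≠ 0 := fun t =>
    mul_ne_zero (Complex.exp_ne_zero _) Complex.I_ne_zero
  apply Prod.ext
  · exact (smul_eq_zero.1 h8.1).resolve_right (h9 _)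
  · exact (smul_eq_zero.1 h8.2).resolve_right (h9 _)

/-- the derivative of the covering as an equivalence -/
def Le (q : ℝ × ℝ) : (ℝ × ℝ) ≃L[ℝ] E2 :=
  (LinearMap.linearEquivOfInjective (L q : ℝ × ℝ →ₗ[ℝ] E2) (L_injective q)
    (by simp)).toContinuousLinearEquiv

lemma Le_apply (q v : ℝ × ℝ) : Le q v = L q v := rfl

/-- the derivative of the map at a point of the torus -/
def AA (z : T2) : E2 →L[ℝ] E2 := mfderiv I2 I2 f z

/-- the derivative of the inverse map at a point of the torus -/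
def BB (z : T2) : E2 →L[ℝ] E2 := mfderiv I2 I2 f.symm z

lemma omega_ne_zero : (ω : WithTop ℕ∞) ≠ 0 := by simp

lemma AA_L {q : ℝ × ℝ} (hq : F q = q) (v : ℝ × ℝ) :
    AA (Φ q) (L q v) = L q (dFe q v) := by
  have h1 : mfderiv 𝓘(ℝ, ℝ × ℝ) I2 (f ∘ Φ) q =
      (mfderiv I2 I2 f (Φ q)).comp (mfderiv 𝓘(ℝ, ℝ × ℝ) I2 Φ q) :=
    mfderiv_comp q (f.mdifferentiable omega_ne_zero _) (mdiff_Phi q)
  have hF : MDifferentiableAt 𝓘(ℝ, ℝ × ℝ) 𝓘(ℝ, ℝ × ℝ) F q :=
    (hasFDerivAt_F q).differentiableAt.mdifferentiableAt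
  have h2 : mfderiv 𝓘(ℝ, ℝ × ℝ) I2 (Φ ∘ F) q =
      (mfderiv 𝓘(ℝ, ℝ × ℝ) I2 Φ (F q)).comp (mfderiv 𝓘(ℝ, ℝ × ℝ) 𝓘(ℝ, ℝ × ℝ) F q) :=
    mfderiv_comp q (mdiff_Phi _) hF
  have h3 : (f ∘ Φ) = Φ ∘ F := funext fun p => f_Phi p
  have h4 : (show ℝ × ℝ →L[ℝ] E2 from mfderiv 𝓘(ℝ, ℝ × ℝ) I2 (f ∘ Φ) q) v =
      AA (Φ q) (L q v) := by
    rw [h1]; rfl
  have h5 : (show ℝ × ℝ →L[ℝ] E2 from mfderiv 𝓘(ℝ, ℝ × ℝ) I2 (Φ ∘ F) q) v =
      L q (dFe q v) := by
    rw [h2]
    rw [mfderiv_eq_fderiv, (hasFDerivAt_F q).fderiv, ← dFe_coe]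
    exact L_congr hq _
  rw [← h4, ← h5]
  rw [h3]

lemma BB_AA {z : T2} (hz : f z = z) (w : E2) : BB z (AA z w) = w := by
  have h1 : mfderiv I2 I2 (f.symm ∘ f) z = (mfderiv I2 I2 f.symm (f z)).comp (mfderiv I2 I2 f z) :=
    mfderiv_comp z (f.symm.mdifferentiable omega_ne_zero _) (f.mdifferentiable omega_ne_zero _)
  have h2 : (f.symm ∘ f : T2 → T2) = id := funext fun p => f.symm_apply_apply p
  have h3 : (show E2 →L[ℝ] E2 from mfderiv I2 I2 (f.symm ∘ f) z) w = w := by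
    rw [h2, mfderiv_id]; rfl
  have h4 : ∀ y, y = z → ∀ u : E2, (show E2 →L[ℝ] E2 from mfderiv I2 I2 f.symm y) u = BB z u := by
    intro y hy u; subst hy; rfl
  have h5 : (show E2 →L[ℝ] E2 from mfderiv I2 I2 (f.symm ∘ f) z) w = BB z (AA z w) := by
    rw [h1]
    exact h4 _ hz _
  rw [← h5, h3]

lemma BB_L {q : ℝ × ℝ} (hq : F q = q) (v : ℝ × ℝ) :
    BB (Φ q) (L q v) = L q ((dFe q).symm v) := by
  have h1 := AA_L hq ((dFe q).symm v)
  rw [ContinuousLinearEquiv.apply_symm_apply] at h1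
  rw [← h1]
  apply BB_AA
  rw [f_Phi, hq]

lemma AA_pow {q : ℝ × ℝ} (hq : F q = q) (n : ℕ) (v : ℝ × ℝ) :
    (AA (Φ q) ^ n) (L q v) = L q ((dFe q)^[n] v) := by
  induction n generalizing v with
  | zero => simp
  | succ n ih =>
    rw [pow_succ, Function.iterate_succ_apply, mul_apply_eq_comp, AA_L hq, ih]

lemma BB_pow {q : ℝ × ℝ} (hq : F q = q) (n : ℕ) (v : ℝ × ℝ) :
    (BB (Φ q) ^ n) (L q v) = L q ((dFe q).symm^[n] v) := by
  induction n generalizing v with
  | zero => simp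
  | succ n ih =>
    rw [pow_succ, Function.iterate_succ_apply, mul_apply_eq_comp, BB_L hq, ih]

lemma dFe_apply (q v : ℝ × ℝ) : dFe q v =
    (v.1 + (Real.cos q.1 * Real.cos q.2 / 2 * v.1 - Real.sin q.1 * Real.sin q.2 / 2 * v.2),
     v.2 + (Real.sin q.1 * Real.sin q.2 / 2 * v.1 - Real.cos q.1 * Real.cos q.2 / 2 * v.2)) := by
  have h : dFe q v = (ContinuousLinearMap.id ℝ (ℝ × ℝ) + dV q) v := by
    rw [← dFe_coe]; rfl
  rw [h]
  simp only [dV, add_apply, ContinuousLinearMap.id_apply, ContinuousLinearMap.prod_apply,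
    smul_apply, ContinuousLinearMap.coe_fst', ContinuousLinearMap.coe_snd', smul_eq_mul]
  apply Prod.ext <;> simp <;> ring

variable (g : Bundle.RiemannianMetric (fun x : T2 => TangentSpace I2 x))

/-- comparison of the length of `L v` with the Euclidean norm of `v` -/
lemma len_L (q : ℝ × ℝ) : ∃ c C : ℝ, 0 < c ∧ 0 < C ∧ ∀ v : ℝ × ℝ,
    c * Real.sqrt (v.1 ^ 2 + v.2 ^ 2) ≤ len g (Φ q) (L q v) ∧
    len g (Φ q) (L q v) ≤ C * Real.sqrt (v.1 ^ 2 + v.2 ^ 2) := by
  obtain ⟨c, C, hc, hC, h⟩ := len_equiv (I := I2) g (Φ q)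
  have hn1 : ∀ v : ℝ × ℝ, ‖v‖ ≤ Real.sqrt (v.1 ^ 2 + v.2 ^ 2) := by
    intro v
    apply max_le
    · rw [Real.norm_eq_abs]
      apply Real.abs_le_sqrt
      nlinarith [sq_nonneg v.2]
    · rw [Real.norm_eq_abs]
      apply Real.abs_le_sqrt
      nlinarith [sq_nonneg v.1]
  have hn2 : ∀ v : ℝ × ℝ, Real.sqrt (v.1 ^ 2 + v.2 ^ 2) ≤ 2 * ‖v‖ := by
    intro v
    apply Real.sqrt_le_iff.2
    refine ⟨by positivity, ?_⟩
    have h1 : |v.1| ≤ ‖v‖ := norm_fst_le v
    have h2 : |v.2| ≤ ‖v‖ := norm_snd_le v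
    have h3 := sq_abs v.1
    have h4 := sq_abs v.2
    nlinarith [abs_nonneg v.1, abs_nonneg v.2, norm_nonneg v]
  have hL1 : ∀ v, ‖L q v‖ ≤ ‖L q‖ * ‖v‖ := fun v => (L q).le_opNorm v
  have hL2 : ∀ v, ‖v‖ ≤ ‖((Le q).symm : E2 →L[ℝ] ℝ × ℝ)‖ * ‖L q v‖ := by
    intro v
    have h1 := ((Le q).symm : E2 →L[ℝ] ℝ × ℝ).le_opNorm (L q v)
    have h2 : ((Le q).symm : E2 →L[ℝ] ℝ × ℝ) (L q v) = v := (Le q).symm_apply_apply v
    rw [h2] at h1
    exact h1
  set K := ‖((Le q).symm : E2 →L[ℝ] ℝ × ℝ)‖ + 1 with hK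
  have hKpos : 0 < K := by positivity
  refine ⟨c / (2 * K), C * (‖L q‖ + 1), by positivity, by positivity, ?_⟩
  intro v
  constructor
  · have h1 : ‖v‖ ≤ K * ‖L q v‖ := (hL2 v).trans (by
      have := norm_nonneg (L q v); nlinarith)
    have h2 := (h (L q v)).1
    have h3 : Real.sqrt (v.1 ^ 2 + v.2 ^ 2) ≤ 2 * K * ‖L q v‖ := by
      have := hn2 v; nlinarith
    calc c / (2 * K) * Real.sqrt (v.1 ^ 2 + v.2 ^ 2)
        ≤ c / (2 * K) * (2 * K * ‖L q v‖) := by gcongr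
      _ = c * ‖L q v‖ := by field_simp
      _ ≤ _ := h2
  · have h2 := (h (L q v)).2
    calc len g (Φ q) (L q v) ≤ C * ‖L q v‖ := h2
      _ ≤ C * ((‖L q‖ + 1) * Real.sqrt (v.1 ^ 2 + v.2 ^ 2)) := by
          apply mul_le_mul_of_nonneg_left _ hC.le
          have h3 := hL1 v
          have h4 := hn1 v
          have h5 := norm_nonneg (L q)
          have h6 := norm_nonneg v
          nlinarith
      _ = _ := by ring

/-- two-sided scaling of the Euclidean norm gives an exponent -/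
lemma hasExponent_of_scaling {q : ℝ × ℝ} (hq : F q = q) {v : ℝ × ℝ} (hv : v ≠ 0) {μ : ℝ}
    (hμ : 0 < μ)
    (h1 : ∀ n : ℕ, Real.sqrt (((dFe q)^[n] v).1 ^ 2 + ((dFe q)^[n] v).2 ^ 2) =
      μ ^ n * Real.sqrt (v.1 ^ 2 + v.2 ^ 2))
    (h2 : ∀ n : ℕ, Real.sqrt (((dFe q).symm^[n] v).1 ^ 2 + ((dFe q).symm^[n] v).2 ^ 2) =
      (μ⁻¹) ^ n * Real.sqrt (v.1 ^ 2 + v.2 ^ 2)) :
    HasExponent g f (Φ q) (L q v) (Real.log μ) := by
  have hz : f (Φ q) = Φ q := by rw [f_Phi, hq]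
  rw [hasExponent_fixed omega_ne_zero g f hz]
  obtain ⟨c, C, hc, hC, h⟩ := len_L g q
  have hpos : 0 < Real.sqrt (v.1 ^ 2 + v.2 ^ 2) := by
    apply Real.sqrt_pos.2
    by_contra hneg
    push Not at hneg
    apply hv
    apply Prod.ext
    · have : v.1 ^ 2 = 0 := by nlinarith [sq_nonneg v.1, sq_nonneg v.2]
      simpa using this
    · have : v.2 ^ 2 = 0 := by nlinarith [sq_nonneg v.1, sq_nonneg v.2]
      simpa using this
  set s := Real.sqrt (v.1 ^ 2 + v.2 ^ 2) with hs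
  constructor
  · apply tendsto_log_div (c := c * s) (C := C * s) (by positivity) (by positivity) hμ
    intro n
    have h3 := h ((dFe q)^[n] v)
    rw [← AA_pow hq, h1] at h3
    constructor
    · calc c * s * μ ^ n = c * (μ ^ n * s) := by ring
        _ ≤ _ := h3.1
    · calc _ ≤ C * (μ ^ n * s) := h3.2
        _ = C * s * μ ^ n := by ring
  · apply tendsto_log_div_neg (c := c * s) (C := C * s) (by positivity) (by positivity) hμ
    intro n
    have h3 := h ((dFe q).symm^[n] v)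
    rw [← BB_pow hq, h2] at h3
    constructor
    · calc c * s * (μ⁻¹) ^ n = c * ((μ⁻¹) ^ n * s) := by ring
        _ ≤ _ := h3.1
    · calc _ ≤ C * ((μ⁻¹) ^ n * s) := h3.2
        _ = C * s * (μ⁻¹) ^ n := by ring

/-- a growing vector gives positivity of the sum of the positive exponents -/
lemma posExpSum_pos_of_scaling {q : ℝ × ℝ} (hq : F q = q) {v : ℝ × ℝ} (hv : v ≠ 0) {μ : ℝ}
    (hμ : 1 < μ)
    (h1 : ∀ n : ℕ, Real.sqrt (((dFe q)^[n] v).1 ^ 2 + ((dFe q)^[n] v).2 ^ 2) =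
      μ ^ n * Real.sqrt (v.1 ^ 2 + v.2 ^ 2)) {s : ℝ}
    (hs : IsPositiveExponentSum g f (Φ q) s) : 0 < s := by
  have hz : f (Φ q) = Φ q := by rw [f_Phi, hq]
  obtain ⟨c, C, hc, hC, h⟩ := len_L g q
  have hpos : 0 < Real.sqrt (v.1 ^ 2 + v.2 ^ 2) := by
    apply Real.sqrt_pos.2
    by_contra hneg
    push Not at hneg
    apply hv
    apply Prod.ext
    · have : v.1 ^ 2 = 0 := by nlinarith [sq_nonneg v.1, sq_nonneg v.2]
      simpa using this
    · have : v.2 ^ 2 = 0 := by nlinarith [sq_nonneg v.1, sq_nonneg v.2]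
      simpa using this
  refine posExpSum_pos omega_ne_zero g f hz (u := L q v) (c := c * Real.sqrt (v.1 ^ 2 + v.2 ^ 2))
    (μ := μ) (by positivity) hμ ?_ hs
  intro n
  have h3 := (h ((dFe q)^[n] v)).1
  rw [← AA_pow hq, h1] at h3
  calc c * Real.sqrt (v.1 ^ 2 + v.2 ^ 2) * μ ^ n = c * (μ ^ n * Real.sqrt (v.1 ^ 2 + v.2 ^ 2)) := by
        ring
    _ ≤ _ := h3

lemma iter_symm_of_iter {q v : ℝ × ℝ} {P : ℝ × ℝ → Prop} (hP : ∀ w, P w → P ((dFe q).symm w))
    (hv : P v) (n : ℕ) : P ((dFe q).symm^[n] v) := by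
  induction n with
  | zero => exact hv
  | succ n ih => rw [Function.iterate_succ_apply']; exact hP _ ih

/-- exponents at the eigenvectors -/
lemma hasExponent_eigen {q : ℝ × ℝ} (hq : F q = q) {v : ℝ × ℝ} (hv : v ≠ 0) {μ : ℝ}
    (hμ : 0 < μ) (h : dFe q v = μ • v) : HasExponent g f (Φ q) (L q v) (Real.log μ) := by
  have hsq : ∀ (a : ℝ), 0 < a → Real.sqrt ((a • v).1 ^ 2 + (a • v).2 ^ 2) =
      a * Real.sqrt (v.1 ^ 2 + v.2 ^ 2) := by
    intro a ha
    have : (a • v).1 ^ 2 + (a • v).2 ^ 2 = a ^ 2 * (v.1 ^ 2 + v.2 ^ 2) := by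
      simp only [Prod.smul_fst, Prod.smul_snd, smul_eq_mul]; ring
    rw [this, Real.sqrt_mul (by positivity), Real.sqrt_sq ha.le]
  apply hasExponent_of_scaling g hq hv hμ
  · intro n
    have h1 : (dFe q)^[n] v = μ ^ n • v := by
      induction n with
      | zero => simp
      | succ n ih =>
        rw [Function.iterate_succ_apply', ih, map_smul, h, smul_smul, pow_succ]
    rw [h1, hsq _ (pow_pos hμ n)]
  · intro n
    have h0 : (dFe q).symm v = μ⁻¹ • v := by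
      rw [ContinuousLinearEquiv.symm_apply_eq, map_smul, h, smul_smul, inv_mul_cancel₀ hμ.ne',
        one_smul]
    have h1 : (dFe q).symm^[n] v = (μ⁻¹) ^ n • v := by
      induction n with
      | zero => simp
      | succ n ih =>
        rw [Function.iterate_succ_apply', ih, map_smul, h0, smul_smul, pow_succ]
    rw [h1, hsq _ (pow_pos (inv_pos.2 hμ) n)]

lemma growth_eigen {q : ℝ × ℝ} (hq : F q = q) {v : ℝ × ℝ} (hv : v ≠ 0) {μ : ℝ}
    (hμ : 1 < μ) (h : dFe q v = μ • v) {s : ℝ}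
    (hs : IsPositiveExponentSum g f (Φ q) s) : 0 < s := by
  have hsq : ∀ (a : ℝ), 0 < a → Real.sqrt ((a • v).1 ^ 2 + (a • v).2 ^ 2) =
      a * Real.sqrt (v.1 ^ 2 + v.2 ^ 2) := by
    intro a ha
    have : (a • v).1 ^ 2 + (a • v).2 ^ 2 = a ^ 2 * (v.1 ^ 2 + v.2 ^ 2) := by
      simp only [Prod.smul_fst, Prod.smul_snd, smul_eq_mul]; ring
    rw [this, Real.sqrt_mul (by positivity), Real.sqrt_sq ha.le]
  apply posExpSum_pos_of_scaling g hq hv hμ _ hs
  intro n
  have h1 : (dFe q)^[n] v = μ ^ n • v := by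
    induction n with
    | zero => simp
    | succ n ih =>
      rw [Function.iterate_succ_apply', ih, map_smul, h, smul_smul, pow_succ]
  rw [h1, hsq _ (pow_pos (by linarith) n)]

/-- exponents in the conformal case -/
lemma conformal {q : ℝ × ℝ} {μ : ℝ} (hμ : 0 < μ)
    (h : ∀ v : ℝ × ℝ, (dFe q v).1 ^ 2 + (dFe q v).2 ^ 2 = μ ^ 2 * (v.1 ^ 2 + v.2 ^ 2)) (n : ℕ)
    (v : ℝ × ℝ) :
    Real.sqrt (((dFe q)^[n] v).1 ^ 2 + ((dFe q)^[n] v).2 ^ 2) =
      μ ^ n * Real.sqrt (v.1 ^ 2 + v.2 ^ 2) ∧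
    Real.sqrt (((dFe q).symm^[n] v).1 ^ 2 + ((dFe q).symm^[n] v).2 ^ 2) =
      (μ⁻¹) ^ n * Real.sqrt (v.1 ^ 2 + v.2 ^ 2) := by
  have h' : ∀ v : ℝ × ℝ, ((dFe q).symm v).1 ^ 2 + ((dFe q).symm v).2 ^ 2 =
      (μ⁻¹) ^ 2 * (v.1 ^ 2 + v.2 ^ 2) := by
    intro v
    have := h ((dFe q).symm v)
    rw [ContinuousLinearEquiv.apply_symm_apply] at this
    rw [this]
    field_simp
  have hs1 : ∀ v : ℝ × ℝ, Real.sqrt ((dFe q v).1 ^ 2 + (dFe q v).2 ^ 2) =
      μ * Real.sqrt (v.1 ^ 2 + v.2 ^ 2) := by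
    intro v
    rw [h, Real.sqrt_mul (by positivity), Real.sqrt_sq hμ.le]
  have hs2 : ∀ v : ℝ × ℝ, Real.sqrt (((dFe q).symm v).1 ^ 2 + ((dFe q).symm v).2 ^ 2) =
      μ⁻¹ * Real.sqrt (v.1 ^ 2 + v.2 ^ 2) := by
    intro v
    rw [h', Real.sqrt_mul (by positivity), Real.sqrt_sq (inv_pos.2 hμ).le]
  constructor
  · induction n with
    | zero => simp
    | succ n ih => rw [Function.iterate_succ_apply', hs1, ih, pow_succ]; ring
  · induction n with
    | zero => simp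
    | succ n ih => rw [Function.iterate_succ_apply', hs2, ih, pow_succ]; ring

lemma isInternal_span {q : ℝ × ℝ} :
    DirectSum.IsInternal (fun i : Fin 2 => (Submodule.span ℝ
      {L q (if i = 0 then ((1 : ℝ), (0 : ℝ)) else ((0 : ℝ), (1 : ℝ)))} : Submodule ℝ E2)) := by
  rw [DirectSum.isInternal_submodule_iff_isCompl _ (i := 0) (j := 1) (by decide) (by
    ext i; fin_cases i <;> simp)]
  simp only [if_true, show ((1 : Fin 2) = 0) = False by simp, if_false]
  constructor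
  · rw [Submodule.disjoint_def]
    intro w h1 h2
    obtain ⟨a, rfl⟩ := Submodule.mem_span_singleton.1 h1
    obtain ⟨b, hb⟩ := Submodule.mem_span_singleton.1 h2
    rw [← map_smul, ← map_smul] at hb
    have h3 := L_injective q hb
    have h4 := congrArg Prod.fst h3
    simp at h4
    rw [← h4]; simp
  · rw [codisjoint_iff_le_sup]
    intro w _
    rw [Submodule.mem_sup]
    obtain ⟨v, rfl⟩ := (Le q).surjective w
    refine ⟨v.1 • L q (1, 0), Submodule.smul_mem _ _ (Submodule.mem_span_singleton_self _),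
      v.2 • L q (0, 1), Submodule.smul_mem _ _ (Submodule.mem_span_singleton_self _), ?_⟩
    rw [← map_smul, ← map_smul, ← map_add, Le_apply]
    congr 1
    apply Prod.ext <;> simp

lemma exists_posExpSum {x y : ℝ} (h : (Real.sin x = 0 ∧ Real.sin y = 0) ∨
    (Real.cos x = 0 ∧ Real.cos y = 0)) :
    (∃ s, IsPositiveExponentSum g f (Φ (x, y)) s) ∧
      ∀ s, IsPositiveExponentSum g f (Φ (x, y)) s → 0 < s := by
  have hq := F_fixed h
  rcases h with h | h
  · -- saddles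
    have hx1 : Real.cos x = 1 ∨ Real.cos x = -1 := by
      apply U_horizontal.sq_eq_one_iff_of_ne_zero
      have := Real.sin_sq_add_cos_sq x
      rw [h.1] at this; linarith
    have hy1 : Real.cos y = 1 ∨ Real.cos y = -1 := by
      apply U_horizontal.sq_eq_one_iff_of_ne_zero
      have := Real.sin_sq_add_cos_sq y
      rw [h.2] at this; linarith
    obtain ⟨κ, hκ, hκ1⟩ : ∃ κ : ℝ, Real.cos x * Real.cos y = κ ∧ (κ = 1 ∨ κ = -1) := by
      refine ⟨_, rfl, ?_⟩
      rcases hx1 with h1 | h1 <;> rcases hy1 with h2 | h2 <;> rw [h1, h2] <;> norm_num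
    have e1 : dFe (x, y) ((1 : ℝ), (0 : ℝ)) = (1 + κ / 2) • ((1 : ℝ), (0 : ℝ)) := by
      rw [dFe_apply]
      simp only [h.1, h.2, hκ]
      apply Prod.ext <;> simp
    have e2 : dFe (x, y) ((0 : ℝ), (1 : ℝ)) = (1 - κ / 2) • ((0 : ℝ), (1 : ℝ)) := by
      rw [dFe_apply]
      simp only [h.1, h.2, hκ]
      apply Prod.ext <;> simp
      ring
    have p1 : 0 < 1 + κ / 2 := by rcases hκ1 with h | h <;> rw [h] <;> norm_num
    have p2 : 0 < 1 - κ / 2 := by rcases hκ1 with h | h <;> rw [h] <;> norm_num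
    have n1 : ((1 : ℝ), (0 : ℝ)) ≠ 0 := by simp
    have n2 : ((0 : ℝ), (1 : ℝ)) ≠ 0 := by simp
    refine ⟨⟨_, 2, fun i : Fin 2 => (Submodule.span ℝ
      {L (x, y) (if i = 0 then ((1 : ℝ), (0 : ℝ)) else ((0 : ℝ), (1 : ℝ)))} : Submodule ℝ E2),
      fun i => if i = 0 then Real.log (1 + κ / 2) else Real.log (1 - κ / 2), ?_, rfl⟩, ?_⟩
    · refine ⟨isInternal_span, ?_, ?_, ?_⟩
      · have key : ∀ i : Fin 2, (Submodule.span ℝ
          {L (x, y) (if i = 0 then ((1 : ℝ), (0 : ℝ)) else ((0 : ℝ), (1 : ℝ)))} :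
            Submodule ℝ E2) ≠ ⊥ := by
          intro i
          rw [Ne, Submodule.span_singleton_eq_bot]
          intro h0
          have h1 := L_injective (x, y) (h0.trans (map_zero _).symm)
          split_ifs at h1 with hi
          · exact n1 h1
          · exact n2 h1
        exact key
      · have hne : Real.log (1 + κ / 2) ≠ Real.log (1 - κ / 2) := by
          intro h0
          have := Real.log_injOn_pos p1 p2 h0
          rcases hκ1 with h | h <;> rw [h] at this <;> norm_num at this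
        intro i j hij
        fin_cases i <;> fin_cases j
        · rfl
        · exact absurd hij (by simpa using hne)
        · exact absurd hij (by simpa using hne.symm)
        · rfl
      · have key : ∀ (i : Fin 2) (u : E2), (u ∈ (Submodule.span ℝ {L (x, y)
            (if i = 0 then ((1 : ℝ), (0 : ℝ)) else ((0 : ℝ), (1 : ℝ)))} : Submodule ℝ E2)) →
            u ≠ 0 → HasExponent g f (Φ (x, y)) u
              (if i = 0 then Real.log (1 + κ / 2) else Real.log (1 - κ / 2)) := by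
          intro i u hu hu0
          obtain ⟨a, ha⟩ := Submodule.mem_span_singleton.1 hu
          have ha0 : a ≠ 0 := by
            rintro rfl
            apply hu0
            rw [← ha, zero_smul]
          rw [← map_smul] at ha
          by_cases hi : i = 0
          · rw [if_pos hi] at ha ⊢
            have := hasExponent_eigen g hq (v := a • ((1 : ℝ), (0 : ℝ))) (smul_ne_zero ha0 n1)
              p1 (by rw [map_smul, e1, smul_comm])
            rw [ha] at this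
            exact this
          · rw [if_neg hi] at ha ⊢
            have := hasExponent_eigen g hq (v := a • ((0 : ℝ), (1 : ℝ))) (smul_ne_zero ha0 n2)
              p2 (by rw [map_smul, e2, smul_comm])
            rw [ha] at this
            exact this
        exact key
    · intro s hs
      rcases hκ1 with hk | hk
      · exact growth_eigen g hq n1 (μ := 1 + κ / 2) (by rw [hk]; norm_num) e1 hs
      · exact growth_eigen g hq n2 (μ := 1 - κ / 2) (by rw [hk]; norm_num) e2 hs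
  · -- sources
    have hx1 : Real.sin x = 1 ∨ Real.sin x = -1 := by
      apply U_horizontal.sq_eq_one_iff_of_ne_zero
      have := Real.sin_sq_add_cos_sq x
      rw [h.1] at this; linarith
    have hy1 : Real.sin y = 1 ∨ Real.sin y = -1 := by
      apply U_horizontal.sq_eq_one_iff_of_ne_zero
      have := Real.sin_sq_add_cos_sq y
      rw [h.2] at this; linarith
    obtain ⟨σ, hσ, hσ1⟩ : ∃ σ : ℝ, Real.sin x * Real.sin y = σ ∧ σ ^ 2 = 1 := by
      refine ⟨_, rfl, ?_⟩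
      rcases hx1 with h1 | h1 <;> rcases hy1 with h2 | h2 <;> rw [h1, h2] <;> norm_num
    have hμ0 : (0 : ℝ) < Real.sqrt (5 / 4) := Real.sqrt_pos.2 (by norm_num)
    have hμ1 : (1 : ℝ) < Real.sqrt (5 / 4) := by
      rw [show (1 : ℝ) = Real.sqrt 1 by simp]
      exact Real.sqrt_lt_sqrt (by norm_num) (by norm_num)
    have hμ2 : Real.sqrt (5 / 4) ^ 2 = 5 / 4 := Real.sq_sqrt (by norm_num)
    have hc : ∀ v : ℝ × ℝ, (dFe (x, y) v).1 ^ 2 + (dFe (x, y) v).2 ^ 2 =
        Real.sqrt (5 / 4) ^ 2 * (v.1 ^ 2 + v.2 ^ 2) := by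
      intro v
      rw [dFe_apply, hμ2]
      simp only [h.1, h.2, hσ]
      nlinarith [hσ1]
    have hex : ∀ v : ℝ × ℝ, v ≠ 0 →
        HasExponent g f (Φ (x, y)) (L (x, y) v) (Real.log (Real.sqrt (5 / 4))) := fun v hv =>
      hasExponent_of_scaling g hq hv hμ0 (fun n => (conformal hμ0 hc n v).1)
        (fun n => (conformal hμ0 hc n v).2)
    refine ⟨⟨_, 1, fun _ => (⊤ : Submodule ℝ E2), fun _ => Real.log (Real.sqrt (5 / 4)), ?_, rfl⟩,
      ?_⟩
    · refine ⟨?_, ?_, ?_, ?_⟩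
      · have : DirectSum.IsInternal (fun _ : Fin 1 => (⊤ : Submodule ℝ E2)) := by
          rw [DirectSum.isInternal_submodule_iff_iSupIndep_and_iSup_eq_top]
          refine ⟨?_, by simp⟩
          exact iSupIndep_subsingleton _
        exact this
      · have key : (⊤ : Submodule ℝ E2) ≠ ⊥ := by
          intro h0
          have h1 : L (x, y) (1, 0) ∈ (⊤ : Submodule ℝ E2) := trivial
          rw [h0, Submodule.mem_bot] at h1
          have := L_injective (x, y) (h1.trans (map_zero _).symm)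
          simp at this
        exact fun _ => key
      · intro i j _
        exact Subsingleton.elim _ _
      · have key : ∀ (_ : Fin 1) (u : E2), u ∈ (⊤ : Submodule ℝ E2) → u ≠ 0 →
            HasExponent g f (Φ (x, y)) u (Real.log (Real.sqrt (5 / 4))) := by
          intro i u _ hu0
          obtain ⟨v, hv⟩ := (Le (x, y)).surjective u
          rw [Le_apply] at hv
          have hv0 : v ≠ 0 := by
            rintro rfl
            apply hu0
            rw [← hv, map_zero]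
          have := hex v hv0
          rw [hv] at this
          exact this
        exact key
    · intro s hs
      exact posExpSum_pos_of_scaling g hq (v := ((1 : ℝ), (0 : ℝ))) (by simp) hμ1
        (fun n => (conformal hμ0 hc n _).1) hs

lemma exists_posExpSum' {z : T2} (hz : z ∈ S) :
    (∃ s, IsPositiveExponentSum g f z s) ∧ ∀ s, IsPositiveExponentSum g f z s → 0 < s := by
  obtain ⟨x, y, rfl⟩ := exists_Phi z
  apply exists_posExpSum g
  unfold S Φ at hz
  simp only [mem_ofPred_eq, im_exp, re_exp] at hz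
  exact hz

end

end Pool.Agent.H786R2.Torus
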