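import Pool.Agent.H786R2.HWPosA

set_option autoImplicit false

open MeasureTheory Set Filter Topology ENNReal

namespace Pool.Agent.H786R2.HW

variable {p : ℝ} {U : ℝ → ℝ} {C : ℝ}

lemma holder (hp : 1 < p) {W : ℝ → ℝ} (hW : Measurable W) (hpos : ∀ᵐ x, 0 < W x) {G : ℝ → ℝ≥0∞}
    (hG : Measurable G) (S : Set ℝ) :
    (∫⁻ x in S, G x) ^ p ≤ (∫⁻ x in S, G x ^ p * w W x) * (∫⁻ x in S, sg p W x) ^ (p - 1) := by
  have hp0 : 0 < p := by linarith
  have hp1 : 0 < p - 1 := by linarith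
  have hpq := Real.HolderConjugate.conjExponent hp
  set q := p.conjExponent with hq
  have hqe : q = p / (p - 1) := rfl
  have hq0 : 0 < q := by rw [hqe]; positivity
  have h1 := ENNReal.lintegral_mul_le_Lp_mul_Lq (volume.restrict S) hpq
    (f := fun x => G x * w W x ^ (1 / p)) (g := fun x => w W x ^ (-(1 / p)))
    (hG.mul ((measurable_w hW).pow_const _)).aemeasurable
    ((measurable_w hW).pow_const _).aemeasurable
  have h2 : ∫⁻ x in S, ((fun x => G x * w W x ^ (1 / p)) * fun x => w W x ^ (-(1 / p))) x =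
      ∫⁻ x in S, G x := by
    refine lintegral_congr_ae ?_
    filter_upwards [ae_restrict_of_ae hpos] with x hx
    have h3 : w W x ≠ 0 := (ENNReal.ofReal_pos.mpr hx).ne'
    have h4 : w W x ≠ ∞ := ENNReal.ofReal_ne_top
    simp only [Pi.mul_apply]
    rw [mul_assoc, ← ENNReal.rpow_add _ _ h3 h4, add_neg_cancel, ENNReal.rpow_zero, mul_one]
  have h3 : ∫⁻ x in S, (G x * w W x ^ (1 / p)) ^ p = ∫⁻ x in S, G x ^ p * w W x := by
    refine lintegral_congr fun x => ?_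
    rw [ENNReal.mul_rpow_of_nonneg _ _ hp0.le, ← ENNReal.rpow_mul, one_div_mul_cancel hp0.ne',
      ENNReal.rpow_one]
  have h4 : ∫⁻ x in S, (w W x ^ (-(1 / p))) ^ q = ∫⁻ x in S, sg p W x := by
    refine lintegral_congr fun x => ?_
    rw [← ENNReal.rpow_mul]
    unfold sg
    congr 1
    rw [hqe]; field_simp
  rw [h2, h3, h4] at h1
  calc (∫⁻ x in S, G x) ^ p ≤ ((∫⁻ x in S, G x ^ p * w W x) ^ (1 / p) *
        (∫⁻ x in S, sg p W x) ^ (1 / q)) ^ p := ENNReal.rpow_le_rpow h1 hp0.le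
    _ = (∫⁻ x in S, G x ^ p * w W x) * (∫⁻ x in S, sg p W x) ^ (p - 1) := by
        rw [ENNReal.mul_rpow_of_nonneg _ _ hp0.le, ← ENNReal.rpow_mul, ← ENNReal.rpow_mul,
          one_div_mul_cancel hp0.ne', ENNReal.rpow_one]
        congr 2
        rw [hqe]; field_simp

lemma holder_one (hp : 1 < p) {W : ℝ → ℝ} (hW : Measurable W) (hpos : ∀ᵐ x, 0 < W x) {a b : ℝ}
    (hab : a < b) :
    ENNReal.ofReal ((b - a) ^ p) ≤
      (∫⁻ x in Icc a b, w W x) * (∫⁻ x in Icc a b, sg p W x) ^ (p - 1) := by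
  have h := holder hp hW hpos (G := fun _ => 1) measurable_const (Icc a b)
  simp only [ENNReal.one_rpow, one_mul, lintegral_const, Measure.restrict_apply_univ,
    Real.volume_Icc] at h
  rwa [ENNReal.ofReal_rpow_of_pos (by linarith)] at h

/-- extended form of `A_p` -/
def ApE (p : ℝ) (W : ℝ → ℝ) (A : ℝ≥0∞) : Prop :=
  ∀ a b : ℝ, a < b →
    (∫⁻ x in Icc a b, w W x) * (∫⁻ x in Icc a b, sg p W x) ^ (p - 1) ≤
      A * ENNReal.ofReal ((b - a) ^ p)

lemma lintegral_Ioo_eq_Icc (f : ℝ → ℝ≥0∞) (a b : ℝ) :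
    ∫⁻ x in Ioo a b, f x = ∫⁻ x in Icc a b, f x := by
  rw [Measure.restrict_congr_set Ioo_ae_eq_Icc]

/-- from two cross inequalities to the diagonal one -/
lemma cross {A B X Y Z T : ℝ≥0∞} (hB0 : B ≠ 0) (hB : B ≠ ∞) (h1 : X * T ≤ A * B)
    (h2 : Z * Y ≤ A * B) (h3 : B ≤ X * Y) : Z * T ≤ A * A * B := by
  have h4 : (Z * T) * B ≤ (A * A * B) * B := by
    calc (Z * T) * B ≤ (Z * T) * (X * Y) := mul_le_mul_right h3 _
      _ = (X * T) * (Z * Y) := by ring
      _ ≤ (A * B) * (A * B) := mul_le_mul' h1 h2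
      _ = (A * A * B) * B := by ring
  exact (ENNReal.mul_le_mul_iff_left hB0 hB).mp h4

lemma Pair.apE (hp : 1 < p) {W : ℝ → ℝ} (hW : Measurable W) (hpos : ∀ᵐ x, 0 < W x) {A : ℝ≥0∞}
    (h : Pair p W A) : ApE p W (A * A) := by
  intro a b hab
  have hB : ENNReal.ofReal ((b - a) ^ p) ≠ 0 :=
    (ENNReal.ofReal_pos.mpr (Real.rpow_pos_of_pos (by linarith) _)).ne'
  have h1 := h a b hab 1 (by norm_num)
  have h2 := h b (b + (b - a)) (by linarith) (-1) (by norm_num)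
  have h3 := holder_one hp hW hpos (a := b) (b := b + (b - a)) (by linarith)
  have e1 : b + (b - a) - b = b - a := by ring
  have e2 : b - (b - a) = a := by ring
  rw [J_one hab, lintegral_Ioo_eq_Icc] at h1
  rw [J_neg_one (by linarith), e1, e2, lintegral_Ioo_eq_Icc] at h2
  rw [e1] at h3
  exact cross hB ENNReal.ofReal_ne_top h1 h2 h3

lemma ApE.isAp (hp : 1 < p) {W : ℝ → ℝ} (hW : Measurable W) (hW0 : ∀ x, 0 ≤ W x)
    (hpos : ∀ᵐ x, 0 < W x) {A : ℝ≥0∞} (hA : A ≠ ∞) (h : ApE p W A) : IsAp p W := by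
  have hp1 : 0 < p - 1 := by linarith
  have hfin : ∀ a b : ℝ, a < b → (∫⁻ x in Icc a b, w W x) ≠ ∞ ∧
      (∫⁻ x in Icc a b, sg p W x) ≠ ∞ := by
    intro a b hab
    have h1 := h a b hab
    have h2 := holder_one hp hW hpos hab
    have hB : 0 < ENNReal.ofReal ((b - a) ^ p) :=
      ENNReal.ofReal_pos.mpr (Real.rpow_pos_of_pos (by linarith) _)
    have h3 : (∫⁻ x in Icc a b, w W x) * (∫⁻ x in Icc a b, sg p W x) ^ (p - 1) ≠ 0 :=
      (hB.trans_le h2).ne'
    have h4 : (∫⁻ x in Icc a b, w W x) * (∫⁻ x in Icc a b, sg p W x) ^ (p - 1) ≠ ∞ :=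
      ne_top_of_le_ne_top (ENNReal.mul_ne_top hA ENNReal.ofReal_ne_top) h1
    constructor
    · intro h0
      rw [h0, ENNReal.top_mul (right_ne_zero_of_mul h3)] at h4
      exact h4 rfl
    · intro h0
      rw [h0, ENNReal.top_rpow_of_pos hp1, ENNReal.mul_top (left_ne_zero_of_mul h3)] at h4
      exact h4 rfl
  have hsg : ∀ᵐ x, ENNReal.ofReal (W x ^ (-1 / (p - 1))) = sg p W x := by
    filter_upwards [hpos] with x hx
    unfold sg w
    rw [ENNReal.ofReal_rpow_of_pos hx, neg_div]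
  have hWm2 : Measurable (fun x => W x ^ (-1 / (p - 1))) := hW.pow_const _
  have hi1 : ∀ a b : ℝ, a < b → IntegrableOn W (Icc a b) := by
    intro a b hab
    refine ⟨hW.aestronglyMeasurable, ?_⟩
    rw [hasFiniteIntegral_iff_ofReal (Eventually.of_forall hW0)]
    exact (hfin a b hab).1.lt_top
  have hi2 : ∀ a b : ℝ, a < b → IntegrableOn (fun x => W x ^ (-1 / (p - 1))) (Icc a b) := by
    intro a b hab
    refine ⟨hWm2.aestronglyMeasurable, ?_⟩
    rw [hasFiniteIntegral_iff_ofReal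
      (Eventually.of_forall fun x => Real.rpow_nonneg (hW0 x) _)]
    rw [lintegral_congr_ae (ae_restrict_of_ae hsg)]
    exact (hfin a b hab).2.lt_top
  refine ⟨hW, fun x => ⟨Icc (x - 1) (x + 1), Icc_mem_nhds (by linarith) (by linarith),
    hi1 _ _ (by linarith)⟩, hW0, hpos, fun x => ⟨Icc (x - 1) (x + 1),
    Icc_mem_nhds (by linarith) (by linarith), hi2 _ _ (by linarith)⟩, A.toReal, ?_⟩
  intro a b hab
  have hba : 0 < b - a := by linarith
  rw [intervalIntegral.integral_of_le hab.le, intervalIntegral.integral_of_le hab.le,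
    ← integral_Icc_eq_integral_Ioc, ← integral_Icc_eq_integral_Ioc,
    integral_eq_lintegral_of_nonneg_ae (Eventually.of_forall hW0) hW.aestronglyMeasurable,
    integral_eq_lintegral_of_nonneg_ae
      (Eventually.of_forall fun x => Real.rpow_nonneg (hW0 x) _) hWm2.aestronglyMeasurable,
    lintegral_congr_ae (ae_restrict_of_ae hsg)]
  have h1 := h a b hab
  have h5 := ENNReal.toReal_mono (ENNReal.mul_ne_top hA ENNReal.ofReal_ne_top) h1
  rw [ENNReal.toReal_mul, ENNReal.toReal_mul, ← ENNReal.toReal_rpow,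
    ENNReal.toReal_ofReal (Real.rpow_nonneg hba.le _)] at h5
  change (b - a)⁻¹ * (∫⁻ x in Icc a b, w W x).toReal *
    ((b - a)⁻¹ * (∫⁻ x in Icc a b, sg p W x).toReal) ^ (p - 1) ≤ A.toReal
  set X := (∫⁻ x in Icc a b, w W x).toReal
  set Y := (∫⁻ x in Icc a b, sg p W x).toReal with hY
  have hY0 : 0 ≤ Y := ENNReal.toReal_nonneg
  rw [Real.mul_rpow (by positivity) hY0, Real.inv_rpow hba.le]
  have h6 : (b - a)⁻¹ * X * (((b - a) ^ (p - 1))⁻¹ * Y ^ (p - 1)) =
      (X * Y ^ (p - 1)) / ((b - a) ^ p) := by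
    have : (b - a) ^ p = (b - a) * (b - a) ^ (p - 1) := by
      rw [← Real.rpow_one_add' hba.le (by linarith)]; congr 1; ring
    rw [this]
    have h7 : (b - a) ^ (p - 1) ≠ 0 := (Real.rpow_pos_of_pos hba _).ne'
    field_simp
  rw [h6, div_le_iff₀ (Real.rpow_pos_of_pos hba _)]
  exact h5

end Pool.Agent.H786R2.HW
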