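import Mathlib

set_option autoImplicit false

open MeasureTheory Set Filter Topology ENNReal

namespace Pool.Agent.H786R2.HW

/-- The truncated Hilbert transform `(1/π) ∫_{|y-x|>δ} f(y)/(x-y) dy`. -/
noncomputable def truncH (f : ℝ → ℝ) (x δ : ℝ) : ℝ :=
  (1 / Real.pi) * ∫ y in {y : ℝ | δ < |y - x|}, f y / (x - y)

/-- The Hilbert transform, as a principal value. -/
noncomputable def hilbert (f : ℝ → ℝ) (x : ℝ) : ℝ := limUnder (𝓝[>] (0 : ℝ)) (truncH f x)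

/-- Weights: measurable, locally integrable, nonnegative, not a.e. zero. -/
def IsWeight (U : ℝ → ℝ) : Prop :=
  Measurable U ∧ LocallyIntegrable U ∧ (∀ x, 0 ≤ U x) ∧ ¬ (∀ᵐ x, U x = 0)

/-- The weight `U` is admissible for the exponent `p`. -/
def Admissible (p : ℝ) (U : ℝ → ℝ) : Prop :=
  ∃ C : ℝ, 0 ≤ C ∧ ∀ f : ℝ → ℝ, Integrable f → ∫ y, f y = 0 →
    ∫⁻ x, ENNReal.ofReal (|hilbert f x| ^ p * U x) ≤
      ENNReal.ofReal C * ∫⁻ x, ENNReal.ofReal (|f x| ^ p * U x)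

/-- Muckenhoupt's condition `A_p`. -/
def IsAp (p : ℝ) (W : ℝ → ℝ) : Prop :=
  Measurable W ∧ LocallyIntegrable W ∧ (∀ x, 0 ≤ W x) ∧ (∀ᵐ x, 0 < W x) ∧
    LocallyIntegrable (fun x => W x ^ (-1 / (p - 1))) ∧
    ∃ C : ℝ, ∀ a b : ℝ, a < b →
      ((b - a)⁻¹ * ∫ x in a..b, W x) *
        ((b - a)⁻¹ * ∫ x in a..b, W x ^ (-1 / (p - 1))) ^ (p - 1) ≤ C

/-- `f` vanishes near `x`. -/
def VanishNear (f : ℝ → ℝ) (x : ℝ) : Prop := ∃ r > 0, ∀ y, |y - x| < r → f y = 0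

/-- `∫ |f|^p U`. -/
noncomputable def N (p : ℝ) (U f : ℝ → ℝ) : ℝ≥0∞ := ∫⁻ x, ENNReal.ofReal (|f x| ^ p * U x)

/-- The extended-real weight. -/
noncomputable def w (U : ℝ → ℝ) (x : ℝ) : ℝ≥0∞ := ENNReal.ofReal (U x)

/-- The dual weight `U^{-1/(p-1)}` with values in `[0,∞]`. -/
noncomputable def sg (p : ℝ) (U : ℝ → ℝ) (x : ℝ) : ℝ≥0∞ := (w U x) ^ (-(1 / (p - 1)))

lemma VanishNear.integrable {f : ℝ → ℝ} {x : ℝ} (h : VanishNear f x) (hf : Integrable f) :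
    Integrable (fun y => f y / (x - y)) := by
  obtain ⟨r, hr, h⟩ := h
  refine (hf.norm.const_mul (1 / r)).mono' ?_ ?_
  · exact hf.aestronglyMeasurable.aemeasurable.div
      (measurable_const.sub measurable_id).aemeasurable |>.aestronglyMeasurable
  · refine Eventually.of_forall fun y => ?_
    by_cases hy : |y - x| < r
    · rw [h y hy]; simp
    · push Not at hy
      rw [norm_div, Real.norm_eq_abs, Real.norm_eq_abs, abs_sub_comm x y, div_eq_mul_one_div,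
        mul_comm]
      exact mul_le_mul_of_nonneg_right (one_div_le_one_div_of_le hr hy) (abs_nonneg _)

lemma VanishNear.truncH_eq {f : ℝ → ℝ} {x : ℝ} (h : VanishNear f x) :
    ∀ᶠ δ in 𝓝[>] (0 : ℝ), truncH f x δ = (1 / Real.pi) * ∫ y, f y / (x - y) := by
  obtain ⟨r, hr, h⟩ := h
  have : Ioo (0 : ℝ) r ∈ 𝓝[>] (0 : ℝ) := Ioo_mem_nhdsGT hr
  filter_upwards [this] with δ hδ
  unfold truncH
  congr 1
  refine setIntegral_eq_integral_of_forall_compl_eq_zero fun y hy => ?_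
  have : |y - x| ≤ δ := by simpa using hy
  rw [h y (lt_of_le_of_lt this hδ.2), zero_div]

lemma VanishNear.hilbert_eq {f : ℝ → ℝ} {x : ℝ} (h : VanishNear f x) :
    hilbert f x = (1 / Real.pi) * ∫ y, f y / (x - y) := by
  have h1 : Tendsto (truncH f x) (𝓝[>] 0) (𝓝 ((1 / Real.pi) * ∫ y, f y / (x - y))) :=
    tendsto_const_nhds.congr' (h.truncH_eq.mono fun δ hδ => hδ.symm)
  exact h1.limUnder_eq

lemma VanishNear.sub_mul {f g : ℝ → ℝ} {x : ℝ} (hf : VanishNear f x) (hg : VanishNear g x)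
    (c : ℝ) : VanishNear (fun y => f y - c * g y) x := by
  obtain ⟨r, hr, h⟩ := hf
  obtain ⟨r', hr', h'⟩ := hg
  refine ⟨min r r', lt_min hr hr', fun y hy => ?_⟩
  simp only [h y (lt_of_lt_of_le hy (min_le_left _ _)), h' y (lt_of_lt_of_le hy (min_le_right _ _)),
    mul_zero, sub_zero]

/-- The off-diagonal consequence of admissibility. -/
lemma Admissible.off {p : ℝ} (hp : 1 < p) {U : ℝ → ℝ} (hU0 : ∀ x, 0 ≤ U x) (h : Admissible p U) :
    ∃ C : ℝ, 0 ≤ C ∧ ∀ f : ℝ → ℝ, Integrable f → ∫ y, f y = 0 → ∀ S : Set ℝ,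
      (∀ x ∈ S, VanishNear f x) → ∀ φ : ℝ → ℝ,
      (∀ x ∈ S, 0 ≤ φ x ∧ φ x ≤ |∫ y, f y / (x - y)|) → MeasurableSet S →
      ∫⁻ x in S, ENNReal.ofReal (φ x ^ p * U x) ≤ ENNReal.ofReal C * N p U f := by
  obtain ⟨C, hC, h⟩ := h
  refine ⟨Real.pi ^ p * C, by positivity, fun f hf hf0 S hS φ hφ hSm => ?_⟩
  have h1 := h f hf hf0
  have h2 : ∫⁻ x in S, ENNReal.ofReal (φ x ^ p * U x) ≤
      ∫⁻ x in S, ENNReal.ofReal (Real.pi ^ p) * ENNReal.ofReal (|hilbert f x| ^ p * U x) := by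
    refine lintegral_mono_ae ?_
    refine (ae_restrict_mem hSm).mono fun x hx => ?_
    rw [← ENNReal.ofReal_mul (by positivity)]
    apply ENNReal.ofReal_le_ofReal
    rw [(hS x hx).hilbert_eq, abs_mul, abs_of_pos (by positivity : (0 : ℝ) < 1 / Real.pi),
      ← mul_assoc, ← Real.mul_rpow Real.pi_pos.le (by positivity)]
    refine mul_le_mul_of_nonneg_right ?_ (hU0 x)
    refine Real.rpow_le_rpow (hφ x hx).1 ?_ (by linarith)
    rw [← mul_assoc, mul_one_div_cancel Real.pi_ne_zero, one_mul]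
    exact (hφ x hx).2
  refine h2.trans ?_
  rw [lintegral_const_mul' _ _ ENNReal.ofReal_ne_top, ENNReal.ofReal_mul (by positivity), mul_assoc]
  gcongr
  exact (setLIntegral_le_lintegral _ _).trans h1

end Pool.Agent.H786R2.HW
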