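import Pool.Agent.H786R2.HWPair

set_option autoImplicit false

open MeasureTheory Set Filter Topology ENNReal

namespace Pool.Agent.H786R2.HW

variable {p : ℝ} {U : ℝ → ℝ} {C : ℝ}

/-- the interval of length `b - a` adjacent to `[a,b]`, on the right for `s = 1` and on the left
for `s = -1` -/
def J (s a b : ℝ) : Set ℝ :=
  {x | 0 < s * (x - a) ∧ 0 < s * (x - b) ∧ s * (x - a) < 2 * (b - a) ∧ s * (x - b) < 2 * (b - a)}

lemma sq_one_cases {s : ℝ} (hs : s ^ 2 = 1) : s = 1 ∨ s = -1 := by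
  have h : (s - 1) * (s + 1) = 0 := by linear_combination hs
  rcases mul_eq_zero.mp h with h | h
  · left; linarith
  · right; linarith

lemma J_one {a b : ℝ} (h : a < b) : J 1 a b = Ioo b (b + (b - a)) := by
  ext x
  simp only [J, mem_setOf_eq, mem_Ioo, one_mul]
  constructor
  · rintro ⟨h1, h2, h3, h4⟩; constructor <;> linarith
  · rintro ⟨h1, h2⟩; refine ⟨?_, ?_, ?_, ?_⟩ <;> linarith

lemma J_neg_one {a b : ℝ} (h : a < b) : J (-1) a b = Ioo (a - (b - a)) a := by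
  ext x
  simp only [J, mem_setOf_eq, mem_Ioo]
  constructor
  · rintro ⟨h1, h2, h3, h4⟩; constructor <;> linarith
  · rintro ⟨h1, h2⟩; refine ⟨?_, ?_, ?_, ?_⟩ <;> linarith

lemma J_cases {s a b : ℝ} (hs : s ^ 2 = 1) (h : a < b) :
    (s = 1 ∧ J s a b = Ioo b (b + (b - a))) ∨ (s = -1 ∧ J s a b = Ioo (a - (b - a)) a) := by
  rcases sq_one_cases hs with h1 | h1
  · left; exact ⟨h1, h1 ▸ J_one h⟩
  · right; exact ⟨h1, h1 ▸ J_neg_one h⟩

lemma measurableSet_J {s a b : ℝ} (hs : s ^ 2 = 1) (h : a < b) : MeasurableSet (J s a b) := by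
  rcases J_cases hs h with h | h <;> rw [h.2] <;> exact measurableSet_Ioo

lemma J_spec {s a b x y : ℝ} (hs : s ^ 2 = 1) (hx : x ∈ J s a b) (hy : y ∈ Icc a b) :
    0 < s * (x - y) ∧ s * (x - y) ≤ 2 * (b - a) := by
  obtain ⟨h1, h2, h3, h4⟩ := hx
  obtain ⟨h5, h6⟩ := hy
  rcases sq_one_cases hs with h | h <;> subst h <;> constructor <;> linarith

lemma J_abs {s a b x : ℝ} (hs : s ^ 2 = 1) (hab : a < b) (hx : x ∈ J s a b) :
    |x| ≤ |a| + |b| + 2 * (b - a) := by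
  obtain ⟨h1, h2, h3, h4⟩ := hx
  have ha := le_abs_self a
  have ha' := neg_abs_le a
  have hb := le_abs_self b
  have hb' := neg_abs_le b
  rcases sq_one_cases hs with h | h <;> subst h <;> rw [abs_le] <;> constructor <;> linarith

lemma vanishNear_of_off {s a b x : ℝ} (hs : s ^ 2 = 1) (hx : x ∈ J s a b) {g : ℝ → ℝ}
    (hg : ∀ y, y ∉ Icc a b → g y = 0) : VanishNear g x := by
  have hx' : x ∈ (Icc a b)ᶜ := fun h => by
    have := (J_spec hs hx h).1
    rw [sub_self, mul_zero] at this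
    exact lt_irrefl _ this
  obtain ⟨r, hr, hr'⟩ := Metric.isOpen_iff.mp isClosed_Icc.isOpen_compl x hx'
  exact ⟨r, hr, fun y hy => hg y (hr' (by rwa [Metric.mem_ball, Real.dist_eq]))⟩

/-- pair inequalities -/
def Pair (p : ℝ) (W : ℝ → ℝ) (A : ℝ≥0∞) : Prop :=
  ∀ a b : ℝ, a < b → ∀ s : ℝ, s ^ 2 = 1 →
    (∫⁻ x in J s a b, w W x) * (∫⁻ x in Icc a b, sg p W x) ^ (p - 1) ≤
      A * ENNReal.ofReal ((b - a) ^ p)

/-- the constant -/
noncomputable def KK (p C L : ℝ) : ℝ≥0∞ :=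
  ENNReal.ofReal ((4 * L) ^ p) * (ENNReal.ofReal C * ENNReal.ofReal (2 ^ p))

lemma KK_ne_top (p C L : ℝ) : KK p C L ≠ ∞ :=
  ENNReal.mul_ne_top ENNReal.ofReal_ne_top
    (ENNReal.mul_ne_top ENNReal.ofReal_ne_top ENNReal.ofReal_ne_top)

lemma KK_eq (p C : ℝ) {L : ℝ} (hL : 0 < L) :
    KK p C L = KK p C 1 * ENNReal.ofReal (L ^ p) := by
  unfold KK
  rw [Real.mul_rpow (by norm_num) hL.le, ENNReal.ofReal_mul (by positivity), mul_one]
  ring

/-- Case A2: the dual weight is not integrable at infinity. -/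
lemma pair_infinity (hp : 1 < p) (hU : Measurable U) (hU0 : ∀ x, 0 ≤ U x) (hoff : Off p U C)
    (hσ : ∀ n : ℕ, ∫⁻ x in {x : ℝ | (n : ℝ) < |x|}, sg p U x = ∞) :
    Pair p U (KK p C 1) := by
  intro a b hab s hs
  set L := b - a with hL
  have hL0 : 0 < L := by rw [hL]; linarith
  rw [← KK_eq p C hL0]
  refine testing hp hU hU0 measurableSet_Icc _ _ ?_
  intro g hgm hg0 hgM hgoff hgR hg
  obtain ⟨n, hn⟩ := exists_nat_ge (|a| + |b| + 6 * L + 1)
  unfold KK
  rw [← mul_assoc] 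
  refine le_trans ?_ (le_of_eq (mul_assoc (ENNReal.ofReal ((4 * L) ^ p) * ENNReal.ofReal C)
    (ENNReal.ofReal (2 ^ p)) (N p U g)).symm)
  rw [← mul_assoc]
  refine le_of_forall_bump (K := ENNReal.ofReal ((4 * L) ^ p) * ENNReal.ofReal C *
    ENNReal.ofReal (2 ^ p)) (Y := N p U g) (Z := ENNReal.ofReal ((∫ y, g y) ^ p))
    (ENNReal.mul_ne_top (ENNReal.mul_ne_top ENNReal.ofReal_ne_top ENNReal.ofReal_ne_top)
      ENNReal.ofReal_ne_top) ENNReal.ofReal_ne_top ?_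
  intro ε hε
  have hE : MeasurableSet {x : ℝ | (n : ℝ) < |x|} := measurableSet_lt measurable_const (by fun_prop)
  obtain ⟨h, hhm, hh0, hhE, hhR, hh, hh1, hhN⟩ := exists_bump hp hU hU0 hE (hσ n) hε
  have h1 := far_bump hp hU hU0 hoff hgm hg0 hg hh0 hh hh1 hL0 hs (measurableSet_J hs hab)
    (fun x hx => vanishNear_of_off hs hx hgoff)
    (fun x hx y hy => J_spec hs hx (by by_contra h; exact hy (hgoff y h)))
    (fun x hx y hy => by
      have h2 : (n : ℝ) < |y| := by by_contra h; exact hy (hhE y h)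
      have h3 := J_abs hs hab hx
      have h4 := abs_sub_abs_le_abs_sub y x
      rw [abs_sub_comm] at h4
      rw [← hL] at h3
      linarith)
  refine h1.trans ?_
  rw [← mul_assoc, ← mul_assoc]
  gcongr

end Pool.Agent.H786R2.HW
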