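import Pool.Agent.H786R2.HWAp

set_option autoImplicit false

open MeasureTheory Set Filter Topology ENNReal

namespace Pool.Agent.H786R2.HW

variable {p : ℝ} {U : ℝ → ℝ} {C : ℝ}

/-- the modified weight `(1 + |x|)^{-p} U(x)` -/
noncomputable def V1 (p : ℝ) (U : ℝ → ℝ) (x : ℝ) : ℝ := (1 + |x|) ^ (-p) * U x

lemma V1_nonneg (hU0 : ∀ x, 0 ≤ U x) (x : ℝ) : 0 ≤ V1 p U x :=
  mul_nonneg (by positivity) (hU0 x)

lemma V1_measurable (hU : Measurable U) : Measurable (V1 p U) :=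
  ((measurable_const.add measurable_id.abs).pow_const _).mul hU

/-- the unit bump on `[e,e+1]` -/
noncomputable def bp (e : ℝ) : ℝ → ℝ := (Icc e (e + 1)).indicator (fun _ => 1)

lemma bp_nonneg (e y : ℝ) : 0 ≤ bp e y := indicator_nonneg (fun _ _ => zero_le_one) _

lemma bp_integrable (e : ℝ) : Integrable (bp e) :=
  (integrable_indicator_iff measurableSet_Icc).mpr (integrableOn_const (by simp))

lemma bp_integral (e : ℝ) : ∫ y, bp e y = 1 := by
  unfold bp
  rw [integral_indicator measurableSet_Icc, setIntegral_const]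
  simp

lemma bp_mem {e y : ℝ} (h : bp e y ≠ 0) : y ∈ Icc e (e + 1) := by
  by_contra hy
  exact h (indicator_of_notMem hy _)

lemma N_bp (hp : 1 < p) (e : ℝ) : N p U (bp e) = ∫⁻ x in Icc e (e + 1), w U x := by
  rw [← lintegral_indicator measurableSet_Icc]
  refine lintegral_congr fun x => ?_
  by_cases hx : x ∈ Icc e (e + 1)
  · rw [indicator_of_mem hx]; unfold bp w; rw [indicator_of_mem hx]; simp
  · rw [indicator_of_notMem hx]; unfold bp; rw [indicator_of_notMem hx]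
    simp [Real.zero_rpow (by linarith : p ≠ 0)]

/-- the constant of case B -/
noncomputable def K0 (p C : ℝ) (S M : ℝ≥0∞) : ℝ≥0∞ :=
  ENNReal.ofReal C * (ENNReal.ofReal (2 ^ p) * (1 + S ^ (p - 1) * M))

lemma K0_ne_top (hp : 1 < p) {S M : ℝ≥0∞} (hS : S ≠ ∞) (hM : M ≠ ∞) : K0 p C S M ≠ ∞ := by
  unfold K0
  refine ENNReal.mul_ne_top ENNReal.ofReal_ne_top (ENNReal.mul_ne_top ENNReal.ofReal_ne_top ?_)
  exact ENNReal.add_ne_top.mpr ⟨ENNReal.one_ne_top,
    ENNReal.mul_ne_top (ENNReal.rpow_ne_top_of_nonneg (by linarith) hS) hM⟩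

lemma pos_of_sg (hU : Measurable U) (hU0 : ∀ x, 0 ≤ U x) (hp : 1 < p)
    (hS : ∫⁻ x, sg p U x ≠ ∞) : ∀ᵐ x, 0 < U x := by
  filter_upwards [ae_lt_top (measurable_sg hU) hS] with x hx
  rcases (hU0 x).eq_or_lt with h | h
  · exfalso
    have : 0 < 1 / (p - 1) := by have : 0 < p - 1 := by linarith
                                 positivity
    rw [sg, w, ← h, ENNReal.ofReal_zero, ENNReal.zero_rpow_of_neg (by linarith)] at hx
    exact lt_irrefl _ hx
  · exact h

/-- the basic inequality of case B -/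
lemma caseB_basic (hp : 1 < p) (hU : Measurable U) (hU0 : ∀ x, 0 ≤ U x) (hoff : Off p U C)
    (hS : ∫⁻ x, sg p U x ≠ ∞) {M : ℝ≥0∞} {e : ℝ}
    (hM : ∫⁻ x in Icc e (e + 1), w U x ≤ M)
    {f : ℝ → ℝ} (hfm : Measurable f) (hf0 : ∀ y, 0 ≤ f y) (hf : Integrable f)
    {S : Set ℝ} (hSm : MeasurableSet S) (hv : ∀ x ∈ S, VanishNear f x)
    (hvh : ∀ x ∈ S, VanishNear (bp e) x) (φ : ℝ → ℝ)
    (hφ : ∀ x ∈ S, 0 ≤ φ x ∧ φ x ≤ |(∫ y, f y / (x - y)) - (∫ y, f y) * ∫ y, bp e y / (x - y)|) :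
    ∫⁻ x in S, ENNReal.ofReal (φ x ^ p * U x) ≤
      K0 p C (∫⁻ x, sg p U x) M * N p U f := by
  have hpos := pos_of_sg hU hU0 hp hS
  set c := ∫ y, f y with hc
  have hc0 : 0 ≤ c := integral_nonneg hf0
  have h1 := hoff (fun y => f y - c * bp e y) (hf.sub ((bp_integrable e).const_mul _))
    (integral_sub_mul_bump hf (bp_integrable e) (bp_integral e)) S
    (fun x hx => (hv x hx).sub_mul (hvh x hx) c) φ
    (fun x hx => ⟨(hφ x hx).1, by
      rw [integral_sub_kernel hf (bp_integrable e) c (hv x hx) (hvh x hx)]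
      exact (hφ x hx).2⟩) hSm
  refine h1.trans ?_
  unfold K0
  rw [mul_assoc]
  refine mul_le_mul_right ?_ _
  refine (N_sub_le hp hU hU0 hfm c).trans ?_
  rw [mul_assoc]
  refine mul_le_mul_right ?_ _
  rw [add_mul, one_mul]
  refine add_le_add_right ?_ _
  rw [N_bp hp, abs_of_nonneg hc0]
  have h2 := holder hp hU hpos (G := fun y => ENNReal.ofReal (f y)) hfm.ennreal_ofReal univ
  rw [Measure.restrict_univ, ← ofReal_integral_eq_lintegral_ofReal hf (Eventually.of_forall hf0),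
    ← hc, ENNReal.ofReal_rpow_of_nonneg hc0 (by linarith)] at h2
  have h3 : ∫⁻ x, ENNReal.ofReal (f x) ^ p * w U x = N p U f := by
    refine lintegral_congr fun x => ?_
    rw [ENNReal.ofReal_rpow_of_nonneg (hf0 x) (by linarith), w,
      ← ENNReal.ofReal_mul (Real.rpow_nonneg (hf0 x) _), abs_of_nonneg (hf0 x)]
  rw [h3] at h2
  calc ENNReal.ofReal (c ^ p) * ∫⁻ x in Icc e (e + 1), w U x
      ≤ (N p U f * (∫⁻ x, sg p U x) ^ (p - 1)) * M := mul_le_mul' h2 hM
    _ = (∫⁻ x, sg p U x) ^ (p - 1) * M * N p U f := by ring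

end Pool.Agent.H786R2.HW
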