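import Pool.Agent.H786R2.HWCaseB

set_option autoImplicit false

open MeasureTheory Set Filter Topology ENNReal

namespace Pool.Agent.H786R2.HW

variable {p : ℝ} {U : ℝ → ℝ} {C : ℝ}

lemma const_rpow_mul_U (hp : 1 < p) {k : ℝ} (hk : 0 ≤ k) (S : Set ℝ) :
    ∫⁻ x in S, ENNReal.ofReal (k ^ p * U x) = ENNReal.ofReal (k ^ p) * ∫⁻ x in S, w U x := by
  rw [← lintegral_const_mul' _ _ ENNReal.ofReal_ne_top]
  refine lintegral_congr fun x => ?_
  rw [ENNReal.ofReal_mul (by positivity)]; rfl

lemma vanishNear_bp {e x : ℝ} (h : x ∉ Icc e (e + 1)) : VanishNear (bp e) x := by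
  obtain ⟨r, hr, hr'⟩ := Metric.isOpen_iff.mp isClosed_Icc.isOpen_compl x h
  exact ⟨r, hr, fun y hy => indicator_of_notMem (hr' (by rwa [Metric.mem_ball, Real.dist_eq])) _⟩

/-- pairs at positive distance from a bump, small with respect to their position -/
lemma small_pair (hp : 1 < p) (hU : Measurable U) (hU0 : ∀ x, 0 ≤ U x) (hoff : Off p U C)
    (hS : ∫⁻ x, sg p U x ≠ ∞) {M : ℝ≥0∞} {e : ℝ}
    (hM : ∫⁻ x in Icc e (e + 1), w U x ≤ M) {a b s ρ : ℝ} (hab : a < b) (hs : s ^ 2 = 1)
    (hρ : 0 < ρ) (h1 : ∀ x ∈ J s a b, ρ / 3 ≤ 1 + |x|) (h2 : ∀ x ∈ Icc a b, 1 + |x| ≤ 3 * ρ)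
    (h3 : ∀ x ∈ J s a b, ∀ z ∈ Icc e (e + 1), 4 * (b - a) ≤ |x - z|) :
    (∫⁻ x in J s a b, w (V1 p U) x) * (∫⁻ x in Icc a b, sg p (V1 p U) x) ^ (p - 1) ≤
      (ENNReal.ofReal (36 ^ p) * K0 p C (∫⁻ x, sg p U x) M) * ENNReal.ofReal ((b - a) ^ p) := by
  set L := b - a with hL
  have hL0 : 0 < L := by rw [hL]; linarith
  refine testing hp (V1_measurable hU) (V1_nonneg hU0) measurableSet_Icc _ _ ?_
  intro g hgm hg0 hgM hgoff hgR hg
  set m := ∫ y, g y with hm
  have hm0 : 0 ≤ m := integral_nonneg hg0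
  have h4 := caseB_basic hp hU hU0 hoff hS hM hgm hg0 hg (measurableSet_J hs hab)
    (fun x hx => vanishNear_of_off hs hx hgoff)
    (fun x hx => vanishNear_bp fun hx' => by
      have := h3 x hx x hx'
      rw [sub_self, abs_zero] at this; linarith)
    (fun _ => m / (4 * L)) (fun x hx => ⟨by positivity, ?_⟩)
  · rw [const_rpow_mul_U hp (by positivity)] at h4
    have h5 : ∫⁻ x in J s a b, w (V1 p U) x ≤
        ENNReal.ofReal ((ρ / 3) ^ (-p)) * ∫⁻ x in J s a b, w U x := by
      rw [← lintegral_const_mul' _ _ ENNReal.ofReal_ne_top]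
      refine lintegral_mono_ae ((ae_restrict_mem (measurableSet_J hs hab)).mono fun x hx => ?_)
      unfold w V1
      rw [← ENNReal.ofReal_mul (by positivity)]
      apply ENNReal.ofReal_le_ofReal
      refine mul_le_mul_of_nonneg_right ?_ (hU0 x)
      exact Real.rpow_le_rpow_of_nonpos (by positivity) (h1 x hx) (by linarith)
    have h6 : N p U g ≤ ENNReal.ofReal ((3 * ρ) ^ p) * N p (V1 p U) g := by
      unfold N
      rw [← lintegral_const_mul' _ _ ENNReal.ofReal_ne_top]
      refine lintegral_mono fun x => ?_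
      rw [← ENNReal.ofReal_mul (by positivity)]
      apply ENNReal.ofReal_le_ofReal
      by_cases hx : g x = 0
      · simp [hx, Real.zero_rpow (by linarith : p ≠ 0)]
      · have hx' : x ∈ Icc a b := by by_contra h; exact hx (hgoff x h)
        have h7 : (1 : ℝ) ≤ (3 * ρ) ^ p * (1 + |x|) ^ (-p) := by
          rw [Real.rpow_neg (by positivity), ← div_eq_mul_inv, one_le_div (by positivity)]
          exact Real.rpow_le_rpow (by positivity) (h2 x hx') (by linarith)
        unfold V1
        calc |g x| ^ p * U x = 1 * (|g x| ^ p * U x) := (one_mul _).symm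
          _ ≤ ((3 * ρ) ^ p * (1 + |x|) ^ (-p)) * (|g x| ^ p * U x) :=
              mul_le_mul_of_nonneg_right h7 (mul_nonneg (by positivity) (hU0 x))
          _ = (3 * ρ) ^ p * (|g x| ^ p * ((1 + |x|) ^ (-p) * U x)) := by ring
    have h8 : ENNReal.ofReal m ^ p =
        ENNReal.ofReal ((4 * L) ^ p) * ENNReal.ofReal ((m / (4 * L)) ^ p) := by
      rw [← ENNReal.ofReal_mul (by positivity), ← Real.mul_rpow (by positivity) (by positivity),
        mul_div_cancel₀ _ (by positivity), ENNReal.ofReal_rpow_of_nonneg hm0 (by linarith)]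
    have h9 : ENNReal.ofReal ((ρ / 3) ^ (-p)) * ENNReal.ofReal ((4 * L) ^ p) *
        ENNReal.ofReal ((3 * ρ) ^ p) = ENNReal.ofReal (36 ^ p) * ENNReal.ofReal (L ^ p) := by
      rw [← ENNReal.ofReal_mul (by positivity), ← ENNReal.ofReal_mul (by positivity),
        ← ENNReal.ofReal_mul (by positivity)]
      congr 1
      rw [Real.rpow_neg (by positivity), ← Real.inv_rpow (by positivity),
        ← Real.mul_rpow (by positivity) (by positivity),
        ← Real.mul_rpow (by positivity) (by positivity),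
        ← Real.mul_rpow (by positivity) (by positivity)]
      congr 1
      field_simp
      ring
    calc (∫⁻ x in J s a b, w (V1 p U) x) * ENNReal.ofReal m ^ p
        ≤ (ENNReal.ofReal ((ρ / 3) ^ (-p)) * ∫⁻ x in J s a b, w U x) * ENNReal.ofReal m ^ p :=
          mul_le_mul_left h5 _
      _ = ENNReal.ofReal ((ρ / 3) ^ (-p)) * ENNReal.ofReal ((4 * L) ^ p) *
          (ENNReal.ofReal ((m / (4 * L)) ^ p) * ∫⁻ x in J s a b, w U x) := by rw [h8]; ring
      _ ≤ ENNReal.ofReal ((ρ / 3) ^ (-p)) * ENNReal.ofReal ((4 * L) ^ p) *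
          (K0 p C (∫⁻ x, sg p U x) M * N p U g) := mul_le_mul_right h4 _
      _ ≤ ENNReal.ofReal ((ρ / 3) ^ (-p)) * ENNReal.ofReal ((4 * L) ^ p) *
          (K0 p C (∫⁻ x, sg p U x) M * (ENNReal.ofReal ((3 * ρ) ^ p) * N p (V1 p U) g)) :=
          mul_le_mul_right (mul_le_mul_right h6 _) _
      _ = (ENNReal.ofReal ((ρ / 3) ^ (-p)) * ENNReal.ofReal ((4 * L) ^ p) *
          ENNReal.ofReal ((3 * ρ) ^ p)) * K0 p C (∫⁻ x, sg p U x) M * N p (V1 p U) g := by ring
      _ = _ := by rw [h9]; ring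
  · have h5 := kernel_lower hg0 hg hs (D := 2 * L) (vanishNear_of_off hs hx hgoff)
      (fun y hy => J_spec hs hx (by by_contra h; exact hy (hgoff y h)))
    have h6 := kernel_upper (bp_nonneg e) (bp_integrable e) (x := x) (D := 4 * L) (by positivity)
      (fun y hy => h3 x hx y (bp_mem hy))
    rw [bp_integral] at h6
    rw [← hm] at h5
    have h7 : |m * ∫ y, bp e y / (x - y)| ≤ m * (1 / (4 * L)) := by
      rw [abs_mul, abs_of_nonneg hm0]; gcongr
    have h8 := abs_sub_abs_le_abs_sub (∫ y, g y / (x - y)) (m * ∫ y, bp e y / (x - y))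
    have h9 : m / (2 * L) = 2 * (m / (4 * L)) := by field_simp; ring
    have h10 : m * (1 / (4 * L)) = m / (4 * L) := by ring
    linarith

/-- the part of `[-R,R]` on the side `t` -/
def Hf (t R : ℝ) : Set ℝ := {x | 0 ≤ t * x ∧ t * x ≤ R}

lemma measurableSet_Hf (t R : ℝ) : MeasurableSet (Hf t R) := by
  have h1 : MeasurableSet {x : ℝ | 0 ≤ t * x} := measurableSet_le measurable_const (by fun_prop)
  have h2 : MeasurableSet {x : ℝ | t * x ≤ R} := measurableSet_le (by fun_prop) measurable_const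
  exact h1.inter h2

/-- the position of the bump on the side opposite to `t` -/
noncomputable def ee (t : ℝ) : ℝ := (-1 - 3 * t) / 2

lemma ee_spec {t z : ℝ} (ht : t ^ 2 = 1) (hz : z ∈ Icc (ee t) (ee t + 1)) :
    1 ≤ -(t * z) ∧ -(t * z) ≤ 2 := by
  obtain ⟨h1, h2⟩ := hz
  unfold ee at h1 h2
  rcases sq_one_cases ht with h | h <;> subst h <;> constructor <;> linarith

lemma t_abs {t x : ℝ} (ht : t ^ 2 = 1) (hx : 0 ≤ t * x) : |x| = t * x := by
  rcases sq_one_cases ht with h | h <;> subst h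
  · rw [one_mul] at hx ⊢; exact abs_of_nonneg hx
  · rw [neg_one_mul] at hx ⊢; exact abs_of_nonpos (by linarith)

/-- first large inequality -/
lemma large_one (hp : 1 < p) (hU : Measurable U) (hU0 : ∀ x, 0 ≤ U x) (hoff : Off p U C)
    (hS : ∫⁻ x, sg p U x ≠ ∞) {M : ℝ≥0∞} {t R : ℝ} (ht : t ^ 2 = 1) (hR : 10 ≤ R)
    (hM : ∫⁻ x in Icc (ee t) (ee t + 1), w U x ≤ M) :
    (∫⁻ x in Ioo (2 * R) (3 * R), w (V1 p U) x) *
      (∫⁻ x in Hf t R, sg p (V1 p U) x) ^ (p - 1) ≤
      (ENNReal.ofReal (16 ^ p) * K0 p C (∫⁻ x, sg p U x) M) * ENNReal.ofReal (R ^ p) := by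
  have hR0 : 0 < R := by linarith
  refine testing hp (V1_measurable hU) (V1_nonneg hU0) (measurableSet_Hf t R) _ _ ?_
  intro g hgm hg0 hgM hgoff hgR hg
  set m := ∫ y, g y with hm
  have hm0 : 0 ≤ m := integral_nonneg hg0
  have ht1 : |t| = 1 := by rcases sq_one_cases ht with h | h <;> simp [h]
  set f : ℝ → ℝ := fun y => g y / (1 + |y|) with hf
  have hfm : Measurable f := hgm.div (measurable_const.add measurable_id.abs)
  have hf0 : ∀ y, 0 ≤ f y := fun y => div_nonneg (hg0 y) (by positivity)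
  have hfi : Integrable f := by
    refine hg.mono' hfm.aestronglyMeasurable (Eventually.of_forall fun y => ?_)
    rw [Real.norm_of_nonneg (hf0 y)]
    exact div_le_self (hg0 y) (by linarith [abs_nonneg y])
  have hgy : ∀ y, g y ≠ 0 → 0 ≤ t * y ∧ t * y ≤ R ∧ |y| = t * y := fun y hy => by
    have h : y ∈ Hf t R := by by_contra h; exact hy (hgoff y h)
    exact ⟨h.1, h.2, t_abs ht h.1⟩
  have hyle : ∀ y, g y ≠ 0 → y ≤ R := fun y hy => by
    obtain ⟨h1, h2, h3⟩ := hgy y hy
    linarith [le_abs_self y]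
  have hvg : ∀ x ∈ Ioo (2 * R) (3 * R), VanishNear g x := fun x hx =>
    ⟨R, hR0, fun y hy => by
      by_contra hne
      have h1 := hyle y hne
      have h2 := (abs_lt.mp hy).1
      linarith [hx.1]⟩
  have hvf : ∀ x ∈ Ioo (2 * R) (3 * R), VanishNear f x := fun x hx => by
    obtain ⟨ρ, hρ, h1⟩ := hvg x hx
    exact ⟨ρ, hρ, fun y hy => by simp [hf, h1 y hy]⟩
  have hz2 : ∀ z, bp (ee t) z ≠ 0 → |z| ≤ 2 ∧ 1 ≤ -(t * z) := fun z hz => by
    obtain ⟨h1, h2⟩ := ee_spec ht (bp_mem hz)
    refine ⟨?_, h1⟩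
    rcases sq_one_cases ht with h | h <;> subst h <;> rw [abs_le] <;> constructor <;> linarith
  have hvh : ∀ x ∈ Ioo (2 * R) (3 * R), VanishNear (bp (ee t)) x := fun x hx =>
    ⟨R, hR0, fun y hy => by
      by_contra hne
      have h1 := (abs_le.mp (hz2 y hne).1).2
      have h2 := (abs_lt.mp hy).1
      linarith [hx.1]⟩
  have h4 := caseB_basic hp hU hU0 hoff hS hM hfm hf0 hfi (S := Ioo (2 * R) (3 * R))
    measurableSet_Ioo hvf hvh
    (fun _ => m / (16 * R ^ 2)) (fun x hx => ⟨by positivity, ?_⟩)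
  · rw [const_rpow_mul_U hp (by positivity)] at h4
    have h5 : ∫⁻ x in Ioo (2 * R) (3 * R), w (V1 p U) x ≤
        ENNReal.ofReal (R ^ (-p)) * ∫⁻ x in Ioo (2 * R) (3 * R), w U x := by
      rw [← lintegral_const_mul' _ _ ENNReal.ofReal_ne_top]
      refine lintegral_mono_ae ((ae_restrict_mem measurableSet_Ioo).mono fun x hx => ?_)
      unfold w V1
      rw [← ENNReal.ofReal_mul (by positivity)]
      apply ENNReal.ofReal_le_ofReal
      refine mul_le_mul_of_nonneg_right ?_ (hU0 x)
      refine Real.rpow_le_rpow_of_nonpos (by positivity) ?_ (by linarith)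
      linarith [hx.1, le_abs_self x]
    have h6 : N p U f = N p (V1 p U) g := by
      refine lintegral_congr fun x => ?_
      congr 1
      simp only [hf, V1]
      rw [abs_div, Real.div_rpow (abs_nonneg _) (abs_nonneg _), abs_of_pos (by positivity : 0 < 1 + |x|),
        Real.rpow_neg (by positivity), div_eq_mul_inv, mul_assoc]
    rw [h6] at h4
    have h8 : ENNReal.ofReal m ^ p =
        ENNReal.ofReal ((16 * R ^ 2) ^ p) * ENNReal.ofReal ((m / (16 * R ^ 2)) ^ p) := by
      rw [← ENNReal.ofReal_mul (by positivity), ← Real.mul_rpow (by positivity) (by positivity),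
        mul_div_cancel₀ _ (by positivity), ENNReal.ofReal_rpow_of_nonneg hm0 (by linarith)]
    have h9 : ENNReal.ofReal (R ^ (-p)) * ENNReal.ofReal ((16 * R ^ 2) ^ p) =
        ENNReal.ofReal (16 ^ p) * ENNReal.ofReal (R ^ p) := by
      rw [← ENNReal.ofReal_mul (by positivity), ← ENNReal.ofReal_mul (by positivity)]
      congr 1
      rw [Real.rpow_neg (by positivity), ← Real.inv_rpow (by positivity),
        ← Real.mul_rpow (by positivity) (by positivity),
        ← Real.mul_rpow (by positivity) (by positivity)]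
      congr 1
      field_simp
    calc (∫⁻ x in Ioo (2 * R) (3 * R), w (V1 p U) x) * ENNReal.ofReal m ^ p
        ≤ (ENNReal.ofReal (R ^ (-p)) * ∫⁻ x in Ioo (2 * R) (3 * R), w U x) *
          ENNReal.ofReal m ^ p := mul_le_mul_left h5 _
      _ = ENNReal.ofReal (R ^ (-p)) * ENNReal.ofReal ((16 * R ^ 2) ^ p) *
          (ENNReal.ofReal ((m / (16 * R ^ 2)) ^ p) * ∫⁻ x in Ioo (2 * R) (3 * R), w U x) := by
          rw [h8]; ring
      _ ≤ ENNReal.ofReal (R ^ (-p)) * ENNReal.ofReal ((16 * R ^ 2) ^ p) *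
          (K0 p C (∫⁻ x, sg p U x) M * N p (V1 p U) g) := mul_le_mul_right h4 _
      _ = _ := by rw [h9]; ring
  · -- the pointwise lower bound
    have hx1 : 0 < x := by linarith [hx.1]
    have hxt : 0 < x + t := by
      have := abs_le.mp ht1.le
      linarith [hx.1, this.1]
    have hk : t * ∫ z, bp (ee t) z / (x - z) ≤ t / (x + t) := by
      have h1 : t * ∫ z, bp (ee t) z / (x - z) ≤ ∫ z, bp (ee t) z * (t / (x + t)) := by
        rw [← integral_const_mul]
        refine integral_mono (((hvh x hx).integrable (bp_integrable _)).const_mul _)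
          ((bp_integrable _).mul_const _) fun z => ?_
        by_cases hz : bp (ee t) z = 0
        · simp [hz]
        · obtain ⟨h2, h3⟩ := hz2 z hz
          have hxz : 0 < x - z := by linarith [(abs_le.mp h2).2, hx.1]
          simp only
          rw [mul_div_assoc', mul_comm t, mul_div_assoc]
          refine mul_le_mul_of_nonneg_left ?_ (bp_nonneg _ _)
          rw [div_le_div_iff₀ hxz hxt]
          nlinarith
      rwa [integral_mul_const, bp_integral, one_mul] at h1
    have hfx : (m / (16 * R ^ 2)) + (∫ y, f y) * (t / (x + t)) ≤ t * ∫ y, f y / (x - y) := by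
      rw [hm, div_eq_mul_inv, ← integral_mul_const, ← integral_mul_const, ← integral_const_mul,
        ← integral_add (hg.mul_const _) (hfi.mul_const _)]
      refine integral_mono ((hg.mul_const _).add (hfi.mul_const _))
        (((hvf x hx).integrable hfi).const_mul _) fun y => ?_
      by_cases hy : g y = 0
      · simp [hf, hy]
      · obtain ⟨h1, h2, h3⟩ := hgy y hy
        have h4 := hyle y hy
        have hxy : 0 < x - y := by linarith [hx.1]
        have hy1 : 0 < 1 + |y| := by positivity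
        have h5 : x - y ≤ 4 * R := by
          have : -R ≤ y := by linarith [neg_abs_le y]
          linarith [hx.2]
        have h6 : x + t ≤ 4 * R := by
          have := abs_le.mp ht1.le
          linarith [hx.2, this.2]
        have h7 : t / (x - y) - t / (x + t) = (1 + |y|) / ((x - y) * (x + t)) := by
          rw [h3]
          field_simp
          linear_combination ht
        have h8 : (1 + |y|) / (16 * R ^ 2) ≤ (1 + |y|) / ((x - y) * (x + t)) := by
          refine div_le_div_of_nonneg_left hy1.le (by positivity) ?_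
          nlinarith
        have h9 : g y * (16 * R ^ 2)⁻¹ = f y * ((1 + |y|) / (16 * R ^ 2)) := by
          simp only [hf]
          field_simp
        show g y * (16 * R ^ 2)⁻¹ + f y * (t / (x + t)) ≤ t * (f y / (x - y))
        rw [h9]
        have h10 := mul_le_mul_of_nonneg_left h8 (hf0 y)
        rw [← h7] at h10
        have h11 : t * (f y / (x - y)) = f y * (t / (x - y)) := by ring
        rw [h11]
        linarith
    have hc0 : 0 ≤ ∫ y, f y := integral_nonneg hf0
    have h12 := mul_le_mul_of_nonneg_left hk hc0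
    have h13 : m / (16 * R ^ 2) ≤
        t * ((∫ y, f y / (x - y)) - (∫ y, f y) * ∫ z, bp (ee t) z / (x - z)) := by
      have : t * ((∫ y, f y / (x - y)) - (∫ y, f y) * ∫ z, bp (ee t) z / (x - z)) =
        t * (∫ y, f y / (x - y)) - (∫ y, f y) * (t * ∫ z, bp (ee t) z / (x - z)) := by ring
      rw [this]
      linarith
    refine h13.trans ((le_abs_self _).trans (le_of_eq ?_))
    rw [abs_mul, ht1, one_mul]

end Pool.Agent.H786R2.HW
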