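import Pool.Agent.H786R2.HWCaseB2

set_option autoImplicit false

open MeasureTheory Set Filter Topology ENNReal

namespace Pool.Agent.H786R2.HW

variable {p : ℝ} {U : ℝ → ℝ} {C : ℝ}

lemma elem_ineq {u R : ℝ} (hu : 0 ≤ u) (huR : u ≤ R) (hR : 10 ≤ R) :
    1 / (4 * (1 + u)) + 1 / (2 * R + u) ≤ 1 / (2 + u) := by
  rw [div_add_div _ _ (by positivity) (by positivity), div_le_div_iff₀ (by positivity) (by positivity)]
  nlinarith [mul_nonneg hu (by linarith : 0 ≤ R - u), mul_nonneg hu hu,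
    mul_nonneg hu (by linarith : 0 ≤ R - 10)]

/-- second large inequality -/
lemma large_two (hp : 1 < p) (hU : Measurable U) (hU0 : ∀ x, 0 ≤ U x) (hoff : Off p U C)
    (hS : ∫⁻ x, sg p U x ≠ ∞) {M : ℝ≥0∞} {t R : ℝ} (ht : t ^ 2 = 1) (hR : 10 ≤ R)
    (hM : ∫⁻ x in Icc (ee t) (ee t + 1), w U x ≤ M) :
    (∫⁻ x in Hf t R, w (V1 p U) x) *
      (∫⁻ x in Ioo (2 * R) (3 * R), sg p (V1 p U) x) ^ (p - 1) ≤
      (ENNReal.ofReal (16 ^ p) * K0 p C (∫⁻ x, sg p U x) M) * ENNReal.ofReal (R ^ p) := by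
  have hR0 : 0 < R := by linarith
  refine testing hp (V1_measurable hU) (V1_nonneg hU0) measurableSet_Ioo _ _ ?_
  intro g hgm hg0 hgM hgoff hgR hg
  set m := ∫ y, g y with hm
  have hm0 : 0 ≤ m := integral_nonneg hg0
  have ht1 : |t| = 1 := by rcases sq_one_cases ht with h | h <;> simp [h]
  have hgy : ∀ y, g y ≠ 0 → 2 * R < y ∧ y < 3 * R := fun y hy => by
    by_contra h; exact hy (hgoff y h)
  have hxR : ∀ x ∈ Hf t R, |x| ≤ R := fun x hx => by rw [t_abs ht hx.1]; exact hx.2
  have hvg : ∀ x ∈ Hf t R, VanishNear g x := fun x hx =>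
    ⟨R, hR0, fun y hy => by
      by_contra hne
      have h1 := (hgy y hne).1
      have h2 := (abs_lt.mp hy).2
      linarith [(abs_le.mp (hxR x hx)).2]⟩
  have hvh : ∀ x ∈ Hf t R, VanishNear (bp (ee t)) x := fun x hx =>
    vanishNear_bp fun hz => by
      have := (ee_spec ht hz).1
      linarith [hx.1]
  have h4 := caseB_basic hp hU hU0 hoff hS hM hgm hg0 hg (S := Hf t R)
    (measurableSet_Hf t R) hvg hvh
    (fun x => m / 4 * (1 + |x|)⁻¹) (fun x hx => ⟨by positivity, ?_⟩)
  · have h5 : ∫⁻ x in Hf t R, ENNReal.ofReal ((m / 4 * (1 + |x|)⁻¹) ^ p * U x) =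
        ENNReal.ofReal ((m / 4) ^ p) * ∫⁻ x in Hf t R, w (V1 p U) x := by
      rw [← lintegral_const_mul' _ _ ENNReal.ofReal_ne_top]
      refine lintegral_congr fun x => ?_
      unfold w V1
      rw [← ENNReal.ofReal_mul (by positivity), Real.mul_rpow (by positivity) (by positivity),
        Real.inv_rpow (by positivity), ← Real.rpow_neg (by positivity), mul_assoc]
    rw [h5] at h4
    have h6 : N p U g ≤ ENNReal.ofReal ((4 * R) ^ p) * N p (V1 p U) g := by
      unfold N
      rw [← lintegral_const_mul' _ _ ENNReal.ofReal_ne_top]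
      refine lintegral_mono fun x => ?_
      rw [← ENNReal.ofReal_mul (by positivity)]
      apply ENNReal.ofReal_le_ofReal
      by_cases hx : g x = 0
      · simp [hx, Real.zero_rpow (by linarith : p ≠ 0)]
      · have hx' := hgy x hx
        have h7 : (1 : ℝ) ≤ (4 * R) ^ p * (1 + |x|) ^ (-p) := by
          rw [Real.rpow_neg (by positivity), ← div_eq_mul_inv, one_le_div (by positivity)]
          refine Real.rpow_le_rpow (by positivity) ?_ (by linarith)
          rw [abs_of_pos (by linarith)]; linarith [hx'.2]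
        unfold V1
        calc |g x| ^ p * U x = 1 * (|g x| ^ p * U x) := (one_mul _).symm
          _ ≤ ((4 * R) ^ p * (1 + |x|) ^ (-p)) * (|g x| ^ p * U x) :=
              mul_le_mul_of_nonneg_right h7 (mul_nonneg (by positivity) (hU0 x))
          _ = (4 * R) ^ p * (|g x| ^ p * ((1 + |x|) ^ (-p) * U x)) := by ring
    have h8 : ENNReal.ofReal m ^ p = ENNReal.ofReal (4 ^ p) * ENNReal.ofReal ((m / 4) ^ p) := by
      rw [← ENNReal.ofReal_mul (by positivity), ← Real.mul_rpow (by positivity) (by positivity),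
        mul_div_cancel₀ _ (by positivity), ENNReal.ofReal_rpow_of_nonneg hm0 (by linarith)]
    have h9 : ENNReal.ofReal (4 ^ p) * ENNReal.ofReal ((4 * R) ^ p) =
        ENNReal.ofReal (16 ^ p) * ENNReal.ofReal (R ^ p) := by
      rw [← ENNReal.ofReal_mul (by positivity), ← ENNReal.ofReal_mul (by positivity)]
      congr 1
      rw [← Real.mul_rpow (by positivity) (by positivity),
        ← Real.mul_rpow (by positivity) (by positivity)]
      congr 1
      ring
    calc (∫⁻ x in Hf t R, w (V1 p U) x) * ENNReal.ofReal m ^ p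
        = ENNReal.ofReal (4 ^ p) *
          (ENNReal.ofReal ((m / 4) ^ p) * ∫⁻ x in Hf t R, w (V1 p U) x) := by
          rw [h8]; ring
      _ ≤ ENNReal.ofReal (4 ^ p) * (K0 p C (∫⁻ x, sg p U x) M * N p U g) := mul_le_mul_right h4 _
      _ ≤ ENNReal.ofReal (4 ^ p) * (K0 p C (∫⁻ x, sg p U x) M *
          (ENNReal.ofReal ((4 * R) ^ p) * N p (V1 p U) g)) :=
          mul_le_mul_right (mul_le_mul_right h6 _) _
      _ = (ENNReal.ofReal (4 ^ p) * ENNReal.ofReal ((4 * R) ^ p)) *
          K0 p C (∫⁻ x, sg p U x) M * N p (V1 p U) g := by ring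
      _ = _ := by rw [h9]; ring
  · have hu := hxR x hx
    have hxt := t_abs ht hx.1
    have hk : 1 / (2 + |x|) ≤ t * ∫ z, bp (ee t) z / (x - z) := by
      have h1 : ∫ z, bp (ee t) z * (1 / (2 + |x|)) ≤ t * ∫ z, bp (ee t) z / (x - z) := by
        rw [← integral_const_mul]
        refine integral_mono ((bp_integrable _).mul_const _)
          (((hvh x hx).integrable (bp_integrable _)).const_mul _) fun z => ?_
        by_cases hz : bp (ee t) z = 0
        · simp [hz]
        · obtain ⟨h2, h3⟩ := ee_spec ht (bp_mem hz)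
          have h4 : 0 < t * (x - z) := by rw [mul_sub]; linarith [hx.1]
          have h5 : t * (x - z) ≤ 2 + |x| := by rw [mul_sub, hxt]; linarith
          have h6 : t * (bp (ee t) z / (x - z)) = bp (ee t) z * (1 / (t * (x - z))) := by
            have hxz : x - z ≠ 0 := fun h0 => by rw [h0, mul_zero] at h4; exact lt_irrefl _ h4
            have ht0 : t ≠ 0 := fun h0 => by rw [h0] at ht; norm_num at ht
            field_simp
            linear_combination ht
          simp only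
          rw [h6]
          exact mul_le_mul_of_nonneg_left (one_div_le_one_div_of_le h4 h5) (bp_nonneg _ _)
      rwa [integral_mul_const, bp_integral, one_mul] at h1
    have hG : t * ∫ y, g y / (x - y) ≤ m * (1 / (2 * R + |x|)) := by
      rw [hm, ← integral_const_mul, ← integral_mul_const]
      refine integral_mono (((hvg x hx).integrable hg).const_mul _) (hg.mul_const _) fun y => ?_
      by_cases hy : g y = 0
      · simp [hy]
      · obtain ⟨h1, h2⟩ := hgy y hy
        have hxy : x - y < 0 := by linarith [(abs_le.mp hu).2]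
        simp only
        have h3 : t * (g y / (x - y)) = g y * (t / (x - y)) := by ring
        rw [h3]
        refine mul_le_mul_of_nonneg_left ?_ (hg0 y)
        rcases sq_one_cases ht with h | h
        · subst h
          exact (div_neg_of_pos_of_neg one_pos hxy).le.trans (by positivity)
        · subst h
          have h4 : (-1 : ℝ) / (x - y) = 1 / (y - x) := by
            rw [← neg_div_neg_eq, neg_neg, neg_sub]
          rw [h4]
          refine one_div_le_one_div_of_le (by positivity) ?_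
          rw [hxt]; linarith
    have h12 := mul_le_mul_of_nonneg_left hk hm0
    have h13 := mul_le_mul_of_nonneg_left (elem_ineq (abs_nonneg x) hu hR) hm0
    have h14 : m / 4 * (1 + |x|)⁻¹ = m * (1 / (4 * (1 + |x|))) := by field_simp
    rw [h14]
    have h15 : m * (1 / (4 * (1 + |x|))) ≤
        -(t * ((∫ y, g y / (x - y)) - m * ∫ z, bp (ee t) z / (x - z))) := by
      have : t * ((∫ y, g y / (x - y)) - m * ∫ z, bp (ee t) z / (x - z)) =
        t * (∫ y, g y / (x - y)) - m * (t * ∫ z, bp (ee t) z / (x - z)) := by ring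
      rw [this]
      have h16 : m * (1 / (4 * (1 + |x|)) + 1 / (2 * R + |x|)) =
        m * (1 / (4 * (1 + |x|))) + m * (1 / (2 * R + |x|)) := by ring
      linarith
    refine h15.trans ((neg_le_abs _).trans (le_of_eq ?_))
    rw [abs_mul, ht1, one_mul]

/-- `A_p` inequality on `[-R,R]` -/
lemma large_diag (hp : 1 < p) (hU : Measurable U) (hU0 : ∀ x, 0 ≤ U x) (hoff : Off p U C)
    (hS : ∫⁻ x, sg p U x ≠ ∞) {M : ℝ≥0∞} {R : ℝ} (hR : 10 ≤ R)
    (hM : ∀ t : ℝ, t ^ 2 = 1 → ∫⁻ x in Icc (ee t) (ee t + 1), w U x ≤ M) :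
    (∫⁻ x in Icc (-R) R, w (V1 p U) x) * (∫⁻ x in Icc (-R) R, sg p (V1 p U) x) ^ (p - 1) ≤
      (ENNReal.ofReal (4 * 2 ^ (p - 1)) * ((ENNReal.ofReal (16 ^ p) * K0 p C (∫⁻ x, sg p U x) M) *
        (ENNReal.ofReal (16 ^ p) * K0 p C (∫⁻ x, sg p U x) M))) * ENNReal.ofReal (R ^ p) := by
  have hR0 : 0 < R := by linarith
  have hp1 : 0 < p - 1 := by linarith
  have hpos := pos_of_sg hU hU0 hp hS
  have hWpos : ∀ᵐ x, 0 < V1 p U x := by
    filter_upwards [hpos] with x hx
    unfold V1; positivity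
  set A := ENNReal.ofReal (16 ^ p) * K0 p C (∫⁻ x, sg p U x) M with hA
  have hB : ENNReal.ofReal (R ^ p) ≠ 0 :=
    (ENNReal.ofReal_pos.mpr (Real.rpow_pos_of_pos hR0 _)).ne'
  have h3 := holder_one hp (V1_measurable (p := p) hU) hWpos (a := 2 * R) (b := 3 * R)
    (by linarith)
  have e1 : 3 * R - 2 * R = R := by ring
  rw [e1, ← lintegral_Ioo_eq_Icc, ← lintegral_Ioo_eq_Icc] at h3
  have hcross : ∀ t : ℝ, t ^ 2 = 1 → ∀ t' : ℝ, t' ^ 2 = 1 →
      (∫⁻ x in Hf t R, w (V1 p U) x) * (∫⁻ x in Hf t' R, sg p (V1 p U) x) ^ (p - 1) ≤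
        A * A * ENNReal.ofReal (R ^ p) := fun t ht t' ht' =>
    cross hB ENNReal.ofReal_ne_top (large_one hp hU hU0 hoff hS ht' hR (hM t' ht'))
      (large_two hp hU hU0 hoff hS ht hR (hM t ht)) h3
  have hcover : Icc (-R) R ⊆ Hf 1 R ∪ Hf (-1) R := fun x hx => by
    rcases le_total 0 x with h | h
    · left; exact ⟨by linarith, by linarith [hx.2]⟩
    · right; exact ⟨by linarith, by linarith [hx.1]⟩
  have hsum : ∀ F : ℝ → ℝ≥0∞, ∫⁻ x in Icc (-R) R, F x ≤
      (∫⁻ x in Hf 1 R, F x) + ∫⁻ x in Hf (-1) R, F x := fun F =>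
    (lintegral_mono_set hcover).trans (lintegral_union_le _ _ _)
  set Z1 := ∫⁻ x in Hf 1 R, w (V1 p U) x
  set Z2 := ∫⁻ x in Hf (-1) R, w (V1 p U) x
  set T1 := ∫⁻ x in Hf 1 R, sg p (V1 p U) x
  set T2 := ∫⁻ x in Hf (-1) R, sg p (V1 p U) x
  have c11 := hcross 1 (by norm_num) 1 (by norm_num)
  have c12 := hcross 1 (by norm_num) (-1) (by norm_num)
  have c21 := hcross (-1) (by norm_num) 1 (by norm_num)
  have c22 := hcross (-1) (by norm_num) (-1) (by norm_num)
  have hT : (T1 + T2) ^ (p - 1) ≤ ENNReal.ofReal (2 ^ (p - 1)) * (T1 ^ (p - 1) + T2 ^ (p - 1)) := by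
    have h1 : T1 + T2 ≤ 2 * max T1 T2 := by
      rw [two_mul]; exact add_le_add (le_max_left _ _) (le_max_right _ _)
    refine (ENNReal.rpow_le_rpow h1 hp1.le).trans ?_
    rw [ENNReal.mul_rpow_of_nonneg _ _ hp1.le, ← ENNReal.ofReal_rpow_of_pos (by norm_num),
      ENNReal.ofReal_ofNat]
    refine mul_le_mul_right ?_ _
    rcases le_total T1 T2 with h | h
    · rw [max_eq_right h]; exact le_add_self
    · rw [max_eq_left h]; exact le_self_add
  calc (∫⁻ x in Icc (-R) R, w (V1 p U) x) * (∫⁻ x in Icc (-R) R, sg p (V1 p U) x) ^ (p - 1)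
      ≤ (Z1 + Z2) * (T1 + T2) ^ (p - 1) :=
        mul_le_mul' (hsum _) (ENNReal.rpow_le_rpow (hsum _) hp1.le)
    _ ≤ (Z1 + Z2) * (ENNReal.ofReal (2 ^ (p - 1)) * (T1 ^ (p - 1) + T2 ^ (p - 1))) :=
        mul_le_mul_right hT _
    _ = ENNReal.ofReal (2 ^ (p - 1)) * (Z1 * T1 ^ (p - 1) + Z1 * T2 ^ (p - 1) +
        Z2 * T1 ^ (p - 1) + Z2 * T2 ^ (p - 1)) := by ring
    _ ≤ ENNReal.ofReal (2 ^ (p - 1)) * (A * A * ENNReal.ofReal (R ^ p) +
        A * A * ENNReal.ofReal (R ^ p) + A * A * ENNReal.ofReal (R ^ p) +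
        A * A * ENNReal.ofReal (R ^ p)) := by gcongr
    _ = _ := by
        rw [ENNReal.ofReal_mul (by norm_num), ENNReal.ofReal_ofNat]
        ring

end Pool.Agent.H786R2.HW
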