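import Pool.Agent.H786R2.HWCaseA

set_option autoImplicit false

open MeasureTheory Set Filter Topology ENNReal

namespace Pool.Agent.H786R2.HW

variable {p : ℝ} {U : ℝ → ℝ} {C : ℝ}

/-- the modified weight `|x - a|^{-p} U(x)` -/
noncomputable def V (p : ℝ) (U : ℝ → ℝ) (a₀ : ℝ) (x : ℝ) : ℝ := |x - a₀| ^ (-p) * U x

lemma V_nonneg (hU0 : ∀ x, 0 ≤ U x) (a₀ x : ℝ) : 0 ≤ V p U a₀ x :=
  mul_nonneg (by positivity) (hU0 x)

lemma V_measurable (hU : Measurable U) (a₀ : ℝ) : Measurable (V p U a₀) :=
  ((measurable_id.sub_const a₀).abs.pow_const _).mul hU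

lemma near_bump (hp : 1 < p) (hU : Measurable U) (hU0 : ∀ x, 0 ≤ U x) (hoff : Off p U C)
    {a₀ r e η : ℝ} (he : 0 < e) (hη : 0 < η) (hηr : η < r)
    {g h : ℝ → ℝ} (hgm : Measurable g) (hg0 : ∀ y, 0 ≤ g y) (hg : Integrable g)
    (hge : ∀ y, |y - a₀| < e → g y = 0)
    (hh0 : ∀ y, 0 ≤ h y) (hh : Integrable h) (hh1 : ∫ y, h y = 1)
    (hhη : ∀ y, h y ≠ 0 → |y - a₀| < η)
    {L s : ℝ} (hL : 0 < L) (hs : s ^ 2 = 1) {J : Set ℝ} (hJ : MeasurableSet J)
    (hv : ∀ x ∈ J, VanishNear g x)
    (hgJ : ∀ x ∈ J, ∀ y, g y ≠ 0 → 0 < s * (x - y) ∧ s * (x - y) ≤ 2 * L)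
    (hr : ∀ x ∈ J, r ≤ |x - a₀|)
    (hηL : |∫ y, g y / (y - a₀)| * (η / (r - η)) ≤ (∫ y, g y) / (4 * L)) :
    (∫⁻ x in J, w (V p U a₀) x) * ENNReal.ofReal (∫ y, g y) ^ p ≤
      ENNReal.ofReal ((4 * L) ^ p) * (ENNReal.ofReal C * (ENNReal.ofReal (2 ^ p) *
        (N p (V p U a₀) g + ENNReal.ofReal (|∫ y, g y / (y - a₀)| ^ p) * N p U h))) := by
  set m := ∫ y, g y with hm
  set f : ℝ → ℝ := fun y => g y / (y - a₀) with hfdef
  set c := ∫ y, f y with hc
  have hm0 : 0 ≤ m := integral_nonneg hg0
  have hrη : 0 < r - η := by linarith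
  have hfm : Measurable f := hgm.div (measurable_id.sub_const a₀)
  have hf : Integrable f := by
    refine (hg.norm.const_mul (1 / e)).mono' hfm.aestronglyMeasurable (Eventually.of_forall fun y => ?_)
    by_cases hy : |y - a₀| < e
    · simp [hfdef, hge y hy]
    · push Not at hy
      rw [hfdef, norm_div, Real.norm_eq_abs, Real.norm_eq_abs, div_eq_mul_one_div, mul_comm]
      exact mul_le_mul_of_nonneg_right (one_div_le_one_div_of_le he hy) (abs_nonneg _)
  have hvf : ∀ x ∈ J, VanishNear f x := fun x hx => by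
    obtain ⟨ρ, hρ, h1⟩ := hv x hx
    exact ⟨ρ, hρ, fun y hy => by simp [hfdef, h1 y hy]⟩
  have hvh : ∀ x ∈ J, VanishNear h x := fun x hx => ⟨r - η, hrη, fun y hy => by
    by_contra hne
    have h1 := hhη y hne
    have h2 := hr x hx
    have h3 := abs_sub_le x y a₀
    rw [abs_sub_comm x y] at h3
    linarith⟩
  have hxa : ∀ x ∈ J, x - a₀ ≠ 0 := fun x hx h0 => by
    have := hr x hx
    rw [h0, abs_zero] at this; linarith
  have hNf : N p U f = N p (V p U a₀) g := by
    refine lintegral_congr fun y => ?_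
    congr 1
    by_cases hy : g y = 0
    · simp [hfdef, hy, Real.zero_rpow (by linarith : p ≠ 0)]
    · have hya : y - a₀ ≠ 0 := fun h0 => hy (hge y (by rw [h0, abs_zero]; exact he))
      simp only [hfdef, V]
      rw [abs_div, Real.div_rpow (abs_nonneg _) (abs_nonneg _), Real.rpow_neg (abs_nonneg _),
        div_eq_mul_inv, mul_assoc]
  have h1 := hoff (fun y => f y - c * h y) (hf.sub (hh.const_mul _))
    (integral_sub_mul_bump hf hh hh1) J (fun x hx => (hvf x hx).sub_mul (hvh x hx) c)
    (fun x => m / (4 * L) / |x - a₀|) (fun x hx => ⟨by positivity, ?_⟩) hJ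
  · have h2 := N_sub_le hp hU hU0 hfm (h := h) c
    rw [hNf] at h2
    have h3 : ∫⁻ x in J, ENNReal.ofReal ((m / (4 * L) / |x - a₀|) ^ p * U x) =
        ENNReal.ofReal ((m / (4 * L)) ^ p) * ∫⁻ x in J, w (V p U a₀) x := by
      rw [← lintegral_const_mul' _ _ ENNReal.ofReal_ne_top]
      refine lintegral_congr fun x => ?_
      unfold w V
      rw [← ENNReal.ofReal_mul (by positivity), Real.div_rpow (by positivity) (abs_nonneg _),
        Real.rpow_neg (abs_nonneg _), div_eq_mul_inv _ (|x - a₀| ^ p), mul_assoc]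
    rw [h3] at h1
    have h4 : ENNReal.ofReal m ^ p =
        ENNReal.ofReal ((4 * L) ^ p) * ENNReal.ofReal ((m / (4 * L)) ^ p) := by
      rw [← ENNReal.ofReal_mul (by positivity), ← Real.mul_rpow (by positivity) (by positivity),
        mul_div_cancel₀ _ (by positivity), ENNReal.ofReal_rpow_of_nonneg hm0 (by linarith)]
    rw [h4, mul_comm, mul_assoc]
    refine mul_le_mul_right ?_ _
    refine h1.trans ?_
    exact mul_le_mul_right h2 _
  · rw [integral_sub_kernel hf hh c (hvf x hx) (hvh x hx), div_le_iff₀ (abs_pos.mpr (hxa x hx)),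
      ← abs_mul, sub_mul]
    have h5 : (∫ y, f y / (x - y)) * (x - a₀) = c + ∫ y, g y / (x - y) := by
      rw [mul_comm, ← integral_const_mul, hc, ← integral_add hf ((hv x hx).integrable hg)]
      refine integral_congr_ae (Eventually.of_forall fun y => ?_)
      simp only
      by_cases hy : g y = 0
      · simp [hfdef, hy]
      · have hya : y - a₀ ≠ 0 := fun h0 => hy (hge y (by rw [h0, abs_zero]; exact he))
        have hxy : x - y ≠ 0 := fun h0 => by
          have := (hgJ x hx y hy).1
          rw [h0, mul_zero] at this; exact lt_irrefl _ this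
        simp only [hfdef]
        field_simp
        ring
    have h6 : (∫ y, h y / (x - y)) * (x - a₀) = 1 + ∫ y, h y * (y - a₀) / (x - y) := by
      have hi : Integrable (fun y => h y * (y - a₀) / (x - y)) := by
        have h7 : Integrable (fun y => (x - a₀) * (h y / (x - y)) - h y) :=
          (((hvh x hx).integrable hh).const_mul _).sub hh
        refine h7.congr (Eventually.of_forall fun y => ?_)
        simp only
        by_cases hy : h y = 0
        · simp [hy]
        · have hxy : x - y ≠ 0 := fun h0 => by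
            have h1 := hhη y hy
            have h2 := hr x hx
            rw [sub_eq_zero.mp h0] at h2
            linarith
          field_simp
          ring
      rw [mul_comm, ← integral_const_mul, ← hh1, ← integral_add hh hi]
      refine integral_congr_ae (Eventually.of_forall fun y => ?_)
      simp only
      by_cases hy : h y = 0
      · simp [hy]
      · have hxy : x - y ≠ 0 := fun h0 => by
          have h1 := hhη y hy
          have h2 := hr x hx
          rw [sub_eq_zero.mp h0] at h2
          linarith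
        field_simp
        ring
    rw [h5, mul_assoc, h6]
    have h8 : |∫ y, h y * (y - a₀) / (x - y)| ≤ η / (r - η) := by
      have h9 : |∫ y, h y * (y - a₀) / (x - y)| ≤ ∫ y, h y * (η / (r - η)) := by
        rw [← Real.norm_eq_abs]
        refine norm_integral_le_of_norm_le (hh.mul_const _) (Eventually.of_forall fun y => ?_)
        by_cases hy : h y = 0
        · simp [hy]
        · have h1 := hhη y hy
          have h2 := hr x hx
          have h3 := abs_sub_le x y a₀
          rw [norm_div, norm_mul, Real.norm_of_nonneg (hh0 y), Real.norm_eq_abs, Real.norm_eq_abs,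
            mul_div_assoc]
          refine mul_le_mul_of_nonneg_left ?_ (hh0 y)
          exact div_le_div₀ hη.le h1.le hrη (by linarith)
      rwa [integral_mul_const, hh1, one_mul] at h9
    have h10 := kernel_lower hg0 hg hs (hv x hx) (hgJ x hx)
    rw [← hm] at h10
    have h11 : |c * ∫ y, h y * (y - a₀) / (x - y)| ≤ m / (4 * L) := by
      rw [abs_mul]
      exact (mul_le_mul_of_nonneg_left h8 (abs_nonneg _)).trans hηL
    have h13 : c + (∫ y, g y / (x - y)) - c * (1 + ∫ y, h y * (y - a₀) / (x - y)) =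
        (∫ y, g y / (x - y)) - c * ∫ y, h y * (y - a₀) / (x - y) := by ring
    rw [h13]
    have h14 := abs_sub_abs_le_abs_sub (∫ y, g y / (x - y)) (c * ∫ y, h y * (y - a₀) / (x - y))
    have h15 : m / (2 * L) = 2 * (m / (4 * L)) := by field_simp; ring
    linarith

end Pool.Agent.H786R2.HW
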