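import Pool.Agent.H786R2.HWCaseB3

set_option autoImplicit false

open MeasureTheory Set Filter Topology ENNReal

namespace Pool.Agent.H786R2.HW

variable {p : ℝ} {U : ℝ → ℝ} {C : ℝ}

lemma caseB (hp : 1 < p) (hU : Measurable U) (hU0 : ∀ x, 0 ≤ U x) (hloc : LocallyIntegrable U)
    (hoff : Off p U C) (hS : ∫⁻ x, sg p U x ≠ ∞) : IsAp p (V1 p U) := by
  have hpos := pos_of_sg hU hU0 hp hS
  have hWpos : ∀ᵐ x, 0 < V1 p U x := by
    filter_upwards [hpos] with x hx
    unfold V1; positivity
  have hWm := V1_measurable (p := p) hU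
  set M := ∫⁻ x in Icc (-2 : ℝ) 21, w U x with hMdef
  have hM : M ≠ ∞ := by
    have h1 : IntegrableOn U (Icc (-2 : ℝ) 21) := hloc.integrableOn_isCompact isCompact_Icc
    have h2 := h1.2
    rw [hasFiniteIntegral_iff_ofReal (Eventually.of_forall hU0)] at h2
    exact h2.ne
  have hMe : ∀ e : ℝ, -2 ≤ e → e ≤ 20 → ∫⁻ x in Icc e (e + 1), w U x ≤ M := fun e h1 h2 =>
    lintegral_mono_set (Icc_subset_Icc h1 (by linarith))
  set S := ∫⁻ x, sg p U x with hSdef
  set A₁ := ENNReal.ofReal (36 ^ p) * K0 p C S M with hA₁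
  set A₂ := (ENNReal.ofReal (4 * 2 ^ (p - 1)) * ((ENNReal.ofReal (16 ^ p) * K0 p C S M) *
        (ENNReal.ofReal (16 ^ p) * K0 p C S M))) with hA₂
  have hK := K0_ne_top (C := C) hp hS hM
  have hA₁t : A₁ ≠ ∞ := ENNReal.mul_ne_top ENNReal.ofReal_ne_top hK
  have hA₂t : A₂ ≠ ∞ := ENNReal.mul_ne_top ENNReal.ofReal_ne_top
    (ENNReal.mul_ne_top (ENNReal.mul_ne_top ENNReal.ofReal_ne_top hK)
      (ENNReal.mul_ne_top ENNReal.ofReal_ne_top hK))
  refine ApE.isAp hp hWm (V1_nonneg hU0) hWpos (A := A₁ * A₁ + A₂ * ENNReal.ofReal (11 ^ p))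
    (ENNReal.add_ne_top.mpr ⟨ENNReal.mul_ne_top hA₁t hA₁t,
      ENNReal.mul_ne_top hA₂t ENNReal.ofReal_ne_top⟩) ?_
  intro a b hab
  set L := b - a with hL
  have hL0 : 0 < L := by rw [hL]; linarith
  have hb : b = a + L := by rw [hL]; ring
  have hB : ENNReal.ofReal (L ^ p) ≠ 0 :=
    (ENNReal.ofReal_pos.mpr (Real.rpow_pos_of_pos hL0 _)).ne'
  by_cases hsmall : L ≤ 1 ∨ 10 * L ≤ 1 + |a|
  · -- small intervals
    obtain ⟨e, he1, he2, hdist⟩ : ∃ e : ℝ, -2 ≤ e ∧ e ≤ 20 ∧ ∀ x ∈ Icc a (a + 2 * L),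
        ∀ z ∈ Icc e (e + 1), 4 * L ≤ |x - z| := by
      by_cases h1 : L ≤ 1
      · by_cases h2 : -6 < a ∧ a < 5
        · refine ⟨20, by norm_num, le_refl _, fun x hx z hz => ?_⟩
          rw [abs_sub_comm]
          refine le_trans ?_ (le_abs_self _)
          linarith [hx.2, hz.1]
        · refine ⟨0, by norm_num, by norm_num, fun x hx z hz => ?_⟩
          by_cases h3 : a < 5
          · have h4 : a ≤ -6 := by by_contra h; exact h2 ⟨not_le.mp h, h3⟩
            rw [abs_sub_comm]
            refine le_trans ?_ (le_abs_self _)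
            linarith [hx.2, hz.1]
          · refine le_trans ?_ (le_abs_self _)
            linarith [hx.1, hz.2]
      · have h2 : 10 * L ≤ 1 + |a| := hsmall.resolve_left h1
        refine ⟨0, by norm_num, by norm_num, fun x hx z hz => ?_⟩
        rcases abs_cases a with ⟨h3, h4⟩ | ⟨h3, h4⟩
        · refine le_trans ?_ (le_abs_self _)
          linarith [hx.1, hz.2]
        · rw [abs_sub_comm]
          refine le_trans ?_ (le_abs_self _)
          linarith [hx.2, hz.1]
    have hρ1 : ∀ x ∈ Icc a (a + 2 * L), (1 + |a|) / 3 ≤ 1 + |x| := by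
      intro x hx
      have h1 : |x - a| ≤ 2 * L := by rw [abs_of_nonneg (by linarith [hx.1])]; linarith [hx.2]
      have h2 : |a| - |x| ≤ |x - a| := by rw [abs_sub_comm]; exact abs_sub_abs_le_abs_sub a x
      rcases hsmall with h | h
      · have := abs_nonneg x; linarith
      · linarith
    have hρ2 : ∀ x ∈ Icc a (a + 2 * L), 1 + |x| ≤ 3 * (1 + |a|) := by
      intro x hx
      have h1 : |x - a| ≤ 2 * L := by rw [abs_of_nonneg (by linarith [hx.1])]; linarith [hx.2]
      have h2 : |x| - |a| ≤ |x - a| := abs_sub_abs_le_abs_sub x a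
      have := abs_nonneg a
      rcases hsmall with h | h <;> linarith
    have hρ : 0 < 1 + |a| := by positivity
    have hJ1 : J 1 a b = Ioo b (b + L) := J_one hab
    have hJ2 : J (-1) b (b + L) = Ioo a b := by
      rw [J_neg_one (by linarith)]
      congr 1
      rw [hL]; ring
    have s1 := small_pair hp hU hU0 hoff hS (hMe e he1 he2) hab (s := 1) (by norm_num) hρ
      (fun x hx => by rw [hJ1] at hx; exact hρ1 x ⟨by linarith [hx.1], by linarith [hx.2]⟩)
      (fun x hx => hρ2 x ⟨hx.1, by linarith [hx.2]⟩)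
      (fun x hx z hz => by
        rw [hJ1] at hx
        exact hdist x ⟨by linarith [hx.1], by linarith [hx.2]⟩ z hz)
    have s2 := small_pair hp hU hU0 hoff hS (hMe e he1 he2) (a := b) (b := b + L) (by linarith)
      (s := -1) (by norm_num) hρ
      (fun x hx => by rw [hJ2] at hx; exact hρ1 x ⟨by linarith [hx.1], by linarith [hx.2]⟩)
      (fun x hx => hρ2 x ⟨by linarith [hx.1], by linarith [hx.2]⟩)
      (fun x hx z hz => by
        rw [hJ2] at hx
        have := hdist x ⟨by linarith [hx.1], by linarith [hx.2]⟩ z hz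
        have e1 : b + L - b = L := by ring
        rwa [e1])
    have s3 := holder_one hp hWm hWpos (a := b) (b := b + L) (by linarith)
    have e1 : b + L - b = L := by ring
    rw [hJ1, lintegral_Ioo_eq_Icc] at s1
    rw [hJ2, lintegral_Ioo_eq_Icc, e1] at s2
    rw [e1] at s3
    refine (cross hB ENNReal.ofReal_ne_top s1 s2 s3).trans ?_
    exact mul_le_mul_left le_self_add _
  · -- large intervals
    push Not at hsmall
    obtain ⟨h1, h2⟩ := hsmall
    have h3 := large_diag hp hU hU0 hoff hS (M := M) (R := 11 * L) (by linarith)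
      (fun t ht => by
        rcases sq_one_cases ht with h | h <;> subst h <;> unfold ee <;>
          exact hMe _ (by norm_num) (by norm_num))
    have hsub : Icc a b ⊆ Icc (-(11 * L)) (11 * L) := by
      have h4 := neg_abs_le a
      have h5 := le_abs_self a
      exact Icc_subset_Icc (by linarith) (by linarith)
    calc (∫⁻ x in Icc a b, w (V1 p U) x) * (∫⁻ x in Icc a b, sg p (V1 p U) x) ^ (p - 1)
        ≤ (∫⁻ x in Icc (-(11 * L)) (11 * L), w (V1 p U) x) *
          (∫⁻ x in Icc (-(11 * L)) (11 * L), sg p (V1 p U) x) ^ (p - 1) :=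
          mul_le_mul' (lintegral_mono_set hsub)
            (ENNReal.rpow_le_rpow (lintegral_mono_set hsub) (by linarith))
      _ ≤ A₂ * ENNReal.ofReal ((11 * L) ^ p) := h3
      _ = A₂ * ENNReal.ofReal (11 ^ p) * ENNReal.ofReal (L ^ p) := by
          rw [Real.mul_rpow (by norm_num) hL0.le, ENNReal.ofReal_mul (by positivity)]
          ring
      _ ≤ _ := mul_le_mul_left le_add_self _

/-- Every admissible weight is of one of three forms. -/
theorem main (hp : 1 < p) (hw : IsWeight U) (hadm : Admissible p U) :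
    IsAp p U ∨ (∃ a : ℝ, IsAp p (fun x => |x - a| ^ (-p) * U x)) ∨
      IsAp p (fun x => (1 + |x|) ^ (-p) * U x) := by
  obtain ⟨hU, hloc, hU0, hne⟩ := hw
  obtain ⟨C, hC, hoff⟩ := hadm.off hp hU0
  have hoff' : Off p U C := hoff
  by_cases hS : ∫⁻ x, sg p U x = ∞
  swap
  · right; right
    exact caseB hp hU hU0 hloc hoff' hS
  have hσm := measurable_sg (p := p) hU
  by_cases hpt : ∃ a₀ : ℝ, ∀ r : ℝ, 0 < r → ∫⁻ x in {x : ℝ | |x - a₀| < r}, sg p U x = ∞
  · right; left
    obtain ⟨a₀, ha₀⟩ := hpt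
    refine ⟨a₀, ?_⟩
    have h1 := pair_point hp hU hU0 hoff' ha₀
    have hVm := V_measurable (p := p) hU a₀
    have h2 : ¬ ∀ᵐ x, V p U a₀ x = 0 := by
      intro h
      apply hne
      have h3 : ∀ᵐ x : ℝ, x ≠ a₀ := by simp [ae_iff]
      filter_upwards [h, h3] with x hx hx'
      unfold V at hx
      rcases mul_eq_zero.mp hx with h4 | h4
      · exfalso
        have : 0 < |x - a₀| := abs_pos.mpr (sub_ne_zero.mpr hx')
        exact (Real.rpow_pos_of_pos this _).ne' h4
      · exact h4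
    have h3 := h1.pos hp hVm (V_nonneg hU0 a₀) (KK_ne_top p C 1) h2
    exact (h1.apE hp hVm h3).isAp hp hVm (V_nonneg hU0 a₀) h3
      (ENNReal.mul_ne_top (KK_ne_top p C 1) (KK_ne_top p C 1))
  · left
    push Not at hpt
    have hinf : ∀ n : ℕ, ∫⁻ x in {x : ℝ | (n : ℝ) < |x|}, sg p U x = ∞ := by
      intro n
      have hcpt : ∫⁻ x in Icc (-(n : ℝ)) n, sg p U x ≠ ∞ := by
        set μ := (volume : Measure ℝ).withDensity (sg p U) with hμ
        have h1 : μ (Icc (-(n : ℝ)) n) < ∞ := by
          refine isCompact_Icc.measure_lt_top_of_nhdsWithin fun x _ => ?_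
          obtain ⟨r, hr, hr'⟩ := hpt x
          refine ⟨{y : ℝ | |y - x| < r}, ?_, ?_⟩
          · refine mem_nhdsWithin_of_mem_nhds ?_
            have : {y : ℝ | |y - x| < r} = Metric.ball x r := by
              ext y; simp [Real.dist_eq]
            rw [this]; exact Metric.ball_mem_nhds x hr
          · rw [hμ, withDensity_apply _ (measurableSet_lt (by fun_prop) measurable_const)]
            exact lt_top_iff_ne_top.mpr hr'
        rw [hμ, withDensity_apply _ measurableSet_Icc] at h1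
        exact h1.ne
      by_contra hcon
      apply absurd hS
      have h2 : ∫⁻ x, sg p U x ≤ (∫⁻ x in Icc (-(n : ℝ)) n, sg p U x) +
          ∫⁻ x in {x : ℝ | (n : ℝ) < |x|}, sg p U x := by
        rw [← setLIntegral_univ]
        refine (lintegral_mono_set (t := Icc (-(n : ℝ)) n ∪ {x : ℝ | (n : ℝ) < |x|})
          fun x _ => ?_).trans (lintegral_union_le _ _ _)
        by_cases h : (n : ℝ) < |x|
        · right; exact h
        · left; exact abs_le.mp (not_lt.mp h)
      exact ne_top_of_le_ne_top (ENNReal.add_ne_top.mpr ⟨hcpt, hcon⟩) h2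
    have h1 := pair_infinity hp hU hU0 hoff' hinf
    have h3 := h1.pos hp hU hU0 (KK_ne_top p C 1) hne
    exact (h1.apE hp hU h3).isAp hp hU hU0 h3
      (ENNReal.mul_ne_top (KK_ne_top p C 1) (KK_ne_top p C 1))

end Pool.Agent.H786R2.HW
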