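import Pool.Agent.H786R2.HWTest

set_option autoImplicit false

open MeasureTheory Set Filter Topology ENNReal

namespace Pool.Agent.H786R2.HW

/-- The off-diagonal inequality with constant `C`. -/
def Off (p : ℝ) (U : ℝ → ℝ) (C : ℝ) : Prop :=
  ∀ f : ℝ → ℝ, Integrable f → ∫ y, f y = 0 → ∀ S : Set ℝ,
      (∀ x ∈ S, VanishNear f x) → ∀ φ : ℝ → ℝ,
      (∀ x ∈ S, 0 ≤ φ x ∧ φ x ≤ |∫ y, f y / (x - y)|) → MeasurableSet S →
      ∫⁻ x in S, ENNReal.ofReal (φ x ^ p * U x) ≤ ENNReal.ofReal C * N p U f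

variable {p : ℝ} {U : ℝ → ℝ} {C : ℝ}

lemma abs_sub_rpow_le (hp : 1 < p) (a b : ℝ) : |a - b| ^ p ≤ 2 ^ p * (|a| ^ p + |b| ^ p) := by
  have h0 : 0 ≤ p := by linarith
  have h1 : |a - b| ≤ 2 * max |a| |b| := by
    have := abs_sub a b
    have h2 := le_max_left |a| |b|
    have h3 := le_max_right |a| |b|
    linarith
  calc |a - b| ^ p ≤ (2 * max |a| |b|) ^ p := Real.rpow_le_rpow (abs_nonneg _) h1 h0
    _ = 2 ^ p * (max |a| |b|) ^ p := Real.mul_rpow (by norm_num) (by positivity)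
    _ ≤ 2 ^ p * (|a| ^ p + |b| ^ p) := by
        gcongr
        rcases max_cases |a| |b| with h | h
        · rw [h.1]; have := Real.rpow_nonneg (abs_nonneg b) p; linarith
        · rw [h.1]; have := Real.rpow_nonneg (abs_nonneg a) p; linarith

lemma N_sub_le (hp : 1 < p) (hU : Measurable U) (hU0 : ∀ x, 0 ≤ U x) {f h : ℝ → ℝ}
    (hf : Measurable f) (c : ℝ) :
    N p U (fun y => f y - c * h y) ≤
      ENNReal.ofReal (2 ^ p) * (N p U f + ENNReal.ofReal (|c| ^ p) * N p U h) := by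
  unfold N
  rw [← lintegral_const_mul' _ _ ENNReal.ofReal_ne_top, ← lintegral_add_left,
    ← lintegral_const_mul' _ _ ENNReal.ofReal_ne_top]
  · refine lintegral_mono fun x => ?_
    rw [← ENNReal.ofReal_mul (by positivity), ← ENNReal.ofReal_add, ← ENNReal.ofReal_mul (by positivity)]
    · apply ENNReal.ofReal_le_ofReal
      have h1 := mul_le_mul_of_nonneg_right (abs_sub_rpow_le hp (f x) (c * h x)) (hU0 x)
      refine h1.trans (le_of_eq ?_)
      rw [abs_mul, Real.mul_rpow (abs_nonneg _) (abs_nonneg _)]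
      ring
    · exact mul_nonneg (by positivity) (hU0 x)
    · exact mul_nonneg (by positivity) (mul_nonneg (by positivity) (hU0 x))
  · exact ((hf.abs.pow_const p).mul hU).ennreal_ofReal

lemma kernel_lower {g : ℝ → ℝ} (hg0 : ∀ y, 0 ≤ g y) (hg : Integrable g) {x s D : ℝ} (hs : s ^ 2 = 1)
    (hv : VanishNear g x) (h : ∀ y, g y ≠ 0 → 0 < s * (x - y) ∧ s * (x - y) ≤ D) :
    (∫ y, g y) / D ≤ |∫ y, g y / (x - y)| := by
  have h1 : (∫ y, g y) / D ≤ s * ∫ y, g y / (x - y) := by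
    rw [div_eq_mul_inv, mul_comm, ← integral_const_mul, ← integral_const_mul]
    refine integral_mono (hg.const_mul _) ((hv.integrable hg).const_mul _) fun y => ?_
    by_cases hy : g y = 0
    · simp [hy]
    · obtain ⟨h1, h2⟩ := h y hy
      have hxy : x - y ≠ 0 := fun h0 => by rw [h0, mul_zero] at h1; exact lt_irrefl _ h1
      have h3 : s * (g y / (x - y)) = (s * (x - y))⁻¹ * g y := by
        have hs0 : s ≠ 0 := fun h0 => by rw [h0] at hs; norm_num at hs
        field_simp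
        linear_combination hs
      simp only
      rw [h3]
      exact mul_le_mul_of_nonneg_right (inv_anti₀ h1 h2) (hg0 y)
  refine h1.trans ((le_abs_self _).trans (le_of_eq ?_))
  rw [abs_mul]
  have : |s| = 1 := by
    have h2 : |s| ^ 2 = 1 := by rw [sq_abs, hs]
    nlinarith [abs_nonneg s]
  rw [this, one_mul]

lemma kernel_upper {h : ℝ → ℝ} (hh0 : ∀ y, 0 ≤ h y) (hh : Integrable h) {x D : ℝ}
    (hD : 0 < D) (h1 : ∀ y, h y ≠ 0 → D ≤ |x - y|) :
    |∫ y, h y / (x - y)| ≤ (∫ y, h y) / D := by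
  have h2 : |∫ y, h y / (x - y)| ≤ ∫ y, h y * D⁻¹ := by
    rw [← Real.norm_eq_abs]
    refine norm_integral_le_of_norm_le (hh.mul_const D⁻¹) (Eventually.of_forall fun y => ?_)
    by_cases hy : h y = 0
    · simp [hy]
    · rw [norm_div, Real.norm_of_nonneg (hh0 y), Real.norm_eq_abs, div_eq_mul_inv]
      exact mul_le_mul_of_nonneg_left (inv_anti₀ hD (h1 y hy)) (hh0 y)
  rwa [integral_mul_const, ← div_eq_mul_inv] at h2

lemma integral_sub_mul_bump {f h : ℝ → ℝ} (hf : Integrable f) (hh : Integrable h)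
    (h1 : ∫ y, h y = 1) : ∫ y, (f y - (∫ z, f z) * h y) = 0 := by
  rw [integral_sub hf (hh.const_mul _), integral_const_mul, h1, mul_one, sub_self]

lemma integral_sub_kernel {f h : ℝ → ℝ} {x : ℝ} (hf : Integrable f) (hh : Integrable h) (c : ℝ)
    (hv : VanishNear f x) (hv' : VanishNear h x) :
    ∫ y, (f y - c * h y) / (x - y) = (∫ y, f y / (x - y)) - c * ∫ y, h y / (x - y) := by
  rw [← integral_const_mul, ← integral_sub (hv.integrable hf) ((hv'.integrable hh).const_mul _)]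
  refine integral_congr_ae (Eventually.of_forall fun y => ?_)
  simp only
  ring

/-- A bump `h` far from `J` and a function `g` next to `J`. -/
lemma far_bump (hp : 1 < p) (hU : Measurable U) (hU0 : ∀ x, 0 ≤ U x) (hoff : Off p U C)
    {g h : ℝ → ℝ} (hgm : Measurable g) (hg0 : ∀ y, 0 ≤ g y) (hg : Integrable g)
    (hh0 : ∀ y, 0 ≤ h y) (hh : Integrable h) (hh1 : ∫ y, h y = 1)
    {L s : ℝ} (hL : 0 < L) (hs : s ^ 2 = 1) {J : Set ℝ} (hJ : MeasurableSet J)
    (hv : ∀ x ∈ J, VanishNear g x)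
    (hgJ : ∀ x ∈ J, ∀ y, g y ≠ 0 → 0 < s * (x - y) ∧ s * (x - y) ≤ 2 * L)
    (hhJ : ∀ x ∈ J, ∀ y, h y ≠ 0 → 4 * L ≤ |x - y|) :
    (∫⁻ x in J, w U x) * ENNReal.ofReal (∫ y, g y) ^ p ≤
      ENNReal.ofReal ((4 * L) ^ p) * (ENNReal.ofReal C * (ENNReal.ofReal (2 ^ p) *
        (N p U g + ENNReal.ofReal ((∫ y, g y) ^ p) * N p U h))) := by
  set m := ∫ y, g y with hm
  have hm0 : 0 ≤ m := integral_nonneg hg0
  have hvh : ∀ x ∈ J, VanishNear h x := fun x hx => ⟨4 * L, by positivity, fun y hy => by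
    by_contra hne
    have := hhJ x hx y hne
    rw [abs_sub_comm] at this
    linarith⟩
  have h1 := hoff (fun y => g y - m * h y) (hg.sub (hh.const_mul _))
    (integral_sub_mul_bump hg hh hh1) J (fun x hx => (hv x hx).sub_mul (hvh x hx) m)
    (fun _ => m / (4 * L)) (fun x hx => ⟨by positivity, ?_⟩) hJ
  · have h2 := N_sub_le hp hU hU0 hgm (h := h) m
    rw [abs_of_nonneg hm0] at h2
    have h3 : ∫⁻ x in J, ENNReal.ofReal ((m / (4 * L)) ^ p * U x) =
        ENNReal.ofReal ((m / (4 * L)) ^ p) * ∫⁻ x in J, w U x := by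
      rw [← lintegral_const_mul' _ _ ENNReal.ofReal_ne_top]
      refine lintegral_congr fun x => ?_
      rw [ENNReal.ofReal_mul (by positivity)]; rfl
    rw [h3] at h1
    have h4 : ENNReal.ofReal m ^ p =
        ENNReal.ofReal ((4 * L) ^ p) * ENNReal.ofReal ((m / (4 * L)) ^ p) := by
      rw [← ENNReal.ofReal_mul (by positivity), ← Real.mul_rpow (by positivity) (by positivity),
        mul_div_cancel₀ _ (by positivity), ENNReal.ofReal_rpow_of_nonneg hm0 (by linarith)]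
    rw [h4, mul_comm, mul_assoc]
    refine mul_le_mul_right ?_ _
    refine h1.trans ?_
    exact mul_le_mul_right h2 _
  · rw [integral_sub_kernel hg hh m (hv x hx) (hvh x hx)]
    have h5 := kernel_lower hg0 hg hs (hv x hx) (hgJ x hx)
    have h6 := kernel_upper hh0 hh (by positivity : (0 : ℝ) < 4 * L) (hhJ x hx)
    rw [hh1] at h6
    rw [← hm] at h5
    have h7 : |m * ∫ y, h y / (x - y)| ≤ m * (1 / (4 * L)) := by
      rw [abs_mul, abs_of_nonneg hm0]; gcongr
    have h8 := abs_sub_abs_le_abs_sub (∫ y, g y / (x - y)) (m * ∫ y, h y / (x - y))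
    have h9 : m / (2 * L) = 2 * (m / (4 * L)) := by field_simp; ring
    have h10 : m * (1 / (4 * L)) = m / (4 * L) := by ring
    linarith

/-- passing to the limit in the size of the bump -/
lemma le_of_forall_bump {X K Y Z : ℝ≥0∞} (hK : K ≠ ∞) (hZ : Z ≠ ∞)
    (h : ∀ ε : ℝ≥0∞, 0 < ε → X ≤ K * (Y + Z * ε)) : X ≤ K * Y := by
  have h1 : Tendsto (fun ε : ℝ≥0∞ => K * (Y + Z * ε)) (𝓝[>] 0) (𝓝 (K * (Y + Z * 0))) := by
    have h2 : Tendsto (fun ε : ℝ≥0∞ => Y + Z * ε) (𝓝[>] 0) (𝓝 (Y + Z * 0)) :=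
      tendsto_const_nhds.add
        ((ENNReal.Tendsto.const_mul tendsto_id (Or.inr hZ)).mono_left nhdsWithin_le_nhds)
    exact ENNReal.Tendsto.const_mul h2 (Or.inr hK)
  rw [mul_zero, add_zero] at h1
  have : (𝓝[>] (0 : ℝ≥0∞)).NeBot := inferInstance
  exact ge_of_tendsto h1 (by filter_upwards [self_mem_nhdsWithin] with ε hε using h ε hε)

end Pool.Agent.H786R2.HW
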