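import Pool.Agent.H786R2.HWCasePt

set_option autoImplicit false

open MeasureTheory Set Filter Topology ENNReal

namespace Pool.Agent.H786R2.HW

variable {p : ℝ} {U : ℝ → ℝ} {C : ℝ}

/-- points at distance at least `1/(n+1)` from `a₀` -/
def Aw (a₀ : ℝ) (n : ℕ) : Set ℝ := {x | 1 / ((n : ℝ) + 1) ≤ |x - a₀|}

lemma measurableSet_Aw (a₀ : ℝ) (n : ℕ) : MeasurableSet (Aw a₀ n) :=
  measurableSet_le measurable_const (by fun_prop)

lemma tendsto_away {f : ℝ → ℝ≥0∞} (hf : Measurable f) {S : Set ℝ} (hS : MeasurableSet S) (a₀ : ℝ) :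
    Tendsto (fun n : ℕ => ∫⁻ x in S ∩ Aw a₀ n, f x) atTop (𝓝 (∫⁻ x in S, f x)) := by
  simp_rw [← lintegral_indicator (hS.inter (measurableSet_Aw a₀ _))]
  rw [← lintegral_indicator hS]
  refine lintegral_tendsto_of_tendsto_of_monotone
    (fun n => (hf.indicator (hS.inter (measurableSet_Aw a₀ n))).aemeasurable) ?_ ?_
  · refine Eventually.of_forall fun x m n hmn => ?_
    refine indicator_le_indicator_of_subset ?_ (fun _ => zero_le) x
    refine inter_subset_inter_right _ fun y (hy : 1 / ((m : ℝ) + 1) ≤ |y - a₀|) => ?_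
    refine le_trans ?_ hy
    exact one_div_le_one_div_of_le (by positivity) (by exact_mod_cast Nat.succ_le_succ hmn)
  · have : ∀ᵐ x : ℝ, x ≠ a₀ := by
      simp [ae_iff]
    filter_upwards [this] with x hx
    have h1 : ∀ᶠ n : ℕ in atTop, 1 / ((n : ℝ) + 1) < |x - a₀| :=
      (tendsto_order.mp tendsto_one_div_add_atTop_nhds_zero_nat).2 _
        (abs_pos.mpr (sub_ne_zero.mpr hx))
    refine tendsto_const_nhds.congr' ?_
    filter_upwards [h1] with n hn
    by_cases hxS : x ∈ S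
    · have h2 : x ∈ S ∩ Aw a₀ n := ⟨hxS, hn.le⟩
      rw [indicator_of_mem hxS, indicator_of_mem h2]
    · rw [indicator_of_notMem hxS, indicator_of_notMem (fun h => hxS h.1)]

lemma mul_lim {x y : ℕ → ℝ≥0∞} {X Y A : ℝ≥0∞} {q : ℝ} (hx : Tendsto x atTop (𝓝 X))
    (hy : Tendsto y atTop (𝓝 Y)) (hq : 0 < q) (h : ∀ n, x n * y n ^ q ≤ A) : X * Y ^ q ≤ A := by
  rcases eq_or_ne X 0 with h0 | h0
  · rw [h0, zero_mul]; exact zero_le
  rcases eq_or_ne Y 0 with h1 | h1
  · rw [h1, ENNReal.zero_rpow_of_pos hq, mul_zero]; exact zero_le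
  have h2 : Y ^ q ≠ 0 := by
    rw [Ne, ENNReal.rpow_eq_zero_iff]
    rintro (⟨h, -⟩ | ⟨-, h⟩)
    · exact h1 h
    · linarith
  exact le_of_tendsto' (ENNReal.Tendsto.mul hx (Or.inl h0)
    (((ENNReal.continuous_rpow_const).tendsto _).comp hy) (Or.inl h2)) h

/-- Case A1: the dual weight is not integrable near `a₀`. -/
lemma pair_point (hp : 1 < p) (hU : Measurable U) (hU0 : ∀ x, 0 ≤ U x) (hoff : Off p U C)
    {a₀ : ℝ} (hσ : ∀ r : ℝ, 0 < r → ∫⁻ x in {x : ℝ | |x - a₀| < r}, sg p U x = ∞) :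
    Pair p (V p U a₀) (KK p C 1) := by
  intro a b hab s hs
  set L := b - a with hL
  have hL0 : 0 < L := by rw [hL]; linarith
  have hp1 : 0 < p - 1 := by linarith
  have hV := V_measurable (p := p) hU a₀
  have hV0 := V_nonneg (p := p) hU0 a₀
  rw [← KK_eq p C hL0]
  refine mul_lim (tendsto_away (measurable_w hV) (measurableSet_J hs hab) a₀)
    (tendsto_away (measurable_sg hV) measurableSet_Icc a₀) hp1 fun n => ?_
  refine testing hp hV hV0 (measurableSet_Icc.inter (measurableSet_Aw a₀ n)) _ _ ?_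
  intro g hgm hg0 hgM hgoff hgR hg
  set r : ℝ := 1 / ((n : ℝ) + 1) with hr
  have hr0 : 0 < r := by positivity
  set m := ∫ y, g y with hm
  have hm0 : 0 ≤ m := integral_nonneg hg0
  rcases hm0.eq_or_lt with hm0' | hm0'
  · rw [← hm0', ENNReal.ofReal_zero, ENNReal.zero_rpow_of_pos (by linarith), mul_zero]
    exact zero_le
  set c := ∫ y, g y / (y - a₀) with hc
  set η : ℝ := min (r / 2) (m * r / (8 * L * (|c| + 1))) with hη
  have hη0 : 0 < η := by positivity
  have hη1 : η ≤ r / 2 := min_le_left _ _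
  have hη2 : η ≤ m * r / (8 * L * (|c| + 1)) := min_le_right _ _
  have hηL : |c| * (η / (r - η)) ≤ m / (4 * L) := by
    have h1 : η / (r - η) ≤ η / (r / 2) :=
      div_le_div_of_nonneg_left hη0.le (by positivity) (by linarith)
    have h2 : η / (r / 2) ≤ m / (4 * L * (|c| + 1)) := by
      rw [div_le_iff₀ (by positivity)]
      refine hη2.trans (le_of_eq ?_)
      field_simp
      ring
    calc |c| * (η / (r - η)) ≤ |c| * (m / (4 * L * (|c| + 1))) :=
          mul_le_mul_of_nonneg_left (h1.trans h2) (abs_nonneg _)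
      _ = (|c| / (|c| + 1)) * (m / (4 * L)) := by field_simp
      _ ≤ 1 * (m / (4 * L)) := by
          gcongr
          rw [div_le_one (by positivity)]; linarith
      _ = m / (4 * L) := one_mul _
  unfold KK
  have hassoc : ENNReal.ofReal ((4 * L) ^ p) * (ENNReal.ofReal C * ENNReal.ofReal (2 ^ p)) *
      N p (V p U a₀) g = ENNReal.ofReal ((4 * L) ^ p) * ENNReal.ofReal C *
      ENNReal.ofReal (2 ^ p) * N p (V p U a₀) g := by ring
  rw [hassoc]
  refine le_of_forall_bump (Z := ENNReal.ofReal (|c| ^ p))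
    (ENNReal.mul_ne_top (ENNReal.mul_ne_top ENNReal.ofReal_ne_top ENNReal.ofReal_ne_top)
      ENNReal.ofReal_ne_top) ENNReal.ofReal_ne_top ?_
  intro ε hε
  have hE : MeasurableSet {x : ℝ | |x - a₀| < η} := measurableSet_lt (by fun_prop) measurable_const
  obtain ⟨h, hhm, hh0, hhE, hhR, hh, hh1, hhN⟩ := exists_bump hp hU hU0 hE (hσ η hη0) hε
  have hgIcc : ∀ y, y ∉ Icc a b → g y = 0 := fun y hy => hgoff y (fun h => hy h.1)
  have h1 := near_bump hp hU hU0 hoff (a₀ := a₀) (r := r) (e := r) (η := η) hr0 hη0 (by linarith)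
    hgm hg0 hg (fun y hy => hgoff y (fun h => absurd h.2 (not_le.mpr hy))) hh0 hh hh1
    (fun y hy => by by_contra h; exact hy (hhE y h)) hL0 hs
    (J := HW.J s a b ∩ Aw a₀ n)
    ((measurableSet_J hs hab).inter (measurableSet_Aw a₀ n))
    (fun x hx => vanishNear_of_off hs hx.1 hgIcc)
    (fun x hx y hy => J_spec hs hx.1 (by by_contra h; exact hy (hgIcc y h)))
    (fun x hx => hx.2) hηL
  refine h1.trans ?_
  rw [← mul_assoc, ← mul_assoc]
  gcongr

/-- positivity from pair inequalities -/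
lemma Pair.pos (hp : 1 < p) {W : ℝ → ℝ} (hW : Measurable W) (hW0 : ∀ x, 0 ≤ W x) {A : ℝ≥0∞}
    (hA : A ≠ ∞) (h : Pair p W A) (hne : ¬ ∀ᵐ x, W x = 0) : ∀ᵐ x, 0 < W x := by
  have hp1 : 0 < p - 1 := by linarith
  have hσm := measurable_sg (p := p) hW
  have hwm := measurable_w hW
  have hZ : MeasurableSet {x | W x = 0} := measurableSet_eq_fun hW measurable_const
  -- key step
  have key : ∀ a b : ℝ, a < b → volume ({x | W x = 0} ∩ Icc a b) ≠ 0 → ∀ s : ℝ, s ^ 2 = 1 →
      volume ({x | W x ≠ 0} ∩ J s a b) = 0 := by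
    intro a b hab hv s hs
    have h1 := h a b hab s hs
    have h2 : ∫⁻ x in Icc a b, sg p W x = ∞ := by
      rw [eq_top_iff]
      calc (∞ : ℝ≥0∞) = ∫⁻ x in {x | W x = 0} ∩ Icc a b, ∞ := by
            rw [setLIntegral_const, ENNReal.top_mul hv]
        _ = ∫⁻ x in {x | W x = 0} ∩ Icc a b, sg p W x := by
            refine setLIntegral_congr_fun (hZ.inter measurableSet_Icc) fun x hx => ?_
            have : W x = 0 := hx.1
            simp only [sg, w, this, ENNReal.ofReal_zero]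
            rw [ENNReal.zero_rpow_of_neg]
            have : 0 < 1 / (p - 1) := by positivity
            linarith
        _ ≤ _ := lintegral_mono_set inter_subset_right
    rw [h2, ENNReal.top_rpow_of_pos hp1] at h1
    have h3 : ∫⁻ x in J s a b, w W x = 0 := by
      by_contra h0
      rw [ENNReal.mul_top h0] at h1
      exact absurd (top_le_iff.mp h1) (ENNReal.mul_ne_top hA ENNReal.ofReal_ne_top)
    rw [lintegral_eq_zero_iff hwm] at h3
    have h4 := (ae_restrict_iff' (measurableSet_J hs hab)).mp h3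
    rw [ae_iff] at h4
    refine measure_mono_null (fun x hx => ?_) h4
    simp only [mem_ofPred_eq, Pi.zero_apply, Classical.not_imp]
    refine ⟨hx.2, fun h0 => hx.1 ?_⟩
    exact le_antisymm (ENNReal.ofReal_eq_zero.mp h0) (hW0 x)
  by_contra hpos
  have hZ0 : volume {x | W x = 0} ≠ 0 := by
    intro h0
    apply hpos
    rw [ae_iff]
    refine measure_mono_null (fun x hx => ?_) h0
    exact le_antisymm (not_lt.mp hx) (hW0 x)
  -- a bounded piece
  obtain ⟨n, hn⟩ : ∃ n : ℕ, volume ({x | W x = 0} ∩ Icc (-(n : ℝ)) n) ≠ 0 := by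
    by_contra hcon
    push Not at hcon
    apply hZ0
    have : {x | W x = 0} ⊆ ⋃ n : ℕ, ({x | W x = 0} ∩ Icc (-(n : ℝ)) n) := by
      intro x hx
      obtain ⟨n, hn⟩ := exists_nat_ge |x|
      exact mem_iUnion.mpr ⟨n, hx, abs_le.mp hn⟩
    exact measure_mono_null this (measure_iUnion_null hcon)
  -- all larger intervals
  have hbig : ∀ m : ℝ, (n : ℝ) ≤ m → volume ({x | W x = 0} ∩ Icc (-m) m) ≠ 0 := by
    intro m hm h0
    exact hn (measure_mono_null (inter_subset_inter_right _ (Icc_subset_Icc (by linarith) hm)) h0)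
  have hout : volume ({x | W x ≠ 0} ∩ {x | (n : ℝ) + 1 < |x|}) = 0 := by
    have hsub : {x | W x ≠ 0} ∩ {x : ℝ | (n : ℝ) + 1 < |x|} ⊆
        ⋃ k : ℕ, (({x | W x ≠ 0} ∩ J 1 (-((n : ℝ) + 1 + k)) ((n : ℝ) + 1 + k)) ∪
          ({x | W x ≠ 0} ∩ J (-1) (-((n : ℝ) + 1 + k)) ((n : ℝ) + 1 + k))) := by
      rintro x ⟨hx, hx'⟩
      have hx2 : (n : ℝ) + 1 < |x| := hx'
      -- choose k with n+1+k < |x| ≤ n+2+k
      have h0 : (0 : ℝ) < |x| - (n + 1) := by linarith
      obtain ⟨k, hk1, hk2⟩ : ∃ k : ℕ, (k : ℝ) < |x| - (n + 1) ∧ |x| - (n + 1) ≤ k + 1 := by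
        refine ⟨⌈|x| - (n + 1)⌉₊ - 1, ?_, ?_⟩
        · have h1 : 1 ≤ ⌈|x| - ((n : ℝ) + 1)⌉₊ := Nat.one_le_ceil_iff.mpr h0
          rw [Nat.cast_sub h1]
          have := Nat.ceil_lt_add_one h0.le
          push_cast; linarith
        · have h1 : 1 ≤ ⌈|x| - ((n : ℝ) + 1)⌉₊ := Nat.one_le_ceil_iff.mpr h0
          rw [Nat.cast_sub h1]
          have := Nat.le_ceil (|x| - ((n : ℝ) + 1))
          push_cast; linarith
      have hM : (0 : ℝ) < (n : ℝ) + 1 + k := by positivity
      refine mem_iUnion.mpr ⟨k, ?_⟩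
      rw [J_one (by linarith), J_neg_one (by linarith)]
      rcases abs_cases x with ⟨h1, h2⟩ | ⟨h1, h2⟩
      · left; refine ⟨hx, ?_, ?_⟩ <;> linarith
      · right; refine ⟨hx, ?_, ?_⟩ <;> linarith
    refine measure_mono_null hsub (measure_iUnion_null fun k => measure_union_null ?_ ?_)
    · exact key _ _ (by have : (0 : ℝ) < (n : ℝ) + 1 + k := by positivity
                        linarith) (hbig _ (by linarith [(Nat.cast_nonneg k : (0 : ℝ) ≤ k)])) 1 (by norm_num)
    · exact key _ _ (by have : (0 : ℝ) < (n : ℝ) + 1 + k := by positivity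
                        linarith) (hbig _ (by linarith [(Nat.cast_nonneg k : (0 : ℝ) ≤ k)])) (-1) (by norm_num)
  -- the inner part
  have hin : volume ({x | W x ≠ 0} ∩ J (-1) ((n : ℝ) + 2) (3 * n + 6)) = 0 := by
    refine key _ _ (by have : (0 : ℝ) ≤ n := by positivity
                       linarith) ?_ (-1) (by norm_num)
    intro h0
    have h1 : volume (Icc ((n : ℝ) + 2) (3 * n + 6)) ≤
        volume ({x | W x = 0} ∩ Icc ((n : ℝ) + 2) (3 * n + 6)) +
        volume ({x | W x ≠ 0} ∩ {x | (n : ℝ) + 1 < |x|}) := by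
      refine le_trans (measure_mono fun x hx => ?_) (measure_union_le _ _)
      by_cases hx0 : W x = 0
      · left; exact ⟨hx0, hx⟩
      · right; refine ⟨hx0, ?_⟩
        have := le_abs_self x
        have h2 := hx.1
        show (n : ℝ) + 1 < |x|
        linarith
    rw [h0, hout, add_zero, Real.volume_Icc] at h1
    have h2 : 0 < ENNReal.ofReal (3 * (n : ℝ) + 6 - (n + 2)) := by
      rw [ENNReal.ofReal_pos]; have : (0 : ℝ) ≤ n := by positivity
      linarith
    exact absurd h1 (not_le.mpr h2)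
  apply hne
  rw [ae_iff]
  refine measure_mono_null (t := ({x | W x ≠ 0} ∩ {x | (n : ℝ) + 1 < |x|}) ∪
    ({x | W x ≠ 0} ∩ J (-1) ((n : ℝ) + 2) (3 * n + 6))) (fun x hx => ?_)
    (measure_union_null hout hin)
  have hx' : W x ≠ 0 := hx
  by_cases h1 : (n : ℝ) + 1 < |x|
  · left; exact ⟨hx', h1⟩
  · right
    refine ⟨hx', ?_⟩
    rw [J_neg_one (by have : (0 : ℝ) ≤ n := by positivity
                      linarith)]
    have h2 := abs_le.mp (not_lt.mp h1)
    constructor <;> linarith [h2.1, h2.2]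

end Pool.Agent.H786R2.HW
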