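import Pool.Agent.H786R2.HWBasic

set_option autoImplicit false

open MeasureTheory Set Filter Topology ENNReal

namespace Pool.Agent.H786R2.HW

lemma measurable_w {U : ℝ → ℝ} (hU : Measurable U) : Measurable (w U) := hU.ennreal_ofReal

lemma measurable_sg {p : ℝ} {U : ℝ → ℝ} (hU : Measurable U) : Measurable (sg p U) :=
  (measurable_w hU).pow_const _

/-- truncations of the dual weight -/
noncomputable def tr (p : ℝ) (U : ℝ → ℝ) (I : Set ℝ) (n : ℕ) (x : ℝ) : ℝ :=
  (I ∩ Icc (-(n : ℝ)) n).indicator (fun x => (min (sg p U x) n).toReal) x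

variable {p : ℝ} {U : ℝ → ℝ} {I : Set ℝ}

lemma tr_measurable (hU : Measurable U) (hI : MeasurableSet I) (n : ℕ) :
    Measurable (tr p U I n) :=
  (((measurable_sg hU).min measurable_const).ennreal_toReal).indicator (hI.inter measurableSet_Icc)

lemma tr_nonneg (n : ℕ) (x : ℝ) : 0 ≤ tr p U I n x :=
  indicator_nonneg (fun _ _ => ENNReal.toReal_nonneg) _

lemma tr_le (n : ℕ) (x : ℝ) : tr p U I n x ≤ n := by
  unfold tr
  by_cases h : x ∈ I ∩ Icc (-(n : ℝ)) n
  · rw [indicator_of_mem h]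
    calc (min (sg p U x) n).toReal ≤ ((n : ℝ≥0∞)).toReal :=
          ENNReal.toReal_mono (by simp) (min_le_right _ _)
      _ = n := by simp
  · rw [indicator_of_notMem h]; positivity

lemma tr_off {n : ℕ} {x : ℝ} (h : x ∉ I) : tr p U I n x = 0 :=
  indicator_of_notMem (fun h' => h h'.1) _

lemma tr_off' {n : ℕ} {x : ℝ} (h : (n : ℝ) < |x|) : tr p U I n x = 0 := by
  refine indicator_of_notMem (fun h' => ?_) _
  have := abs_le.mpr h'.2
  linarith

lemma ofReal_tr (n : ℕ) (x : ℝ) : ENNReal.ofReal (tr p U I n x) =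
    (I ∩ Icc (-(n : ℝ)) n).indicator (fun x => min (sg p U x) n) x := by
  unfold tr
  by_cases h : x ∈ I ∩ Icc (-(n : ℝ)) n
  · rw [indicator_of_mem h, indicator_of_mem h, ENNReal.ofReal_toReal]
    exact ne_of_lt (lt_of_le_of_lt (min_le_right _ _) (by simp))
  · rw [indicator_of_notMem h, indicator_of_notMem h, ENNReal.ofReal_zero]

lemma tr_integrable (hU : Measurable U) (hI : MeasurableSet I) (n : ℕ) :
    Integrable (tr p U I n) := by
  have : Integrable (indicator (Icc (-(n : ℝ)) n) (fun _ => (n : ℝ))) :=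
    (integrable_indicator_iff measurableSet_Icc).mpr
      (integrableOn_const (by simp))
  refine this.mono' (tr_measurable hU hI n).aestronglyMeasurable (Eventually.of_forall fun x => ?_)
  rw [Real.norm_of_nonneg (tr_nonneg n x)]
  by_cases h : x ∈ Icc (-(n : ℝ)) n
  · rw [indicator_of_mem h]; exact tr_le n x
  · rw [indicator_of_notMem h]
    unfold tr
    rw [indicator_of_notMem (fun h' => h h'.2)]

lemma ofReal_integral_tr (hU : Measurable U) (hI : MeasurableSet I) (n : ℕ) :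
    ENNReal.ofReal (∫ x, tr p U I n x) = ∫⁻ x, ENNReal.ofReal (tr p U I n x) :=
  ofReal_integral_eq_lintegral_ofReal (tr_integrable hU hI n)
    (Eventually.of_forall fun x => tr_nonneg n x)

lemma tendsto_tr (hU : Measurable U) (hI : MeasurableSet I) :
    Tendsto (fun n : ℕ => ENNReal.ofReal (∫ x, tr p U I n x)) atTop
      (𝓝 (∫⁻ x in I, sg p U x)) := by
  simp_rw [ofReal_integral_tr hU hI]
  rw [← lintegral_indicator hI]
  refine lintegral_tendsto_of_tendsto_of_monotone (fun n => ?_) ?_ ?_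
  · exact (tr_measurable hU hI n).ennreal_ofReal.aemeasurable
  · refine Eventually.of_forall fun x m n hmn => ?_
    simp only [ofReal_tr]
    have h1 : (m : ℝ) ≤ n := by exact_mod_cast hmn
    have h2 : (m : ℝ≥0∞) ≤ n := by exact_mod_cast hmn
    by_cases h : x ∈ I ∩ Icc (-(m : ℝ)) m
    · have h' : x ∈ I ∩ Icc (-(n : ℝ)) n :=
        ⟨h.1, ⟨by linarith [h.2.1], by linarith [h.2.2]⟩⟩
      rw [indicator_of_mem h, indicator_of_mem h']
      exact min_le_min_left _ h2
    · rw [indicator_of_notMem h]; exact zero_le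
  · refine Eventually.of_forall fun x => ?_
    simp only [ofReal_tr]
    by_cases h : x ∈ I
    · rw [indicator_of_mem h]
      have h1 : ∀ᶠ n : ℕ in atTop, (I ∩ Icc (-(n : ℝ)) n).indicator
          (fun x => min (sg p U x) n) x = min (sg p U x) n := by
        filter_upwards [eventually_ge_atTop (Nat.ceil |x|)] with n hn
        have h2 : |x| ≤ n := (Nat.le_ceil _).trans (by exact_mod_cast hn)
        rw [indicator_of_mem]
        exact ⟨h, abs_le.mp h2⟩
      refine Tendsto.congr' (h1.mono fun n hn => hn.symm) ?_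
      have h3 : Tendsto (fun n : ℕ => min (sg p U x) (n : ℝ≥0∞)) atTop
          (𝓝 (min (sg p U x) ∞)) := tendsto_const_nhds.min ENNReal.tendsto_nat_nhds_top
      simpa using h3
    · rw [indicator_of_notMem h]
      refine tendsto_const_nhds.congr fun n => ?_
      rw [indicator_of_notMem (fun h' => h h'.1)]

/-- the key pointwise bound `t^p U ≤ t` for `t ≤ U^{-1/(p-1)}` -/
lemma pointwise_bound (hp : 1 < p) {t u : ℝ} (ht : 0 ≤ t) (hu : 0 ≤ u)
    (h : ENNReal.ofReal t ≤ (ENNReal.ofReal u) ^ (-(1 / (p - 1)))) : t ^ p * u ≤ t := by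
  rcases hu.eq_or_lt with hu | hu
  · rw [← hu, mul_zero]; exact ht
  rcases ht.eq_or_lt with ht | ht
  · rw [← ht, Real.zero_rpow (by linarith), zero_mul]
  have hp1 : 0 < p - 1 := by linarith
  rw [ENNReal.ofReal_rpow_of_pos hu, ENNReal.ofReal_le_ofReal_iff (by positivity)] at h
  have h1 : t ^ (p - 1) ≤ u⁻¹ := by
    calc t ^ (p - 1) ≤ (u ^ (-(1 / (p - 1)))) ^ (p - 1) :=
          Real.rpow_le_rpow ht.le h hp1.le
      _ = u⁻¹ := by
          rw [← Real.rpow_mul hu.le, neg_mul, one_div_mul_cancel hp1.ne', Real.rpow_neg_one]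
  calc t ^ p * u = t * (t ^ (p - 1) * u) := by
        rw [← mul_assoc, ← Real.rpow_one_add' ht.le (by linarith)]
        congr 2; ring
    _ ≤ t * (u⁻¹ * u) := by gcongr
    _ = t := by rw [inv_mul_cancel₀ hu.ne', mul_one]

lemma N_tr_le (hp : 1 < p) (hU0 : ∀ x, 0 ≤ U x) (n : ℕ) :
    N p U (tr p U I n) ≤ ∫⁻ x, ENNReal.ofReal (tr p U I n x) := by
  refine lintegral_mono fun x => ENNReal.ofReal_le_ofReal ?_
  rw [abs_of_nonneg (tr_nonneg n x)]
  refine pointwise_bound hp (tr_nonneg n x) (hU0 x) ?_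
  rw [ofReal_tr]
  by_cases h : x ∈ I ∩ Icc (-(n : ℝ)) n
  · rw [indicator_of_mem h]; exact min_le_left _ _
  · rw [indicator_of_notMem h]; exact zero_le

/-- Testing on truncations of the dual weight. -/
lemma testing (hp : 1 < p) (hU : Measurable U) (hU0 : ∀ x, 0 ≤ U x) (hI : MeasurableSet I)
    (κ A : ℝ≥0∞)
    (H : ∀ g : ℝ → ℝ, Measurable g → (∀ x, 0 ≤ g x) → (∃ M, ∀ x, g x ≤ M) →
      (∀ x, x ∉ I → g x = 0) → (∃ R : ℝ, ∀ x, R < |x| → g x = 0) → Integrable g →
      κ * (ENNReal.ofReal (∫ x, g x)) ^ p ≤ A * N p U g) :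
    κ * (∫⁻ x in I, sg p U x) ^ (p - 1) ≤ A := by
  have hp1 : 0 < p - 1 := by linarith
  have hn : ∀ n : ℕ, κ * (ENNReal.ofReal (∫ x, tr p U I n x)) ^ (p - 1) ≤ A := by
    intro n
    have h1 := H (tr p U I n) (tr_measurable hU hI n) (tr_nonneg n) ⟨n, tr_le n⟩
      (fun x hx => tr_off hx) ⟨n, fun x hx => tr_off' hx⟩ (tr_integrable hU hI n)
    have h2 := h1.trans (mul_le_mul_right (N_tr_le (I := I) hp hU0 n) A)
    rw [← ofReal_integral_tr hU hI] at h2
    set m := ENNReal.ofReal (∫ x, tr p U I n x) with hm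
    rcases eq_or_ne m 0 with h0 | h0
    · rw [h0, ENNReal.zero_rpow_of_pos hp1, mul_zero]; exact zero_le
    have hmt : m ≠ ∞ := ENNReal.ofReal_ne_top
    have h3 : m ^ p = m ^ (p - 1) * m := by
      conv_rhs => rw [← ENNReal.rpow_one m, ← ENNReal.rpow_mul, one_mul]
      rw [← ENNReal.rpow_add _ _ h0 hmt]; congr 1; ring
    rw [h3, ← mul_assoc] at h2
    exact (ENNReal.mul_le_mul_iff_left h0 hmt).mp h2
  rcases eq_or_ne (∫⁻ x in I, sg p U x) 0 with h0 | h0
  · rw [h0, ENNReal.zero_rpow_of_pos hp1, mul_zero]; exact zero_le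
  have h4 : Tendsto (fun n : ℕ => κ * (ENNReal.ofReal (∫ x, tr p U I n x)) ^ (p - 1)) atTop
      (𝓝 (κ * (∫⁻ x in I, sg p U x) ^ (p - 1))) := by
    refine ENNReal.Tendsto.const_mul (((ENNReal.continuous_rpow_const).tendsto _).comp
      (tendsto_tr hU hI)) (Or.inl ?_)
    rw [Ne, ENNReal.rpow_eq_zero_iff]
    rintro (⟨h, -⟩ | ⟨-, h⟩)
    · exact h0 h
    · linarith
  exact le_of_tendsto' h4 hn

/-- Bumps of small norm where the dual weight is not integrable. -/
lemma exists_bump (hp : 1 < p) (hU : Measurable U) (hU0 : ∀ x, 0 ≤ U x) (hI : MeasurableSet I)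
    (hσ : ∫⁻ x in I, sg p U x = ∞) {ε : ℝ≥0∞} (hε : 0 < ε) :
    ∃ h : ℝ → ℝ, Measurable h ∧ (∀ x, 0 ≤ h x) ∧ (∀ x, x ∉ I → h x = 0) ∧
      (∃ R : ℝ, ∀ x, R < |x| → h x = 0) ∧ Integrable h ∧ ∫ x, h x = 1 ∧ N p U h ≤ ε := by
  have hp1 : 0 < p - 1 := by linarith
  have h1 := tendsto_tr (p := p) hU hI
  rw [hσ] at h1
  have h2 : Tendsto (fun n : ℕ => (ENNReal.ofReal (∫ x, tr p U I n x)) ^ (1 - p)) atTop
      (𝓝 0) := by
    have := ((ENNReal.continuous_rpow_const (y := 1 - p)).tendsto ∞).comp h1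
    rwa [ENNReal.top_rpow_of_neg (by linarith)] at this
  have h3 : ∀ᶠ n : ℕ in atTop, (ENNReal.ofReal (∫ x, tr p U I n x)) ^ (1 - p) < ε :=
    (tendsto_order.mp h2).2 ε hε
  have h4 : ∀ᶠ n : ℕ in atTop, 0 < ENNReal.ofReal (∫ x, tr p U I n x) :=
    (tendsto_order.mp h1).1 0 (by simp)
  obtain ⟨n, hn3, hn4⟩ := (h3.and h4).exists
  set m := ∫ x, tr p U I n x with hm
  have hm0 : 0 < m := ENNReal.ofReal_pos.mp hn4
  refine ⟨fun x => m⁻¹ * tr p U I n x, (tr_measurable hU hI n).const_mul _,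
    fun x => mul_nonneg (by positivity) (tr_nonneg n x), fun x hx => by simp only [tr_off hx, mul_zero],
    ⟨n, fun x hx => by simp only [tr_off' hx, mul_zero]⟩, (tr_integrable hU hI n).const_mul _, ?_, ?_⟩
  · rw [integral_const_mul, ← hm, inv_mul_cancel₀ hm0.ne']
  · have h5 : N p U (fun x => m⁻¹ * tr p U I n x) =
        ENNReal.ofReal (m⁻¹ ^ p) * N p U (tr p U I n) := by
      unfold N
      rw [← lintegral_const_mul' _ _ ENNReal.ofReal_ne_top]
      refine lintegral_congr fun x => ?_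
      rw [← ENNReal.ofReal_mul (by positivity), abs_mul, Real.mul_rpow (abs_nonneg _) (abs_nonneg _),
        abs_of_pos (by positivity : 0 < m⁻¹), mul_assoc]
    rw [h5]
    refine le_trans ?_ hn3.le
    have h6 := N_tr_le (I := I) hp hU0 n
    rw [← ofReal_integral_tr hU hI, ← hm] at h6
    refine (mul_le_mul_right h6 _).trans ?_
    rw [← ENNReal.ofReal_mul (by positivity), ENNReal.ofReal_rpow_of_pos hm0]
    apply ENNReal.ofReal_le_ofReal
    rw [Real.inv_rpow hm0.le, ← Real.rpow_neg hm0.le]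
    nth_rewrite 2 [← Real.rpow_one m]
    rw [← Real.rpow_add hm0]
    exact le_of_eq (by congr 1; ring)

end Pool.Agent.H786R2.HW
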