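import Pool.Agent.H786R2.TorusMap

/-!
Every invariant probability measure of the torus map is supported on the eight fixed points.
-/

open Filter Topology Manifold Set MeasureTheory
open scoped ContDiff NNReal

namespace Pool.Agent.H786R2.Torus

noncomputable section

attribute [local instance] finrank_real_complex_fact'

/-- the ratio `sin (x + t sin x) / sin x` -/
def R (t x : ℝ) : ℝ := Real.cos (t * Real.sin x) + Real.cos x * t * Real.sinc (t * Real.sin x)

lemma sin_eq_mul_sinc (u : ℝ) : Real.sin u = u * Real.sinc u := by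
  by_cases h : u = 0
  · simp [h]
  · rw [Real.sinc_of_ne_zero h]
    field_simp

lemma sin_step (t x : ℝ) : Real.sin (x + t * Real.sin x) = Real.sin x * R t x := by
  unfold R
  rw [Real.sin_add, sin_eq_mul_sinc (t * Real.sin x)]
  ring

lemma sinc_ge {u : ℝ} (hu : |u| ≤ 1) : 1 - u ^ 2 / 4 ≤ Real.sinc u := by
  have key : ∀ v : ℝ, 0 < v → v ≤ 1 → 1 - v ^ 2 / 4 ≤ Real.sinc v := by
    intro v h0 h1
    rw [Real.sinc_of_ne_zero h0.ne', le_div_iff₀ h0]
    have := Real.sin_gt_sub_cube h0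
    nlinarith [pow_pos h0 3]
  rcases lt_trichotomy u 0 with h | h | h
  · have := key (-u) (by linarith) (by rw [abs_of_neg h] at hu; exact hu)
    rw [Real.sinc_neg] at this
    nlinarith
  · simp [h]
  · exact key u h (by rw [abs_of_pos h] at hu; exact hu)

lemma abs_u_le {t x : ℝ} (ht : |t| ≤ 1 / 2) : |t * Real.sin x| ≤ 1 / 2 := by
  rw [abs_mul]
  have := Real.abs_sin_le_one x
  have := abs_nonneg t
  nlinarith [abs_nonneg (Real.sin x)]

lemma abs_c_le {t x : ℝ} (ht : |t| ≤ 1 / 2) : |Real.cos x * t| ≤ 1 / 2 := by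
  rw [abs_mul]
  have := Real.abs_cos_le_one x
  have := abs_nonneg t
  nlinarith [abs_nonneg (Real.cos x)]

lemma R_le {t x : ℝ} (ht : |t| ≤ 1 / 2) : R t x ≤ 1 + Real.cos x * t := by
  unfold R
  set u := t * Real.sin x with hu
  set c := Real.cos x * t with hc
  have hu1 : |u| ≤ 1 / 2 := abs_u_le ht
  have hc1 : |c| ≤ 1 / 2 := abs_c_le ht
  have hu2 : u ^ 2 ≤ 1 / 4 := by
    have := sq_abs u
    have := abs_nonneg u
    nlinarith
  rcases le_total 0 c with h | h
  · have h1 := Real.cos_le_one u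
    have h2 := Real.sinc_le_one u
    nlinarith
  · have h1 := sinc_ge (u := u) (by linarith)
    have h2 := Real.cos_bound (x := u) (by linarith)
    have h3 := (abs_le.1 h2).2
    have h4 : |u| ^ 4 = u ^ 2 * u ^ 2 := by
      rw [show |u| ^ 4 = (|u| ^ 2) * (|u| ^ 2) by ring, sq_abs]
    rw [h4] at h3
    have h5 : -c ≤ 1 / 2 := by
      have := neg_le_abs c
      linarith
    have h6 : c * Real.sinc u ≤ c * (1 - u ^ 2 / 4) := mul_le_mul_of_nonpos_left h1 h
    have h7 : 0 ≤ u ^ 2 := sq_nonneg u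
    nlinarith [mul_nonneg h7 h7, mul_nonneg h7 (by linarith : (0:ℝ) ≤ 1/4 - u^2),
      mul_nonneg h7 (by linarith : (0:ℝ) ≤ 1/2 + c), mul_nonneg h7 (by linarith : 0 ≤ -c)]

lemma R_pos {t x : ℝ} (ht : |t| ≤ 1 / 2) : 0 < R t x := by
  unfold R
  set u := t * Real.sin x with hu
  set c := Real.cos x * t with hc
  have hu1 : |u| ≤ 1 / 2 := abs_u_le ht
  have hc1 : |c| ≤ 1 / 2 := abs_c_le ht
  have h1 := Real.one_sub_sq_div_two_le_cos (x := u)
  have hu2 : u ^ 2 ≤ 1 / 4 := by
    have := sq_abs u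
    have := abs_nonneg u
    nlinarith
  have h2 := Real.abs_sinc_le_one u
  have h3 : |c * Real.sinc u| ≤ 1 / 2 := by
    rw [abs_mul]
    nlinarith [abs_nonneg c, abs_nonneg (Real.sinc u)]
  have h4 := (abs_le.1 h3).1
  linarith

lemma R_strict {t x : ℝ} (ht : |t| ≤ 1 / 2) (hx : Real.sin x ≠ 0)
    (hc : Real.cos x * t = 0) (hR : 1 ≤ R t x) : t = 0 := by
  by_contra hne
  unfold R at hR
  rw [hc, zero_mul, add_zero] at hR
  have hu1 : |t * Real.sin x| ≤ 1 / 2 := abs_u_le ht
  have hu0 : t * Real.sin x ≠ 0 := mul_ne_zero hne hx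
  have h2 := Real.cos_bound (x := t * Real.sin x) (by linarith)
  have h3 := (abs_le.1 h2).2
  have h4 : |t * Real.sin x| ^ 4 = (t * Real.sin x) ^ 2 * (t * Real.sin x) ^ 2 := by
    rw [show |t * Real.sin x| ^ 4 = (|t * Real.sin x| ^ 2) * (|t * Real.sin x| ^ 2) by ring,
      sq_abs]
  rw [h4] at h3
  have h5 : 0 < (t * Real.sin x) ^ 2 := by positivity
  have hu2 : (t * Real.sin x) ^ 2 ≤ 1 / 4 := by
    have := sq_abs (t * Real.sin x)
    have := abs_nonneg (t * Real.sin x)
    nlinarith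
  nlinarith

lemma F_fst (x y : ℝ) : (F (x, y)).1 = x + (Real.cos y / 2) * Real.sin x := by
  unfold F V; simp; ring

lemma F_snd (x y : ℝ) : (F (x, y)).2 = y + (-(Real.cos x) / 2) * Real.sin y := by
  unfold F V; simp; ring

lemma abs_half (y : ℝ) : |Real.cos y / 2| ≤ 1 / 2 := by
  rw [abs_div, abs_of_pos (by norm_num : (0:ℝ) < 2)]
  have := Real.abs_cos_le_one y
  linarith

lemma abs_half' (y : ℝ) : |-(Real.cos y) / 2| ≤ 1 / 2 := by
  rw [abs_div, abs_neg, abs_of_pos (by norm_num : (0:ℝ) < 2)]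
  have := Real.abs_cos_le_one y
  linarith

lemma sin_fst (x y : ℝ) : Real.sin (F (x, y)).1 = Real.sin x * R (Real.cos y / 2) x := by
  rw [F_fst, sin_step]

lemma sin_snd (x y : ℝ) : Real.sin (F (x, y)).2 = Real.sin y * R (-(Real.cos x) / 2) y := by
  rw [F_snd, sin_step]

lemma prod_le (x y : ℝ) : R (Real.cos y / 2) x * R (-(Real.cos x) / 2) y ≤
    1 - (Real.cos x * Real.cos y / 2) ^ 2 := by
  have h1 := R_le (x := x) (abs_half y)
  have h2 := R_le (x := y) (abs_half' x)
  have h3 := (R_pos (x := x) (abs_half y)).le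
  have h4 := (R_pos (x := y) (abs_half' x)).le
  calc R (Real.cos y / 2) x * R (-(Real.cos x) / 2) y
      ≤ (1 + Real.cos x * (Real.cos y / 2)) * (1 + Real.cos y * (-(Real.cos x) / 2)) :=
        mul_le_mul h1 h2 h4 (h3.trans h1)
    _ = _ := by ring

lemma W_le (x y : ℝ) : |Real.sin (F (x, y)).1 * Real.sin (F (x, y)).2| ≤
    |Real.sin x * Real.sin y| := by
  rw [sin_fst, sin_snd]
  have h3 := (R_pos (x := x) (abs_half y)).le
  have h4 := (R_pos (x := y) (abs_half' x)).le
  have h5 := prod_le x y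
  rw [show Real.sin x * R (Real.cos y / 2) x * (Real.sin y * R (-(Real.cos x) / 2) y) =
    (Real.sin x * Real.sin y) * (R (Real.cos y / 2) x * R (-(Real.cos x) / 2) y) by ring,
    abs_mul, abs_of_nonneg (mul_nonneg h3 h4)]
  have h6 : R (Real.cos y / 2) x * R (-(Real.cos x) / 2) y ≤ 1 := by nlinarith
  exact mul_le_of_le_one_right (abs_nonneg _) h6

lemma W_eq {x y : ℝ} (h : |Real.sin (F (x, y)).1 * Real.sin (F (x, y)).2| =
    |Real.sin x * Real.sin y|) :
    Real.sin x = 0 ∨ Real.sin y = 0 ∨ (Real.cos x = 0 ∧ Real.cos y = 0) := by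
  by_cases hx : Real.sin x = 0
  · exact Or.inl hx
  by_cases hy : Real.sin y = 0
  · exact Or.inr (Or.inl hy)
  right; right
  rw [sin_fst, sin_snd] at h
  have h3 := (R_pos (x := x) (abs_half y)).le
  have h4 := (R_pos (x := y) (abs_half' x)).le
  have h5 := prod_le x y
  rw [show Real.sin x * R (Real.cos y / 2) x * (Real.sin y * R (-(Real.cos x) / 2) y) =
    (Real.sin x * Real.sin y) * (R (Real.cos y / 2) x * R (-(Real.cos x) / 2) y) by ring,
    abs_mul, abs_of_nonneg (mul_nonneg h3 h4)] at h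
  have h6 : 0 < |Real.sin x * Real.sin y| := abs_pos.2 (mul_ne_zero hx hy)
  have h7 : R (Real.cos y / 2) x * R (-(Real.cos x) / 2) y = 1 := by
    have : |Real.sin x * Real.sin y| * (R (Real.cos y / 2) x * R (-(Real.cos x) / 2) y) =
      |Real.sin x * Real.sin y| * 1 := by rw [h, mul_one]
    exact mul_left_cancel₀ h6.ne' this
  have h8 : Real.cos x * Real.cos y / 2 = 0 := by
    have : (Real.cos x * Real.cos y / 2) ^ 2 ≤ 0 := by linarith
    exact pow_eq_zero_iff (two_ne_zero) |>.1 (le_antisymm this (sq_nonneg _))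
  have r1 := R_le (x := x) (abs_half y)
  have r2 := R_le (x := y) (abs_half' x)
  have e1 : Real.cos x * (Real.cos y / 2) = 0 := by linarith
  have e2 : Real.cos y * (-(Real.cos x) / 2) = 0 := by linarith
  rw [e1, add_zero] at r1
  rw [e2, add_zero] at r2
  have q1 : 1 ≤ R (Real.cos y / 2) x := by nlinarith
  have q2 : 1 ≤ R (-(Real.cos x) / 2) y := by nlinarith
  have z1 := R_strict (abs_half y) hx e1 q1
  have z2 := R_strict (abs_half' x) hy e2 q2
  constructor <;> linarith

lemma mul_sin_quarter_nonneg (s : ℝ) (hs : |s| ≤ 1) : 0 ≤ s * Real.sin (s / 4) := by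
  rw [sin_eq_mul_sinc]
  have h := sinc_ge (u := s / 4) (by rw [abs_div]; norm_num; linarith)
  have h1 : s ^ 2 ≤ 1 := by
    have := sq_abs s; have := abs_nonneg s; nlinarith
  have h2 : 0 ≤ Real.sinc (s / 4) := by nlinarith
  have : s * (s / 4 * Real.sinc (s / 4)) = s ^ 2 / 4 * Real.sinc (s / 4) := by ring
  rw [this]
  positivity

lemma mul_sin_quarter_pos {s : ℝ} (hs : |s| ≤ 1) (h0 : s ≠ 0) : 0 < s * Real.sin (s / 4) := by
  rw [sin_eq_mul_sinc]
  have h := sinc_ge (u := s / 4) (by rw [abs_div]; norm_num; linarith)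
  have h1 : s ^ 2 ≤ 1 := by
    have := sq_abs s; have := abs_nonneg s; nlinarith
  have h2 : 0 < Real.sinc (s / 4) := by nlinarith
  have : s * (s / 4 * Real.sinc (s / 4)) = s ^ 2 / 4 * Real.sinc (s / 4) := by ring
  rw [this]
  positivity

/-- the difference of `cos x cos y` on the horizontal lines -/
lemma U_horizontal {x y : ℝ} (hy : Real.sin y = 0) :
    Real.cos (F (x, y)).1 * Real.cos (F (x, y)).2 - Real.cos x * Real.cos y =
      -2 * R (Real.cos y / 4) x * (Real.sin x * Real.sin (Real.sin x / 4)) := by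
  have hb : Real.cos y ^ 2 = 1 := by
    have := Real.sin_sq_add_cos_sq y
    rw [hy] at this; linarith
  have h2 : (F (x, y)).2 = y := by rw [F_snd, hy, mul_zero, add_zero]
  rw [h2, F_fst]
  have h3 : Real.cos (x + Real.cos y / 2 * Real.sin x) - Real.cos x =
      -2 * Real.sin (x + Real.cos y / 4 * Real.sin x) * Real.sin (Real.cos y * (Real.sin x / 4)) := by
    rw [Real.cos_sub_cos]
    congr 2
    · congr 2; ring
    · ring
  have h4 : Real.cos y = 1 ∨ Real.cos y = -1 := sq_eq_one_iff_of_ne_zero hb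
  have h5 : Real.cos y * Real.sin (Real.cos y * (Real.sin x / 4)) = Real.sin (Real.sin x / 4) := by
    rcases h4 with h | h <;> rw [h] <;> simp [Real.sin_neg]
  rw [sin_step] at h3
  calc Real.cos (x + Real.cos y / 2 * Real.sin x) * Real.cos y - Real.cos x * Real.cos y
      = (Real.cos (x + Real.cos y / 2 * Real.sin x) - Real.cos x) * Real.cos y := by ring
    _ = _ := by
        rw [h3]
        rw [← h5]
        ring
where
  sq_eq_one_iff_of_ne_zero {a : ℝ} (h : a ^ 2 = 1) : a = 1 ∨ a = -1 := by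
    have : (a - 1) * (a + 1) = 0 := by linarith [h, (by ring : (a - 1) * (a + 1) = a ^ 2 - 1)]
    rcases mul_eq_zero.1 this with h | h
    · left; linarith
    · right; linarith

/-- the difference of `cos x cos y` on the vertical lines -/
lemma U_vertical {x y : ℝ} (hx : Real.sin x = 0) :
    Real.cos (F (x, y)).1 * Real.cos (F (x, y)).2 - Real.cos x * Real.cos y =
      2 * R (-(Real.cos x) / 4) y * (Real.sin y * Real.sin (Real.sin y / 4)) := by
  have hb : Real.cos x ^ 2 = 1 := by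
    have := Real.sin_sq_add_cos_sq x
    rw [hx] at this; linarith
  have h2 : (F (x, y)).1 = x := by rw [F_fst, hx, mul_zero, add_zero]
  rw [h2, F_snd]
  have h3 : Real.cos (y + -(Real.cos x) / 2 * Real.sin y) - Real.cos y =
      -2 * Real.sin (y + -(Real.cos x) / 4 * Real.sin y) *
        Real.sin (-(Real.cos x) * (Real.sin y / 4)) := by
    rw [Real.cos_sub_cos]
    congr 2
    · congr 2; ring
    · ring
  have h4 : Real.cos x = 1 ∨ Real.cos x = -1 := U_horizontal.sq_eq_one_iff_of_ne_zero hb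
  have h5 : Real.cos x * Real.sin (-(Real.cos x) * (Real.sin y / 4)) =
      -Real.sin (Real.sin y / 4) := by
    rcases h4 with h | h <;> rw [h] <;> simp [Real.sin_neg]
  rw [sin_step] at h3
  calc Real.cos x * Real.cos (y + -(Real.cos x) / 2 * Real.sin y) - Real.cos x * Real.cos y
      = (Real.cos (y + -(Real.cos x) / 2 * Real.sin y) - Real.cos y) * Real.cos x := by ring
    _ = _ := by
        rw [h3]
        have : -2 * (Real.sin y * R (-(Real.cos x) / 4) y) *
          Real.sin (-(Real.cos x) * (Real.sin y / 4)) * Real.cos x =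
          -2 * (Real.sin y * R (-(Real.cos x) / 4) y) *
          (Real.cos x * Real.sin (-(Real.cos x) * (Real.sin y / 4))) := by ring
        rw [this, h5]
        ring

/-! ### Functions on the torus -/

/-- the product of the imaginary parts -/
def WW (z : T2) : ℝ := |(z.1 : ℂ).im * (z.2 : ℂ).im|

/-- the product of the real parts -/
def UU (z : T2) : ℝ := (z.1 : ℂ).re * (z.2 : ℂ).re

lemma im_exp (x : ℝ) : ((Circle.exp x : Circle) : ℂ).im = Real.sin x := by
  rw [Circle.coe_exp, Complex.exp_ofReal_mul_I_im]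

lemma re_exp (x : ℝ) : ((Circle.exp x : Circle) : ℂ).re = Real.cos x := by
  rw [Circle.coe_exp, Complex.exp_ofReal_mul_I_re]

lemma WW_Phi (p : ℝ × ℝ) : WW (Φ p) = |Real.sin p.1 * Real.sin p.2| := by
  unfold WW Φ
  simp only [im_exp]

lemma UU_Phi (p : ℝ × ℝ) : UU (Φ p) = Real.cos p.1 * Real.cos p.2 := by
  unfold UU Φ
  simp only [re_exp]

lemma exists_Phi (z : T2) : ∃ x y : ℝ, z = Φ (x, y) := ⟨_, _, (Phi_sec z).symm⟩

lemma continuous_WW : Continuous WW := by
  unfold WW
  fun_prop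

lemma continuous_UU : Continuous UU := by
  unfold UU
  fun_prop

lemma WW_f_le (z : T2) : WW (f z) ≤ WW z := by
  obtain ⟨x, y, rfl⟩ := exists_Phi z
  rw [f_Phi, WW_Phi, WW_Phi]
  exact W_le x y

/-- the fixed points -/
def S : Set T2 := {z | ((z.1 : ℂ).im = 0 ∧ (z.2 : ℂ).im = 0) ∨
  ((z.1 : ℂ).re = 0 ∧ (z.2 : ℂ).re = 0)}

lemma WW_f_eq {z : T2} (h : WW (f z) = WW z) :
    (z.1 : ℂ).im = 0 ∨ (z.2 : ℂ).im = 0 ∨ ((z.1 : ℂ).re = 0 ∧ (z.2 : ℂ).re = 0) := by
  obtain ⟨x, y, rfl⟩ := exists_Phi z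
  rw [f_Phi, WW_Phi, WW_Phi] at h
  have := W_eq h
  unfold Φ
  simp only [im_exp, re_exp]
  exact this

lemma im_snd_f (z : T2) : ((f z).2 : ℂ).im = 0 ↔ (z.2 : ℂ).im = 0 := by
  obtain ⟨x, y, rfl⟩ := exists_Phi z
  rw [f_Phi]
  unfold Φ
  simp only [im_exp]
  rw [sin_snd]
  have h4 := (R_pos (x := y) (abs_half' x)).ne'
  simp [h4]

lemma im_fst_f (z : T2) : ((f z).1 : ℂ).im = 0 ↔ (z.1 : ℂ).im = 0 := by
  obtain ⟨x, y, rfl⟩ := exists_Phi z
  rw [f_Phi]
  unfold Φ
  simp only [im_exp]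
  rw [sin_fst]
  have h4 := (R_pos (x := x) (abs_half y)).ne'
  simp [h4]

lemma abs_quarter (y : ℝ) : |Real.cos y / 4| ≤ 1 / 2 := by
  rw [abs_div, abs_of_pos (by norm_num : (0:ℝ) < 4)]
  have := Real.abs_cos_le_one y
  linarith

lemma abs_quarter' (y : ℝ) : |-(Real.cos y) / 4| ≤ 1 / 2 := by
  rw [abs_div, abs_neg, abs_of_pos (by norm_num : (0:ℝ) < 4)]
  have := Real.abs_cos_le_one y
  linarith

lemma UU_f_le {z : T2} (h : (z.2 : ℂ).im = 0) : UU (f z) ≤ UU z := by
  obtain ⟨x, y, rfl⟩ := exists_Phi z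
  rw [f_Phi, UU_Phi, UU_Phi]
  unfold Φ at h
  simp only [im_exp] at h
  have h1 := U_horizontal (x := x) h
  have h2 := (R_pos (x := x) (abs_quarter y)).le
  have h3 := mul_sin_quarter_nonneg (Real.sin x) (Real.abs_sin_le_one x)
  have h4 := mul_nonneg h2 h3
  simp only
  nlinarith

lemma UU_f_eq {z : T2} (h : (z.2 : ℂ).im = 0) (he : UU (f z) = UU z) : (z.1 : ℂ).im = 0 := by
  obtain ⟨x, y, rfl⟩ := exists_Phi z
  rw [f_Phi, UU_Phi, UU_Phi] at he
  unfold Φ at h ⊢
  simp only [im_exp] at h ⊢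
  have h1 := U_horizontal (x := x) h
  by_contra hne
  have h2 := R_pos (x := x) (abs_quarter y)
  have h3 := mul_sin_quarter_pos (Real.abs_sin_le_one x) hne
  have h4 := mul_pos h2 h3
  simp only at he
  nlinarith

lemma UU_f_ge {z : T2} (h : (z.1 : ℂ).im = 0) : UU z ≤ UU (f z) := by
  obtain ⟨x, y, rfl⟩ := exists_Phi z
  rw [f_Phi, UU_Phi, UU_Phi]
  unfold Φ at h
  simp only [im_exp] at h
  have h1 := U_vertical (y := y) h
  have h2 := (R_pos (x := y) (abs_quarter' x)).le
  have h3 := mul_sin_quarter_nonneg (Real.sin y) (Real.abs_sin_le_one y)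
  have h4 := mul_nonneg h2 h3
  simp only
  nlinarith

lemma UU_f_eq' {z : T2} (h : (z.1 : ℂ).im = 0) (he : UU (f z) = UU z) : (z.2 : ℂ).im = 0 := by
  obtain ⟨x, y, rfl⟩ := exists_Phi z
  rw [f_Phi, UU_Phi, UU_Phi] at he
  unfold Φ at h ⊢
  simp only [im_exp] at h ⊢
  have h1 := U_vertical (y := y) h
  by_contra hne
  have h2 := R_pos (x := y) (abs_quarter' x)
  have h3 := mul_sin_quarter_pos (Real.abs_sin_le_one y) hne
  have h4 := mul_pos h2 h3
  simp only at he
  nlinarith

/-! ### Invariant measures -/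

lemma ae_eq_of_le {X : Type*} [MeasurableSpace X] {T : X → X} {ρ : Measure X}
    (hT : MeasurePreserving T ρ ρ) {g : X → ℝ} (hg : Integrable g ρ)
    (hle : ∀ z, g (T z) ≤ g z) : ∀ᵐ z ∂ρ, g (T z) = g z := by
  have h1 : Integrable (fun z => g (T z)) ρ := hT.integrable_comp_of_integrable hg
  have h2 : ∫ z, g (T z) ∂ρ = ∫ z, g z ∂ρ := by
    have h3 : AEStronglyMeasurable g (ρ.map T) := by
      rw [hT.map_eq]; exact hg.aestronglyMeasurable
    have := integral_map hT.measurable.aemeasurable h3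
    rw [hT.map_eq] at this
    exact this.symm
  have h4 : ∫ z, (g z - g (T z)) ∂ρ = 0 := by
    rw [integral_sub hg h1, h2, sub_self]
  have h5 : 0 ≤ᵐ[ρ] fun z => g z - g (T z) :=
    Eventually.of_forall fun z => sub_nonneg.2 (hle z)
  have h6 := (integral_eq_zero_iff_of_nonneg_ae h5 (hg.sub h1)).1 h4
  filter_upwards [h6] with z hz
  have : g z - g (T z) = 0 := hz
  linarith

variable [MeasurableSpace T2] [BorelSpace T2]

lemma integrable_of_continuous {ρ : Measure T2} [IsFiniteMeasure ρ] {g : T2 → ℝ}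
    (hg : Continuous g) : Integrable g ρ := by
  obtain ⟨C, hC⟩ := (isCompact_univ (X := T2)).exists_bound_of_continuousOn hg.continuousOn
  exact Integrable.of_bound hg.aestronglyMeasurable C
    (Eventually.of_forall fun z => hC z (mem_univ z))

lemma ae_mem_S {ρ : Measure T2} [IsProbabilityMeasure ρ] (hf : MeasurePreserving f ρ ρ) :
    ∀ᵐ z ∂ρ, z ∈ S := by
  have h1 := ae_eq_of_le hf (integrable_of_continuous continuous_WW) WW_f_le
  -- horizontal lines
  have hA : MeasurableSet {z : T2 | (z.2 : ℂ).im = 0} := by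
    apply IsClosed.measurableSet
    exact isClosed_eq (by fun_prop) continuous_const
  have hB : MeasurableSet {z : T2 | (z.1 : ℂ).im = 0} := by
    apply IsClosed.measurableSet
    exact isClosed_eq (by fun_prop) continuous_const
  have h2 : ∀ᵐ z ∂ρ, indicator {z : T2 | (z.2 : ℂ).im = 0} UU (f z) =
      indicator {z : T2 | (z.2 : ℂ).im = 0} UU z := by
    apply ae_eq_of_le hf ((integrable_of_continuous continuous_UU).indicator hA)
    intro z
    by_cases hz : (z.2 : ℂ).im = 0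
    · rw [indicator_of_mem (show z ∈ {z : T2 | (z.2 : ℂ).im = 0} from hz),
        indicator_of_mem (show f z ∈ {z : T2 | (z.2 : ℂ).im = 0} from (im_snd_f z).2 hz)]
      exact UU_f_le hz
    · rw [indicator_of_notMem (show z ∉ {z : T2 | (z.2 : ℂ).im = 0} from hz),
        indicator_of_notMem (show f z ∉ {z : T2 | (z.2 : ℂ).im = 0} from
          fun h => hz ((im_snd_f z).1 h))]
  have h3 : ∀ᵐ z ∂ρ, indicator {z : T2 | (z.1 : ℂ).im = 0} (fun z => -UU z) (f z) =
      indicator {z : T2 | (z.1 : ℂ).im = 0} (fun z => -UU z) z := by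
    apply ae_eq_of_le hf ((integrable_of_continuous continuous_UU.neg).indicator hB)
    intro z
    by_cases hz : (z.1 : ℂ).im = 0
    · rw [indicator_of_mem (show z ∈ {z : T2 | (z.1 : ℂ).im = 0} from hz),
        indicator_of_mem (show f z ∈ {z : T2 | (z.1 : ℂ).im = 0} from (im_fst_f z).2 hz)]
      exact neg_le_neg (UU_f_ge hz)
    · rw [indicator_of_notMem (show z ∉ {z : T2 | (z.1 : ℂ).im = 0} from hz),
        indicator_of_notMem (show f z ∉ {z : T2 | (z.1 : ℂ).im = 0} from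
          fun h => hz ((im_fst_f z).1 h))]
  filter_upwards [h1, h2, h3] with z k1 k2 k3
  rcases WW_f_eq k1 with h | h | h
  · rw [indicator_of_mem (show z ∈ {z : T2 | (z.1 : ℂ).im = 0} from h),
      indicator_of_mem (show f z ∈ {z : T2 | (z.1 : ℂ).im = 0} from (im_fst_f z).2 h)] at k3
    exact Or.inl ⟨h, UU_f_eq' h (neg_injective k3)⟩
  · rw [indicator_of_mem (show z ∈ {z : T2 | (z.2 : ℂ).im = 0} from h),
      indicator_of_mem (show f z ∈ {z : T2 | (z.2 : ℂ).im = 0} from (im_snd_f z).2 h)] at k2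
    exact Or.inl ⟨UU_f_eq h k2, h⟩
  · exact Or.inr h

omit [MeasurableSpace T2] [BorelSpace T2] in
lemma F_fixed {x y : ℝ} (h : (Real.sin x = 0 ∧ Real.sin y = 0) ∨
    (Real.cos x = 0 ∧ Real.cos y = 0)) : F (x, y) = (x, y) := by
  apply Prod.ext
  · rw [F_fst]
    rcases h with h | h <;> simp [h.1, h.2]
  · rw [F_snd]
    rcases h with h | h <;> simp [h.1, h.2]

omit [MeasurableSpace T2] [BorelSpace T2] in
lemma f_fixed {z : T2} (h : z ∈ S) : f z = z := by
  obtain ⟨x, y, rfl⟩ := exists_Phi z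
  rw [f_Phi]
  unfold S Φ at h
  simp only [mem_ofPred_eq, im_exp, re_exp] at h
  rw [F_fixed h]

end

end Pool.Agent.H786R2.Torus
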