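import Mathlib

/-!
An explicit analytic diffeomorphism of the two-torus: the descent of
`(x, y) ↦ (x + sin x cos y / 2, y - cos x sin y / 2)`.
-/

open Filter Topology Manifold Set
open scoped ContDiff NNReal

namespace Pool.Agent.H786R2.Torus

noncomputable section

attribute [local instance] finrank_real_complex_fact'

/-- the displacement -/
def V (p : ℝ × ℝ) : ℝ × ℝ :=
  (Real.sin p.1 * Real.cos p.2 / 2, -(Real.cos p.1 * Real.sin p.2 / 2))

/-- the lift -/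
def F (p : ℝ × ℝ) : ℝ × ℝ := p + V p

lemma contDiff_V {n : WithTop ℕ∞} : ContDiff ℝ n V := by
  unfold V
  fun_prop

lemma contDiff_F {n : WithTop ℕ∞} : ContDiff ℝ n F := by
  unfold F
  exact contDiff_id.add contDiff_V

/-- the derivative of the displacement -/
def dV (p : ℝ × ℝ) : ℝ × ℝ →L[ℝ] ℝ × ℝ :=
  ContinuousLinearMap.prod
    ((Real.cos p.1 * Real.cos p.2 / 2) • ContinuousLinearMap.fst ℝ ℝ ℝ +
      (-(Real.sin p.1 * Real.sin p.2 / 2)) • ContinuousLinearMap.snd ℝ ℝ ℝ)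
    ((Real.sin p.1 * Real.sin p.2 / 2) • ContinuousLinearMap.fst ℝ ℝ ℝ +
      (-(Real.cos p.1 * Real.cos p.2 / 2)) • ContinuousLinearMap.snd ℝ ℝ ℝ)

lemma hasFDerivAt_V (p : ℝ × ℝ) : HasFDerivAt V (dV p) p := by
  unfold V dV
  apply HasFDerivAt.prodMk
  · have h1 : HasFDerivAt (fun p : ℝ × ℝ => Real.sin p.1)
        (Real.cos p.1 • ContinuousLinearMap.fst ℝ ℝ ℝ) p := by
      have := (Real.hasDerivAt_sin p.1).comp_hasFDerivAt p (hasFDerivAt_fst (𝕜 := ℝ) (p := p))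
      exact this
    have h2 : HasFDerivAt (fun p : ℝ × ℝ => Real.cos p.2)
        ((-Real.sin p.2) • ContinuousLinearMap.snd ℝ ℝ ℝ) p := by
      have := (Real.hasDerivAt_cos p.2).comp_hasFDerivAt p (hasFDerivAt_snd (𝕜 := ℝ) (p := p))
      exact this
    have h3 := (h1.mul h2).mul_const (1/2)
    have h4 : (fun p : ℝ × ℝ => Real.sin p.1 * Real.cos p.2 / 2) =
        fun p : ℝ × ℝ => Real.sin p.1 * Real.cos p.2 * (1/2) := by
      ext p; ring
    rw [h4]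
    refine h3.congr_fderiv ?_
    ext <;> simp <;> ring
  · have h1 : HasFDerivAt (fun p : ℝ × ℝ => Real.cos p.1)
        ((-Real.sin p.1) • ContinuousLinearMap.fst ℝ ℝ ℝ) p := by
      have := (Real.hasDerivAt_cos p.1).comp_hasFDerivAt p (hasFDerivAt_fst (𝕜 := ℝ) (p := p))
      exact this
    have h2 : HasFDerivAt (fun p : ℝ × ℝ => Real.sin p.2)
        ((Real.cos p.2) • ContinuousLinearMap.snd ℝ ℝ ℝ) p := by
      have := (Real.hasDerivAt_sin p.2).comp_hasFDerivAt p (hasFDerivAt_snd (𝕜 := ℝ) (p := p))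
      exact this
    have h3 := (h1.mul h2).mul_const (-(1/2))
    have h4 : (fun p : ℝ × ℝ => -(Real.cos p.1 * Real.sin p.2 / 2)) =
        fun p : ℝ × ℝ => Real.cos p.1 * Real.sin p.2 * (-(1/2)) := by
      ext p; ring
    rw [h4]
    refine h3.congr_fderiv ?_
    ext <;> simp <;> ring

lemma abs_le_one_aux (a b : ℝ) :
    |Real.cos a * Real.cos b / 2| + |Real.sin a * Real.sin b / 2| ≤ 1 / 2 := by
  have h1 : |Real.cos a * Real.cos b| + |Real.sin a * Real.sin b| ≤ 1 := by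
    rcases abs_cases (Real.cos a * Real.cos b) with ⟨h, _⟩ | ⟨h, _⟩ <;>
    rcases abs_cases (Real.sin a * Real.sin b) with ⟨h', _⟩ | ⟨h', _⟩ <;> rw [h, h']
    · have := Real.cos_sub a b
      have := Real.cos_le_one (a - b)
      linarith
    · have := Real.cos_add a b
      have := Real.cos_le_one (a + b)
      linarith
    · have := Real.cos_add a b
      have := Real.neg_one_le_cos (a + b)
      linarith
    · have := Real.cos_sub a b
      have := Real.neg_one_le_cos (a - b)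
      linarith
  rw [abs_div, abs_div, abs_of_pos (by norm_num : (0:ℝ) < 2)]
  linarith

lemma norm_dV_le (p : ℝ × ℝ) : ‖dV p‖ ≤ 1 / 2 := by
  apply ContinuousLinearMap.opNorm_le_bound _ (by norm_num)
  intro v
  have h := abs_le_one_aux p.1 p.2
  have hv1 : |v.1| ≤ ‖v‖ := norm_fst_le v
  have hv2 : |v.2| ≤ ‖v‖ := norm_snd_le v
  have hv0 := norm_nonneg v
  set A := |Real.cos p.1 * Real.cos p.2 / 2| with hA
  set B := |Real.sin p.1 * Real.sin p.2 / 2| with hB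
  have hA0 : 0 ≤ A := abs_nonneg _
  have hB0 : 0 ≤ B := abs_nonneg _
  have key : ∀ s t : ℝ, |s| ≤ ‖v‖ → |t| ≤ ‖v‖ →
      A * |s| + B * |t| ≤ 1 / 2 * ‖v‖ := by
    intro s t hs ht
    have h1 : A * |s| ≤ A * ‖v‖ := mul_le_mul_of_nonneg_left hs hA0
    have h2 : B * |t| ≤ B * ‖v‖ := mul_le_mul_of_nonneg_left ht hB0
    have h3 : (A + B) * ‖v‖ ≤ 1 / 2 * ‖v‖ := mul_le_mul_of_nonneg_right h hv0
    linarith
  rw [Prod.norm_def]
  apply max_le
  · simp only [dV, ContinuousLinearMap.prod_apply, add_apply,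
      smul_apply, ContinuousLinearMap.coe_fst', ContinuousLinearMap.coe_snd',
      smul_eq_mul, Real.norm_eq_abs]
    refine (abs_add_le _ _).trans ?_
    rw [abs_mul, abs_mul, abs_neg]
    exact key _ _ hv1 hv2
  · simp only [dV, ContinuousLinearMap.prod_apply, add_apply,
      smul_apply, ContinuousLinearMap.coe_fst', ContinuousLinearMap.coe_snd',
      smul_eq_mul, Real.norm_eq_abs]
    refine (abs_add_le _ _).trans ?_
    rw [abs_mul, abs_mul, abs_neg]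
    have := key _ _ hv2 hv1
    linarith

lemma hasFDerivAt_F (p : ℝ × ℝ) :
    HasFDerivAt F (ContinuousLinearMap.id ℝ (ℝ × ℝ) + dV p) p :=
  (hasFDerivAt_id p).add (hasFDerivAt_V p)

lemma lipschitz_V : LipschitzWith (1/2) V := by
  apply lipschitzWith_of_nnnorm_fderiv_le (𝕜 := ℝ)
  · intro p
    exact (hasFDerivAt_V p).differentiableAt
  · intro p
    rw [(hasFDerivAt_V p).fderiv]
    have := norm_dV_le p
    rw [← NNReal.coe_le_coe]
    simpa using this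

lemma approx_F : ApproximatesLinearOn F
    ((ContinuousLinearEquiv.refl ℝ (ℝ × ℝ) : (ℝ × ℝ) ≃L[ℝ] (ℝ × ℝ)) : ℝ × ℝ →L[ℝ] ℝ × ℝ)
    univ (1/2) := by
  intro x _ y _
  have h := lipschitz_V.dist_le_mul x y
  rw [dist_eq_norm, dist_eq_norm] at h
  have h1 : F x - F y - (((ContinuousLinearEquiv.refl ℝ (ℝ × ℝ) : (ℝ × ℝ) ≃L[ℝ] (ℝ × ℝ)) :
      ℝ × ℝ →L[ℝ] ℝ × ℝ)) (x - y) = V x - V y := by
    unfold F
    simp only [ContinuousLinearEquiv.coe_refl, ContinuousLinearMap.id_apply]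
    abel
  rw [h1]
  exact h

/-- the lift as a homeomorphism of the plane -/
def Fh : (ℝ × ℝ) ≃ₜ (ℝ × ℝ) := approx_F.toHomeomorph F (Or.inr (by
  have h1 : ‖((ContinuousLinearEquiv.refl ℝ (ℝ × ℝ)).symm : ℝ × ℝ →L[ℝ] ℝ × ℝ)‖₊ = 1 := by
    have : ((ContinuousLinearEquiv.refl ℝ (ℝ × ℝ)).symm : ℝ × ℝ →L[ℝ] ℝ × ℝ) =
      ContinuousLinearMap.id ℝ (ℝ × ℝ) := by ext <;> simp
    rw [this]
    exact ContinuousLinearMap.nnnorm_id
  rw [h1]
  rw [inv_one]
  rw [div_lt_one (by norm_num)]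
  norm_num))

lemma Fh_apply (p : ℝ × ℝ) : Fh p = F p := rfl

/-- the derivative of the lift as an equivalence -/
def dFe (p : ℝ × ℝ) : (ℝ × ℝ) ≃L[ℝ] (ℝ × ℝ) :=
  ContinuousLinearEquiv.ofUnit (Units.oneSub (-dV p) (by
    rw [norm_neg]; exact (norm_dV_le p).trans_lt (by norm_num)))

lemma dFe_coe (p : ℝ × ℝ) : ((dFe p : (ℝ × ℝ) ≃L[ℝ] (ℝ × ℝ)) : ℝ × ℝ →L[ℝ] ℝ × ℝ) =
    ContinuousLinearMap.id ℝ (ℝ × ℝ) + dV p := by
  refine ContinuousLinearMap.ext fun v => ?_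
  change (1 - -dV p) v = _
  rw [sub_neg_eq_add]
  rfl

lemma contDiff_Fh_symm {n : WithTop ℕ∞} : ContDiff ℝ n Fh.symm := by
  apply Fh.contDiff_symm (f₀' := dFe)
  · intro a
    rw [dFe_coe]
    exact hasFDerivAt_F a
  · exact contDiff_F

/-! ### Periodicity -/

lemma F_add (p : ℝ × ℝ) (m n : ℤ) :
    F (p + ((m : ℝ) * (2 * Real.pi), (n : ℝ) * (2 * Real.pi))) =
      F p + ((m : ℝ) * (2 * Real.pi), (n : ℝ) * (2 * Real.pi)) := by
  unfold F V
  simp only [Prod.fst_add, Prod.snd_add, Real.sin_add_int_mul_two_pi, Real.cos_add_int_mul_two_pi]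
  abel

lemma Fh_symm_add (p : ℝ × ℝ) (m n : ℤ) :
    Fh.symm (p + ((m : ℝ) * (2 * Real.pi), (n : ℝ) * (2 * Real.pi))) =
      Fh.symm p + ((m : ℝ) * (2 * Real.pi), (n : ℝ) * (2 * Real.pi)) := by
  apply Fh.injective
  rw [Fh_apply, Fh_apply, F_add, ← Fh_apply, ← Fh_apply, Homeomorph.apply_symm_apply,
    Homeomorph.apply_symm_apply]

/-! ### The torus -/

/-- The two-torus. -/
abbrev T2 : Type := Circle × Circle

/-- The model with corners of the two-torus. -/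
abbrev I2 : ModelWithCorners ℝ (EuclideanSpace ℝ (Fin 1) × EuclideanSpace ℝ (Fin 1))
    (ModelProd (EuclideanSpace ℝ (Fin 1)) (EuclideanSpace ℝ (Fin 1))) := (𝓡 1).prod (𝓡 1)

/-- the universal covering -/
def Φ (p : ℝ × ℝ) : T2 := (Circle.exp p.1, Circle.exp p.2)

lemma contMDiff_Phi : ContMDiff 𝓘(ℝ, ℝ × ℝ) I2 ω Φ := by
  have h1 : ContMDiff 𝓘(ℝ, ℝ × ℝ) 𝓘(ℝ, ℝ) ω (fun p : ℝ × ℝ => p.1) :=
    contDiff_fst.contMDiff
  have h2 : ContMDiff 𝓘(ℝ, ℝ × ℝ) 𝓘(ℝ, ℝ) ω (fun p : ℝ × ℝ => p.2) :=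
    contDiff_snd.contMDiff
  exact (contMDiff_circleExp.comp h1).prodMk (contMDiff_circleExp.comp h2)

/-- the section of the universal covering given by the argument -/
def sec (z : T2) : ℝ × ℝ := (Complex.arg z.1, Complex.arg z.2)

lemma Phi_sec (z : T2) : Φ (sec z) = z := by
  unfold Φ sec
  simp

lemma circle_exp_eq {a b : ℝ} (h : Circle.exp a = Circle.exp b) :
    ∃ m : ℤ, a = b + (m : ℝ) * (2 * Real.pi) := by
  rw [Circle.exp_eq_exp] at h
  exact h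

/-- Functions on the plane that are periodic descend to analytic functions on the torus. -/
lemma contMDiff_descend {E' : Type*} [NormedAddCommGroup E'] [NormedSpace ℝ E'] {H' : Type*}
    [TopologicalSpace H'] {I' : ModelWithCorners ℝ E' H'} {M' : Type*} [TopologicalSpace M']
    [ChartedSpace H' M'] {h : ℝ × ℝ → M'} (hh : ContMDiff 𝓘(ℝ, ℝ × ℝ) I' ω h)
    (hper : ∀ p q, Φ p = Φ q → h p = h q) :
    ContMDiff I2 I' ω (fun z => h (sec z)) := by
  intro z₀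
  -- local section near `z₀`
  let s : T2 → ℝ × ℝ := fun z =>
    ((sec z₀).1 + (Complex.log ((z.1 : ℂ) * ((z₀.1⁻¹ : Circle) : ℂ))).im,
     (sec z₀).2 + (Complex.log ((z.2 : ℂ) * ((z₀.2⁻¹ : Circle) : ℂ))).im)
  have hs : ∀ z, h (sec z) = h (s z) := by
    intro z
    apply hper
    rw [Phi_sec]
    have key : ∀ a b : Circle, Circle.exp (Complex.arg b +
        (Complex.log ((a : ℂ) * ((b⁻¹ : Circle) : ℂ))).im) = a := by
      intro a b
      rw [Complex.log_im, Circle.exp_add, ← Circle.coe_mul, Circle.exp_arg, Circle.exp_arg]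
      simp
    apply Prod.ext
    · exact (key z.1 z₀.1).symm
    · exact (key z.2 z₀.2).symm
  have hsm : ContMDiffAt I2 𝓘(ℝ, ℝ × ℝ) ω s z₀ := by
    have key : ∀ b : Circle, ContMDiffAt (𝓡 1) 𝓘(ℝ, ℝ) ω (fun a : Circle =>
        Complex.arg b + (Complex.log ((a : ℂ) * ((b⁻¹ : Circle) : ℂ))).im) b := by
      intro b
      have h1 : ContMDiffAt (𝓡 1) 𝓘(ℝ, ℂ) ω (fun a : Circle => (a : ℂ)) b :=
        (contMDiff_coe_sphere (E := ℂ) (n := 1)).contMDiffAt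
      have h2 : ContDiffAt ℝ ω (fun w : ℂ => Complex.arg b +
          (Complex.log (w * ((b⁻¹ : Circle) : ℂ))).im) (b : ℂ) := by
        have h3 : ContDiffAt ℝ ω (fun w : ℂ => w * ((b⁻¹ : Circle) : ℂ)) (b : ℂ) :=
          contDiffAt_id.mul contDiffAt_const
        have h4 : ContDiffAt ℝ ω Complex.log ((b : ℂ) * ((b⁻¹ : Circle) : ℂ)) := by
          apply ContDiffAt.restrict_scalars ℝ (𝕜' := ℂ)
          apply Complex.contDiffAt_log
          rw [← Circle.coe_mul, mul_inv_cancel, Circle.coe_one]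
          exact Complex.one_mem_slitPlane
        have h5 : ContDiffAt ℝ ω (fun w : ℂ => Complex.log (w * ((b⁻¹ : Circle) : ℂ))) (b : ℂ) :=
          ContDiffAt.comp (g := Complex.log) (b : ℂ) h4 h3
        exact contDiffAt_const.add (Complex.imCLM.contDiff.contDiffAt.comp (b : ℂ) h5)
      exact h2.contMDiffAt.comp b h1
    have f1 : ContMDiffAt I2 (𝓡 1) ω (fun z : T2 => z.1) z₀ := contMDiffAt_fst
    have f2 : ContMDiffAt I2 (𝓡 1) ω (fun z : T2 => z.2) z₀ := contMDiffAt_snd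
    have k1 : ContMDiffAt I2 𝓘(ℝ, ℝ) ω (fun z : T2 => (s z).1) z₀ := (key z₀.1).comp z₀ f1
    have k2 : ContMDiffAt I2 𝓘(ℝ, ℝ) ω (fun z : T2 => (s z).2) z₀ := (key z₀.2).comp z₀ f2
    exact k1.prodMk_space k2
  have h6 : ContMDiffAt I2 I' ω (h ∘ s) z₀ := hh.contMDiffAt.comp z₀ hsm
  refine h6.congr_of_eventuallyEq ?_
  exact Eventually.of_forall hs

lemma Phi_eq {p q : ℝ × ℝ} (h : Φ p = Φ q) :
    ∃ m n : ℤ, p = q + ((m : ℝ) * (2 * Real.pi), (n : ℝ) * (2 * Real.pi)) := by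
  unfold Φ at h
  rw [Prod.mk.injEq] at h
  obtain ⟨m, hm⟩ := circle_exp_eq h.1
  obtain ⟨n, hn⟩ := circle_exp_eq h.2
  exact ⟨m, n, Prod.ext hm hn⟩

lemma Phi_add (p : ℝ × ℝ) (m n : ℤ) :
    Φ (p + ((m : ℝ) * (2 * Real.pi), (n : ℝ) * (2 * Real.pi))) = Φ p := by
  unfold Φ
  apply Prod.ext
  · simp only [Prod.fst_add]
    rw [Circle.exp_eq_exp]
    exact ⟨m, rfl⟩
  · simp only [Prod.snd_add]
    rw [Circle.exp_eq_exp]
    exact ⟨n, rfl⟩

/-- the map of the torus -/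
def f0 (z : T2) : T2 := Φ (F (sec z))

/-- the inverse map of the torus -/
def g0 (z : T2) : T2 := Φ (Fh.symm (sec z))

lemma Phi_F_per (p q : ℝ × ℝ) (h : Φ p = Φ q) : Φ (F p) = Φ (F q) := by
  obtain ⟨m, n, rfl⟩ := Phi_eq h
  rw [F_add, Phi_add]

lemma Phi_G_per (p q : ℝ × ℝ) (h : Φ p = Φ q) : Φ (Fh.symm p) = Φ (Fh.symm q) := by
  obtain ⟨m, n, rfl⟩ := Phi_eq h
  rw [Fh_symm_add, Phi_add]

lemma f0_Phi (p : ℝ × ℝ) : f0 (Φ p) = Φ (F p) :=
  Phi_F_per _ _ (Phi_sec _)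

lemma g0_Phi (p : ℝ × ℝ) : g0 (Φ p) = Φ (Fh.symm p) :=
  Phi_G_per _ _ (Phi_sec _)

/-- the analytic diffeomorphism of the torus -/
def f : Diffeomorph I2 I2 T2 T2 ω where
  toFun := f0
  invFun := g0
  left_inv z := by
    rw [← Phi_sec z, f0_Phi, g0_Phi, ← Fh_apply, Homeomorph.symm_apply_apply]
  right_inv z := by
    rw [← Phi_sec z, g0_Phi, f0_Phi, ← Fh_apply, Homeomorph.apply_symm_apply]
  contMDiff_toFun := contMDiff_descend (contMDiff_Phi.comp contDiff_F.contMDiff) Phi_F_per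
  contMDiff_invFun := contMDiff_descend (contMDiff_Phi.comp contDiff_Fh_symm.contMDiff) Phi_G_per

lemma f_apply (z : T2) : f z = f0 z := rfl

lemma f_Phi (p : ℝ × ℝ) : f (Φ p) = Φ (F p) := f0_Phi p

end

end Pool.Agent.H786R2.Torus
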