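import Pool.Agent.H308R2.ZS.Stubs

/-! Task TRC: free products of traces are traces. -/

set_option autoImplicit false

open scoped ComplexConjugate Kronecker Matrix.Norms.L2Operator

noncomputable section

namespace Pool.Agent.H308R2.ZS.T_TRC

open Pool.Agent.H923R2.FP Pool.Agent.H923R2.FZ Pool.Agent.H308R2.ZS

variable {J B : Type} [CStarAlgebra B]

/-- alternating centred words -/
def P (τ : B →ₗ[ℂ] ℂ) (S : J → StarSubalgebra ℂ B) (w : List (J × B)) : Prop :=
  (∀ z ∈ w, z.2 ∈ S z.1 ∧ τ z.2 = 0) ∧ w.IsChain (fun x y => x.1 ≠ y.1)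

/-- product of a word -/
def pr (w : List (J × B)) : B := (w.map Prod.snd).prod

lemma pr_nil : pr ([] : List (J × B)) = 1 := rfl

lemma pr_cons (z : J × B) (w : List (J × B)) : pr (z :: w) = z.2 * pr w := by
  simp [pr]

lemma pr_append (v w : List (J × B)) : pr (v ++ w) = pr v * pr w := by
  simp [pr]

/-- span of the alternating centred words -/
def V (τ : B →ₗ[ℂ] ℂ) (S : J → StarSubalgebra ℂ B) : Submodule ℂ B :=
  Submodule.span ℂ {x | ∃ w, P τ S w ∧ pr w = x}

section
variable {τ : B →ₗ[ℂ] ℂ} {S : J → StarSubalgebra ℂ B}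

lemma cen_mem {j : J} {b : B} (hb : b ∈ S j) : b - algebraMap ℂ B (τ b) ∈ S j :=
  sub_mem hb ((S j).algebraMap_mem _)

lemma cen_zero (h1 : τ 1 = 1) (b : B) : τ (b - algebraMap ℂ B (τ b)) = 0 := by
  rw [map_sub, Algebra.algebraMap_eq_smul_one, map_smul, h1]; simp

lemma P_tail {z : J × B} {w : List (J × B)} (h : P τ S (z :: w)) : P τ S w :=
  ⟨fun x hx => h.1 x (List.mem_cons_of_mem _ hx), h.2.tail⟩

lemma P_nil : P τ S [] := ⟨by simp, by simp⟩

lemma P_single {j : J} {b : B} (hb : b ∈ S j) (h0 : τ b = 0) : P τ S [(j, b)] :=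
  ⟨by simp [hb, h0], by simp⟩

lemma P_cons {j : J} {b : B} (hb : b ∈ S j) (h0 : τ b = 0) {z : J × B} {w : List (J × B)}
    (h : P τ S (z :: w)) (hz : j ≠ z.1) : P τ S ((j, b) :: z :: w) := by
  refine ⟨?_, ?_⟩
  · intro x hx
    rcases List.mem_cons.1 hx with rfl | hx
    · exact ⟨hb, h0⟩
    · exact h.1 x hx
  · rw [List.isChain_cons_cons]
    exact ⟨hz, h.2⟩

/-- replace the head by another letter of the same algebra -/
lemma P_head {z : J × B} {b : B} (hb : b ∈ S z.1) (h0 : τ b = 0) {w : List (J × B)}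
    (h : P τ S (z :: w)) : P τ S ((z.1, b) :: w) := by
  cases w with
  | nil => exact P_single hb h0
  | cons y w =>
    refine P_cons hb h0 (P_tail h) ?_
    have := h.2
    rw [List.isChain_cons_cons] at this
    exact this.1

lemma P_reverse {w : List (J × B)} (h : P τ S w) : P τ S w.reverse := by
  refine ⟨fun z hz => h.1 z (List.mem_reverse.1 hz), ?_⟩
  rw [List.isChain_reverse]
  exact h.2.imp fun a b hab => Ne.symm hab

lemma V_word {w : List (J × B)} (h : P τ S w) : pr w ∈ V τ S := Submodule.subset_span ⟨w, h, rfl⟩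

lemma left_word (h1 : τ 1 = 1) {j : J} {b : B} (hb : b ∈ S j) (h0 : τ b = 0)
    {w : List (J × B)} (hw : P τ S w) : b * pr w ∈ V τ S := by
  cases w with
  | nil =>
    have := V_word (P_single hb h0)
    rw [pr_cons] at this
    exact this
  | cons z w =>
    by_cases hz : j = z.1
    · subst hz
      rw [pr_cons, ← mul_assoc]
      have hc : b * z.2 ∈ S z.1 := mul_mem hb (hw.1 z (by simp)).1
      have e : b * z.2 * pr w = (b * z.2 - algebraMap ℂ B (τ (b * z.2))) * pr w
          + τ (b * z.2) • pr w := by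
        rw [sub_mul, Algebra.smul_def]; abel
      rw [e]
      refine add_mem ?_ (Submodule.smul_mem _ _ (V_word (P_tail hw)))
      have := V_word (P_head (cen_mem (τ := τ) hc) (cen_zero h1 _) hw)
      rwa [pr_cons] at this
    · have := V_word (P_cons hb h0 hw hz)
      rwa [pr_cons] at this

lemma left_mem (h1 : τ 1 = 1) {j : J} {b : B} (hb : b ∈ S j) {x : B} (hx : x ∈ V τ S) :
    b * x ∈ V τ S := by
  have e : b * x = (b - algebraMap ℂ B (τ b)) * x + τ b • x := by
    rw [sub_mul, Algebra.smul_def]; abel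
  rw [e]
  refine add_mem ?_ (Submodule.smul_mem _ _ hx)
  refine Submodule.span_induction (p := fun x _ => (b - algebraMap ℂ B (τ b)) * x ∈ V τ S)
    ?_ ?_ ?_ ?_ hx
  · rintro y ⟨w, hw, rfl⟩
    exact left_word h1 (cen_mem hb) (cen_zero h1 _) hw
  · simp
  · intro a c _ _ ha hc
    rw [mul_add]; exact add_mem ha hc
  · intro c y _ hy
    rw [mul_smul_comm]; exact Submodule.smul_mem _ _ hy

lemma star_union : star (⋃ j, (S j : Set B)) = ⋃ j, (S j : Set B) := by
  ext x
  simp only [Set.mem_star, Set.mem_iUnion, SetLike.mem_coe]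
  constructor
  · rintro ⟨j, hj⟩
    exact ⟨j, by simpa using star_mem hj⟩
  · rintro ⟨j, hj⟩
    exact ⟨j, star_mem hj⟩

lemma adj_iff (x : B) : x ∈ StarAlgebra.adjoin ℂ (⋃ j, (S j : Set B)) ↔
    x ∈ Algebra.adjoin ℂ (⋃ j, (S j : Set B)) := by
  rw [← StarSubalgebra.mem_toSubalgebra, StarAlgebra.adjoin_toSubalgebra, star_union,
    Set.union_self]

lemma adj_V (h1 : τ 1 = 1) {a : B} (ha : a ∈ Algebra.adjoin ℂ (⋃ j, (S j : Set B))) :
    a ∈ V τ S := by
  have key : ∀ x ∈ V τ S, a * x ∈ V τ S := by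
    refine Algebra.adjoin_induction (p := fun a _ => ∀ x ∈ V τ S, a * x ∈ V τ S) ?_ ?_ ?_ ?_ ha
    · intro b hb x hx
      obtain ⟨j, hj⟩ := Set.mem_iUnion.1 hb
      exact left_mem h1 hj hx
    · intro r x hx
      rw [← Algebra.smul_def]
      exact Submodule.smul_mem _ _ hx
    · intro a b _ _ iha ihb x hx
      rw [add_mul]; exact add_mem (iha x hx) (ihb x hx)
    · intro a b _ _ iha ihb x hx
      rw [mul_assoc]; exact iha _ (ihb x hx)
  have := key 1 (V_word (P_nil (τ := τ) (S := S)))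
  rwa [mul_one] at this

lemma zero_word (hF : FreeFam τ S) {w : List (J × B)} (hw : P τ S w) (hn : w ≠ []) :
    τ (pr w) = 0 := hF w hn hw.1 hw.2

lemma zero_left (h1 : τ 1 = 1) (hF : FreeFam τ S) {j : J} {b : B} (hb : b ∈ S j) (h0 : τ b = 0)
    {z : J × B} {w : List (J × B)} (hw : P τ S (z :: w)) (hn : w ≠ []) :
    τ (b * pr (z :: w)) = 0 := by
  by_cases hz : j = z.1
  · subst hz
    rw [pr_cons, ← mul_assoc]
    have hc : b * z.2 ∈ S z.1 := mul_mem hb (hw.1 z (by simp)).1
    have e : b * z.2 * pr w = (b * z.2 - algebraMap ℂ B (τ (b * z.2))) * pr w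
        + τ (b * z.2) • pr w := by
      rw [sub_mul, Algebra.smul_def]; abel
    rw [e, map_add, map_smul, zero_word hF (P_tail hw) hn, smul_zero, add_zero]
    have := zero_word hF (P_head (cen_mem (τ := τ) hc) (cen_zero h1 _) hw) (by simp)
    rwa [pr_cons] at this
  · have := zero_word hF (P_cons hb h0 hw hz) (by simp)
    rwa [pr_cons] at this

/-- product of the reversed word -/
lemma zero_right (h1 : τ 1 = 1) (hF : FreeFam τ S) {j : J} {b : B} (hb : b ∈ S j) (h0 : τ b = 0)
    {z : J × B} {w : List (J × B)} (hw : P τ S (z :: w)) (hn : w ≠ []) :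
    τ (pr (z :: w).reverse * b) = 0 := by
  rw [List.reverse_cons, pr_append]
  by_cases hz : j = z.1
  · subst hz
    have e0 : pr [z] = z.2 := by rw [pr_cons, pr_nil, mul_one]
    rw [e0, mul_assoc]
    have hc : z.2 * b ∈ S z.1 := mul_mem (hw.1 z (by simp)).1 hb
    have e : pr w.reverse * (z.2 * b) = pr w.reverse * (z.2 * b - algebraMap ℂ B (τ (z.2 * b)))
        + τ (z.2 * b) • pr w.reverse := by
      rw [mul_sub, ← Algebra.commutes, ← Algebra.smul_def]; abel
    rw [e, map_add, map_smul, zero_word hF (P_reverse (P_tail hw)) (by simpa using hn),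
      smul_zero, add_zero]
    have := zero_word hF (P_reverse (P_head (cen_mem (τ := τ) hc) (cen_zero h1 _) hw)) (by simp)
    rw [List.reverse_cons, pr_append] at this
    simpa [pr_cons, pr_nil] using this
  · have := zero_word hF (P_reverse (P_cons hb h0 hw hz)) (by simp)
    rw [List.reverse_cons, List.reverse_cons, pr_append, pr_append] at this
    simpa [pr_cons, pr_nil] using this

lemma comm_word (h1 : τ 1 = 1) (hF : FreeFam τ S)
    (hT : ∀ j, ∀ x ∈ S j, ∀ y ∈ S j, τ (x * y) = τ (y * x)) {j : J} {b : B} (hb : b ∈ S j)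
    (h0 : τ b = 0) {w : List (J × B)} (hw : P τ S w) : τ (pr w * b) = τ (b * pr w) := by
  rcases w with _ | ⟨z, _ | ⟨y, w⟩⟩
  · rw [pr_nil, one_mul, mul_one]
  · have e0 : pr [z] = z.2 := by rw [pr_cons, pr_nil, mul_one]
    rw [e0]
    have hz2 := hw.1 z (by simp)
    by_cases hz : j = z.1
    · subst hz
      exact hT z.1 _ hz2.1 _ hb
    · have hP := P_cons hb h0 hw hz
      have h2 := zero_word hF hP (by simp)
      have h3 := zero_word hF (P_reverse hP) (by simp)
      simp only [List.reverse_cons, List.reverse_nil, List.nil_append, List.cons_append,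
        pr_cons, pr_nil, mul_one] at h2 h3
      rw [h2, h3]
  · rw [zero_left h1 hF hb h0 hw (by simp)]
    have hr := P_reverse hw
    obtain ⟨z', w', hzw⟩ : ∃ z' w', (z :: y :: w).reverse = z' :: w' := by
      rcases h : (z :: y :: w).reverse with _ | ⟨z', w'⟩
      · simp at h
      · exact ⟨z', w', rfl⟩
    have hn : w' ≠ [] := by
      rintro rfl
      have := congrArg List.length hzw
      simp at this
    rw [hzw] at hr
    have := zero_right h1 hF hb h0 hr hn
    rwa [← hzw, List.reverse_reverse] at this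

lemma comm_V (h1 : τ 1 = 1) (hF : FreeFam τ S)
    (hT : ∀ j, ∀ x ∈ S j, ∀ y ∈ S j, τ (x * y) = τ (y * x)) {j : J} {b : B} (hb : b ∈ S j)
    {x : B} (hx : x ∈ V τ S) : τ (x * b) = τ (b * x) := by
  refine Submodule.span_induction (p := fun x _ => τ (x * b) = τ (b * x)) ?_ ?_ ?_ ?_ hx
  · rintro y ⟨w, hw, rfl⟩
    have h := comm_word h1 hF hT (cen_mem (τ := τ) hb) (cen_zero h1 _) hw
    rw [mul_sub, sub_mul, map_sub, map_sub, ← Algebra.commutes (τ b) (pr w)] at h
    exact sub_left_inj.1 h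
  · simp
  · intro a c _ _ ha hc
    rw [add_mul, mul_add, map_add, map_add, ha, hc]
  · intro c y _ hy
    rw [smul_mul_assoc, mul_smul_comm, map_smul, map_smul, hy]

lemma comm_adj (h1 : τ 1 = 1) (hF : FreeFam τ S)
    (hT : ∀ j, ∀ x ∈ S j, ∀ y ∈ S j, τ (x * y) = τ (y * x)) {y : B}
    (hy : y ∈ Algebra.adjoin ℂ (⋃ j, (S j : Set B))) :
    ∀ x ∈ Algebra.adjoin ℂ (⋃ j, (S j : Set B)), τ (x * y) = τ (y * x) := by
  refine Algebra.adjoin_induction
    (p := fun y _ => ∀ x ∈ Algebra.adjoin ℂ (⋃ j, (S j : Set B)), τ (x * y) = τ (y * x))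
    ?_ ?_ ?_ ?_ hy
  · intro b hb x hx
    obtain ⟨j, hj⟩ := Set.mem_iUnion.1 hb
    exact comm_V h1 hF hT hj (adj_V h1 hx)
  · intro r x _
    rw [Algebra.commutes]
  · intro a b _ _ iha ihb x hx
    rw [mul_add, add_mul, map_add, map_add, iha x hx, ihb x hx]
  · intro a b ha hb iha ihb x hx
    rw [← mul_assoc, ihb _ (mul_mem hx ha), ← mul_assoc, iha _ (mul_mem hb hx), ← mul_assoc]

end

theorem t_TRC : S_TRC := by
  intro J B _ τ S hτ h1 hF hT hcl
  have hc : Continuous τ :=
    AddMonoidHomClass.continuous_of_bound τ 1 (fun x => by rw [one_mul]; exact hτ x)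
  have hd : ∀ x : B, x ∈ closure ((StarAlgebra.adjoin ℂ (⋃ j, (S j : Set B)) :
      StarSubalgebra ℂ B) : Set B) := by
    intro x
    rw [← StarSubalgebra.topologicalClosure_coe, hcl]
    trivial
  have hA : ∀ y ∈ StarAlgebra.adjoin ℂ (⋃ j, (S j : Set B)), ∀ x : B, τ (x * y) = τ (y * x) := by
    intro y hy x
    have hcl' : IsClosed {x : B | τ (x * y) = τ (y * x)} :=
      isClosed_eq (hc.comp (continuous_id.mul continuous_const))
        (hc.comp (continuous_const.mul continuous_id))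
    refine closure_minimal ?_ hcl' (hd x)
    intro x hx
    exact comm_adj h1 hF hT ((adj_iff y).1 hy) x ((adj_iff x).1 hx)
  intro x y
  have hcl' : IsClosed {y : B | τ (x * y) = τ (y * x)} :=
    isClosed_eq (hc.comp (continuous_const.mul continuous_id))
      (hc.comp (continuous_id.mul continuous_const))
  exact closure_minimal (fun y hy => hA y hy x) hcl' (hd y)

end Pool.Agent.H308R2.ZS.T_TRC
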